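import Mathlib

-- part Pool.Agent.Lib.MP_0287c7_lc.Stick
section

set_option autoImplicit false
open Classical Finset

namespace Pool.Agent.Lib.MP_0287c7_lc

/-- binary weight of the lowest `l` bits -/
def wt : ℕ → ℕ → ℕ
  | 0, _ => 0
  | l + 1, j => j % 2 + wt l (j / 2)

lemma wt_zero (l : ℕ) : wt l 0 = 0 := by
  induction l with
  | zero => rfl
  | succ l ih => simp [wt, ih]

lemma wt_compl (l : ℕ) : ∀ j, j < 2 ^ l → wt l j + wt l (2 ^ l - 1 - j) = l := by
  induction l with
  | zero => intro j _; rfl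
  | succ l ih =>
    intro j hj
    have h1 : j / 2 < 2 ^ l := by rw [pow_succ] at hj; omega
    have h2 : (2 ^ (l + 1) - 1 - j) / 2 = 2 ^ l - 1 - j / 2 := by rw [pow_succ] at hj ⊢; omega
    have h3 : j % 2 + (2 ^ (l + 1) - 1 - j) % 2 = 1 := by rw [pow_succ] at hj ⊢; omega
    have := ih _ h1
    simp only [wt, h2]
    omega

lemma wt_eq_sum (l : ℕ) : ∀ j, wt l j = ∑ x ∈ range l, j / 2 ^ x % 2 := by
  induction l with
  | zero => intro j; rfl
  | succ l ih =>
    intro j
    rw [sum_range_succ', wt, ih, add_comm]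
    congr 1
    · refine sum_congr rfl fun x _ => ?_
      rw [Nat.div_div_eq_div_mul, pow_succ']
    · simp

variable {F : Type} [Field F]

/-- absolute trace, as a sum of conjugates -/
noncomputable def tr (n : ℕ) (y : F) : F := ∑ i ∈ range n, y ^ (2 ^ i)

/-- the sign character -/
noncomputable def sg (n : ℕ) (y : F) : ℤ := if ∑ i ∈ range n, y ^ (2 ^ i) = 0 then 1 else -1

/-- bentness of the monomial function -/
def Bent [Fintype F] (n d : ℕ) (a : F) : Prop :=
  ∀ u : F, |∑ c : F, sg n (a * c ^ d) * sg n (u * c)| = 2 ^ (n / 2)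

lemma sg_def (n : ℕ) (y : F) : sg n y = if tr n y = 0 then 1 else -1 := rfl

lemma sg_zero (n : ℕ) : sg n (0 : F) = 1 := by
  rw [sg_def, if_pos]
  simp [tr]

section
variable [CharP F 2]

lemma tr_add (n : ℕ) (x y : F) : tr n (x + y) = tr n x + tr n y := by
  have : Fact (Nat.Prime 2) := ⟨Nat.prime_two⟩
  simp only [tr, add_pow_char_pow, sum_add_distrib]

lemma tr_sq' (n : ℕ) (y : F) : tr n (y ^ 2) = tr n y ^ 2 := by
  have : Fact (Nat.Prime 2) := ⟨Nat.prime_two⟩
  simp only [tr, sum_pow_char]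
  refine sum_congr rfl fun i _ => ?_
  rw [← pow_mul, ← pow_mul, mul_comm]

variable [Fintype F] {n : ℕ}

omit [CharP F 2] in
lemma tr_sq (hF : Fintype.card F = 2 ^ n) (y : F) : tr n (y ^ 2) = tr n y := by
  have h1 : ∑ i ∈ range (n + 1), y ^ (2 ^ i) = tr n y + y := by
    rw [sum_range_succ, ← hF, FiniteField.pow_card]; rfl
  have h2 : ∑ i ∈ range (n + 1), y ^ (2 ^ i) = tr n (y ^ 2) + y := by
    rw [sum_range_succ', pow_zero, pow_one, tr]
    congr 1
    refine sum_congr rfl fun i _ => ?_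
    rw [← pow_mul, pow_succ']
  rw [h1] at h2
  exact (add_right_cancel h2).symm

lemma tr_cases (hF : Fintype.card F = 2 ^ n) (y : F) : tr n y = 0 ∨ tr n y = 1 := by
  have h : tr n y ^ 2 = tr n y := by rw [← tr_sq', tr_sq hF]
  have : tr n y * (tr n y - 1) = 0 := by linear_combination h
  rcases mul_eq_zero.1 this with h | h
  · exact Or.inl h
  · exact Or.inr (sub_eq_zero.1 h)

lemma sg_add (hF : Fintype.card F = 2 ^ n) (x y : F) : sg n (x + y) = sg n x * sg n y := by
  have h2 : (1 : F) + 1 = 0 := by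
    have := CharP.cast_eq_zero F 2
    rw [← this]; norm_num
  simp only [sg_def, tr_add]
  rcases tr_cases hF x with hx | hx <;> rcases tr_cases hF y with hy | hy <;> simp [hx, hy, h2]

omit [CharP F 2] in
lemma sg_sq (hF : Fintype.card F = 2 ^ n) (y : F) : sg n (y ^ 2) = sg n y := by
  simp only [sg_def, tr_sq hF]

omit [CharP F 2] in
lemma sg_pow (hF : Fintype.card F = 2 ^ n) (y : F) (e : ℕ) : sg n (y ^ 2 ^ e) = sg n y := by
  induction e with
  | zero => simp
  | succ e ih => rw [pow_succ, pow_mul, sg_sq hF, ih]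

omit [CharP F 2] in
lemma pow_congr (hF : Fintype.card F = 2 ^ n) (c : F) {d e : ℕ} (hd : 0 < d) (he : 0 < e)
    (h : d ≡ e [MOD 2 ^ n - 1]) : c ^ d = c ^ e := by
  rcases eq_or_ne c 0 with rfl | hc
  · rw [zero_pow hd.ne', zero_pow he.ne']
  · have h1 : c ^ (2 ^ n - 1) = 1 := by rw [← hF]; exact FiniteField.pow_card_sub_one_eq_one c hc
    rw [pow_eq_pow_mod d h1, pow_eq_pow_mod e h1, h]

omit [CharP F 2] in
lemma Bent.equiv (hF : Fintype.card F = 2 ^ n) {d e j : ℕ} {a : F} (hb : Bent n d a) (hd : 0 < d)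
    (he : 0 < e) (h : e ≡ 2 ^ j * d [MOD 2 ^ n - 1]) : Bent n e (a ^ 2 ^ j) := by
  intro u
  rw [← hb u]
  congr 1
  refine sum_congr rfl fun c _ => ?_
  congr 1
  rw [pow_congr hF c he (by positivity) h, ← sg_pow hF (a * c ^ d) j, mul_pow, ← pow_mul,
    mul_comm d]

omit [CharP F 2] in
lemma sum_inv_tr (hF : Fintype.card F = 2 ^ n) (hn : 2 ≤ n) :
    ∑ x : F, x⁻¹ * tr n x = -1 := by
  have hN : 4 ≤ 2 ^ n := by
    calc 4 = 2 ^ 2 := rfl
      _ ≤ 2 ^ n := Nat.pow_le_pow_right (by norm_num) hn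
  have h1 : ∑ x : F, x⁻¹ * tr n x = ∑ i ∈ range n, ∑ x : Fˣ, (x : F) ^ (2 ^ i - 1) := by
    rw [sum_comm]
    have : ∑ x : F, x⁻¹ * tr n x = ∑ x : Fˣ, (x : F)⁻¹ * tr n (x : F) := by
      rw [← sum_subset (subset_univ (univ.map ⟨((↑) : Fˣ → F), Units.val_injective⟩)), sum_map]
      · rfl
      · intro x _ hx
        have : x = 0 := by
          by_contra h0
          exact hx (mem_map.2 ⟨Units.mk0 x h0, mem_univ _, rfl⟩)
        simp [this]
    rw [this]
    refine sum_congr rfl fun x _ => ?_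
    rw [tr, mul_sum]
    refine sum_congr rfl fun i _ => ?_
    have h2 : 2 ^ i = (2 ^ i - 1) + 1 := by have := Nat.one_le_two_pow (n := i); omega
    conv_lhs => rw [h2, pow_succ]
    have := x.ne_zero
    field_simp
  rw [h1]
  simp only [FiniteField.sum_pow_units, hF]
  rw [sum_eq_single 0]
  · simp
  · intro i hi h0
    rw [if_neg]
    intro hd
    have h3 : 2 ^ i < 2 ^ n := Nat.pow_lt_pow_right (by norm_num) (mem_range.1 hi)
    have h4 : 1 < 2 ^ i := Nat.one_lt_two_pow h0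
    have := Nat.le_of_dvd (by omega) hd
    omega
  · intro h; exact absurd (mem_range.2 (by omega)) h

end

end Pool.Agent.Lib.MP_0287c7_lc
end

-- part Pool.Agent.Lib.MP_0287c7_lc.Digits
section

set_option autoImplicit false
open Classical Finset

namespace Pool.Agent.Lib.MP_0287c7_lc

lemma signed_bound (η : ℕ → ℤ) (h : ∀ i, |η i| ≤ 1) (l : ℕ) :
    |∑ i ∈ range l, η i * 2 ^ i| ≤ 2 ^ l - 1 := by
  induction l with
  | zero => simp
  | succ l ih =>
    rw [sum_range_succ]
    have h1 : |η l * 2 ^ l| ≤ 2 ^ l := by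
      rw [abs_mul, abs_of_pos (by positivity : (0 : ℤ) < 2 ^ l)]
      exact mul_le_of_le_one_left (by positivity) (h l)
    have := abs_add_le (∑ i ∈ range l, η i * 2 ^ i) (η l * 2 ^ l)
    rw [pow_succ]; omega

lemma signed_zero (η : ℕ → ℤ) (h : ∀ i, |η i| ≤ 1) (l : ℕ)
    (h0 : ∑ i ∈ range l, η i * 2 ^ i = 0) : ∀ i < l, η i = 0 := by
  induction l with
  | zero => intro i hi; omega
  | succ l ih =>
    rw [sum_range_succ] at h0
    have h1 := signed_bound η h l
    have h2 : η l = 0 := by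
      by_contra h3
      have h4 : η l = 1 ∨ η l = -1 := by have := abs_le.1 (h l); omega
      have := abs_le.1 h1
      rcases h4 with h4 | h4 <;> rw [h4] at h0 <;> omega
    rw [h2, zero_mul, add_zero] at h0
    intro i hi
    rcases Nat.lt_succ_iff_lt_or_eq.1 hi with h5 | rfl
    · exact ih h0 i h5
    · exact h2

lemma sum_bits_nat (l : ℕ) : ∀ j, j < 2 ^ l → ∑ x ∈ range l, j / 2 ^ x % 2 * 2 ^ x = j := by
  induction l with
  | zero => intro j hj; simp; omega
  | succ l ih =>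
    intro j hj
    have h1 := ih (j / 2) (by rw [pow_succ] at hj; omega)
    rw [sum_range_succ']
    have : ∑ x ∈ range l, j / 2 ^ (x + 1) % 2 * 2 ^ (x + 1)
        = 2 * ∑ x ∈ range l, j / 2 / 2 ^ x % 2 * 2 ^ x := by
      rw [mul_sum]
      refine sum_congr rfl fun x _ => ?_
      rw [Nat.div_div_eq_div_mul, pow_succ']; ring
    rw [this, h1]; simp; omega

lemma wt_append (l1 l2 : ℕ) : ∀ x y, x < 2 ^ l1 →
    wt (l1 + l2) (x + 2 ^ l1 * y) = wt l1 x + wt l2 y := by
  induction l1 with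
  | zero => intro x y hx; have : x = 0 := by omega
            subst this; simp [wt]
  | succ l ih =>
    intro x y hx
    have h1 : (x + 2 ^ (l + 1) * y) / 2 = x / 2 + 2 ^ l * y := by
      rw [pow_succ, mul_right_comm]; omega
    have h2 : (x + 2 ^ (l + 1) * y) % 2 = x % 2 := by
      rw [pow_succ, mul_right_comm]; omega
    rw [show l + 1 + l2 = (l + l2) + 1 by ring, wt, wt, h1, h2,
      ih _ _ (by rw [pow_succ] at hx; omega)]
    ring

variable {n : ℕ} [NeZero n]

lemma sum_zmod {M : Type} [AddCommMonoid M] (g : ℕ → M) :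
    ∑ x : ZMod n, g x.val = ∑ i ∈ range n, g i := by
  obtain ⟨n', rfl⟩ := Nat.exists_eq_succ_of_ne_zero (NeZero.ne n)
  exact Fin.sum_univ_eq_sum_range g (n' + 1)

lemma sum_zmod' {M : Type} [AddCommMonoid M] (g : ZMod n → M) :
    ∑ x : ZMod n, g x = ∑ i ∈ range n, g (i : ZMod n) := by
  rw [← sum_zmod (fun i => g (i : ZMod n))]
  simp

/-- evaluation of a digit vector -/
def ev {R : Type} [CommRing R] (β : R) (f : ZMod n → ℤ) : R := ∑ x, (f x : R) * β ^ x.val

lemma pow_val_add {R : Type} [CommRing R] {β : R} (hβ : β ^ n = 1) (x y : ZMod n) :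
    β ^ (x + y).val = β ^ x.val * β ^ y.val := by
  rw [ZMod.val_add, ← pow_eq_pow_mod _ hβ, pow_add]

omit [NeZero n] in
lemma pow_val_cast {R : Type} [CommRing R] {β : R} (hβ : β ^ n = 1) (i : ℕ) :
    β ^ (i : ZMod n).val = β ^ i := by
  rw [ZMod.val_natCast, ← pow_eq_pow_mod _ hβ]

lemma ev_shift {R : Type} [CommRing R] {β : R} (hβ : β ^ n = 1) (f : ZMod n → ℤ) (p : ZMod n) :
    ev β (fun x => f (x - p)) = β ^ p.val * ev β f := by
  unfold ev
  rw [mul_sum, ← Equiv.sum_comp (Equiv.addRight p)]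
  refine sum_congr rfl fun x _ => ?_
  simp only [Equiv.coe_addRight, add_sub_cancel_right, pow_val_add hβ]; ring

lemma ev_add {R : Type} [CommRing R] (β : R) (f g : ZMod n → ℤ) :
    ev β (fun x => f x + g x) = ev β f + ev β g := by
  simp [ev, add_mul, sum_add_distrib]

lemma ev_sub {R : Type} [CommRing R] (β : R) (f g : ZMod n → ℤ) :
    ev β (fun x => f x - g x) = ev β f - ev β g := by
  simp [ev, sub_mul, sum_sub_distrib]

lemma ev_mul {R : Type} [CommRing R] (β : R) (c : ℤ) (f : ZMod n → ℤ) :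
    ev β (fun x => c * f x) = c * ev β f := by
  simp [ev, mul_sum, mul_assoc]

lemma ev_single {R : Type} [CommRing R] (β : R) (z : ZMod n) :
    ev β (fun x => if x = z then 1 else 0) = β ^ z.val := by
  simp [ev]

lemma ev_cast (R : Type) [CommRing R] (f : ZMod n → ℤ) : ((ev 2 f : ℤ) : R) = ev 2 f := by
  simp [ev]

lemma ev_one : ev (2 : ℤ) (fun _ : ZMod n => 1) = 2 ^ n - 1 := by
  unfold ev
  simp only [Int.cast_id, one_mul]
  rw [sum_zmod (fun i => (2 : ℤ) ^ i)]
  have := mul_geom_sum (2 : ℤ) n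
  linarith

lemma sum_shift (f : ZMod n → ℤ) (p : ZMod n) : ∑ x, f (x - p) = ∑ x, f x :=
  Equiv.sum_comp (Equiv.subRight p) f

/-- zero-one vectors -/
def IsBit {X : Type} (f : X → ℤ) : Prop := ∀ x, f x = 0 ∨ f x = 1

/-- binary digits -/
def bits (n j : ℕ) : ZMod n → ℤ := fun x => ((j / 2 ^ x.val % 2 : ℕ) : ℤ)

omit [NeZero n] in
lemma isBit_bits (j : ℕ) : IsBit (bits n j) := by
  intro x; unfold bits; omega

lemma ev_bits {j : ℕ} (hj : j < 2 ^ n) : ev (2 : ℤ) (bits n j) = j := by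
  unfold ev bits
  simp only [Int.cast_id]
  rw [sum_zmod (fun i => ((j / 2 ^ i % 2 : ℕ) : ℤ) * 2 ^ i)]
  exact_mod_cast sum_bits_nat n j hj

lemma ev_bits' (R : Type) [CommRing R] {j : ℕ} (hj : j < 2 ^ n) : ev (2 : R) (bits n j) = j := by
  rw [← ev_cast, ev_bits hj]; simp

lemma sum_bits (j : ℕ) : ∑ x, bits n j x = wt n j := by
  unfold bits
  rw [sum_zmod (fun i => ((j / 2 ^ i % 2 : ℕ) : ℤ)), wt_eq_sum]
  push_cast; rfl

lemma bit_inj {f g : ZMod n → ℤ} (hf : IsBit f) (hg : IsBit g) (h : ev (2 : ℤ) f = ev 2 g) :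
    f = g := by
  have h1 : ev (2 : ℤ) (fun x => f x - g x) = 0 := by rw [ev_sub, h, sub_self]
  unfold ev at h1
  rw [sum_zmod'] at h1
  have h2 := signed_zero (fun i => f i - g i) (fun i => by
    rcases hf i with h | h <;> rcases hg i with h' | h' <;> simp [h, h']) n (by
    rw [← h1]
    refine sum_congr rfl fun i hi => ?_
    rw [ZMod.val_cast_of_lt (mem_range.1 hi)]; rfl)
  funext x
  have := h2 x.val (ZMod.val_lt x)
  simp only [ZMod.natCast_val, ZMod.cast_id', id] at this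
  omega

lemma exists_bits {f : ZMod n → ℤ} (hf : IsBit f) : ∃ j < 2 ^ n, f = bits n j := by
  have h0 : 0 ≤ ev (2 : ℤ) f := sum_nonneg fun x _ => by
    rcases hf x with h | h <;> simp [h]
  have h1 : ev (2 : ℤ) f ≤ 2 ^ n - 1 := by
    rw [← ev_one]
    refine sum_le_sum fun x _ => ?_
    rcases hf x with h | h <;> simp [h]
  obtain ⟨j, hj⟩ := Int.eq_ofNat_of_zero_le h0
  have h2 : j < 2 ^ n := by
    have : (j : ℤ) < 2 ^ n := by omega
    exact_mod_cast this
  exact ⟨j, h2, bit_inj hf (isBit_bits j) (by rw [ev_bits h2, hj])⟩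

omit [NeZero n] in
lemma wt_top : wt n (2 ^ n - 1) = n := by
  have := wt_compl n 0 (by positivity)
  rw [wt_zero] at this
  simpa using this

/-- existence of nonnegative carries -/
lemma carry (δ : ZMod n → ℤ) (hd : (2 ^ n - 1 : ℤ) ∣ ev 2 δ) (h1 : ∀ x, -1 ≤ δ x)
    (h0 : ∃ x, 0 ≤ δ x) : ∃ γ : ZMod n → ℤ, (∀ x, 0 ≤ γ x) ∧ ∀ x, δ x + γ (x - 1) = 2 * γ x := by
  have hn : 0 < n := Nat.pos_of_ne_zero (NeZero.ne n)
  have hN : (0 : ℤ) < 2 ^ n - 1 := by
    have : (1 : ℤ) < 2 ^ n := one_lt_pow₀ (by norm_num) hn.ne'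
    omega
  set S : ZMod n → ℤ := fun x => ∑ l ∈ range n, δ (x + 1 + l) * 2 ^ l with hS
  have hrec : ∀ x, 2 * S x - S (x - 1) = (2 ^ n - 1) * δ x := by
    intro x
    have := sum_range_sub (fun l : ℕ => δ (x + l) * 2 ^ l) n
    simp only [ZMod.natCast_self, add_zero, Nat.cast_zero, pow_zero, mul_one] at this
    rw [sub_mul, one_mul, mul_comm (2 ^ n), ← this, hS, mul_sum, ← sum_sub_distrib]
    refine sum_congr rfl fun l _ => ?_
    push_cast
    rw [sub_add_cancel, add_assoc, add_comm (1 : ZMod n)]; ring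
  have hS0 : S (-1) = ev 2 δ := by
    unfold ev
    rw [sum_zmod']
    refine sum_congr rfl fun l hl => ?_
    rw [ZMod.val_cast_of_lt (mem_range.1 hl)]; simp
  have hdv : ∀ k : ℕ, (2 ^ n - 1 : ℤ) ∣ S (-1 - k) := by
    intro k
    induction k with
    | zero => simpa [hS0] using hd
    | succ k ih =>
      have := hrec (-1 - k)
      have h2 : S (-1 - ((k + 1 : ℕ) : ZMod n)) = 2 * S (-1 - k) - (2 ^ n - 1) * δ (-1 - k) := by
        push_cast
        rw [← sub_sub]; linarith
      rw [h2]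
      exact dvd_sub (Dvd.dvd.mul_left ih 2) (dvd_mul_right _ _)
  have hdv' : ∀ x, (2 ^ n - 1 : ℤ) ∣ S x := by
    intro x
    have := hdv (-1 - x).val
    simpa using this
  choose γ hγ using hdv'
  refine ⟨γ, fun x => ?_, fun x => ?_⟩
  · obtain ⟨x0, hx0⟩ := h0
    have h3 : -(2 ^ n - 1 : ℤ) < S x := by
      have h4 : -(2 ^ n - 1 : ℤ) = ∑ l ∈ range n, (-1) * 2 ^ l := by
        have := mul_geom_sum (2 : ℤ) n
        rw [← mul_sum]; linarith
      rw [h4]
      refine sum_lt_sum (fun l _ => ?_) ⟨(x0 - (x + 1)).val, mem_range.2 (ZMod.val_lt _), ?_⟩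
      · exact mul_le_mul_of_nonneg_right (h1 _) (by positivity)
      · refine mul_lt_mul_of_pos_right ?_ (by positivity)
        simp only [ZMod.natCast_val, ZMod.cast_id', id, add_sub_cancel]
        omega
    rw [hγ] at h3
    by_contra h5
    have : γ x ≤ -1 := by omega
    nlinarith
  · have := hrec x
    rw [hγ, hγ] at this
    apply mul_left_cancel₀ hN.ne'
    linarith

lemma exists_edge (P : ZMod n → Prop) (h1 : ∃ x, P x) (h2 : ∃ x, ¬ P x) :
    ∃ y, P y ∧ ¬ P (y + 1) := by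
  by_contra h
  push Not at h
  obtain ⟨x, hx⟩ := h1
  obtain ⟨z, hz⟩ := h2
  have : ∀ k : ℕ, P (x + k) := by
    intro k
    induction k with
    | zero => simpa using hx
    | succ k ih => have := h _ ih; push_cast; rwa [← add_assoc]
  apply hz
  simpa using this (z - x).val

end Pool.Agent.Lib.MP_0287c7_lc
end

-- part Pool.Agent.Lib.MP_0287c7_lc.NihoComb
section

set_option autoImplicit false
open Classical Finset

namespace Pool.Agent.Lib.MP_0287c7_lc

variable {n m : ℕ} [NeZero n]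

/-- column sums -/
def col (m : ℕ) (f : ZMod n → ℤ) (x : ZMod n) : ℤ := f x + f (x - m)

omit [NeZero n] in
lemma mm_add (h : n = 2 * m) : (m : ZMod n) + m = 0 := by
  have : ((2 * m : ℕ) : ZMod n) = 0 := by rw [← h]; exact ZMod.natCast_self n
  push_cast at this
  linear_combination this

omit [NeZero n] in
lemma sub_mm (h : n = 2 * m) (x : ZMod n) : x - m - m = x := by
  linear_combination -mm_add h

omit [NeZero n] in
lemma col_sub (h : n = 2 * m) (f : ZMod n → ℤ) (x : ZMod n) : col m f (x - m) = col m f x := by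
  unfold col; rw [sub_mm h, add_comm]

lemma sum_col (f : ZMod n → ℤ) : ∑ x, col m f x = 2 * ∑ x, f x := by
  unfold col; rw [sum_add_distrib, sum_shift]; ring

omit [NeZero n] in
lemma two_pow_m : (2 : ZMod (2 ^ m + 1)) ^ m = -1 := by
  have : ((2 ^ m + 1 : ℕ) : ZMod (2 ^ m + 1)) = 0 := ZMod.natCast_self _
  push_cast at this
  linear_combination this

omit [NeZero n] in
lemma two_pow_n (h : n = 2 * m) : (2 : ZMod (2 ^ m + 1)) ^ n = 1 := by
  rw [h, mul_comm, pow_mul, two_pow_m]; ring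

omit [NeZero n] in
lemma two_unit (hm : 0 < m) {x y : ZMod (2 ^ m + 1)} (hxy : 2 * x = 2 * y) : x = y := by
  have h1 := two_pow_m (m := m)
  have h2 : (2 : ZMod (2 ^ m + 1)) ^ m = 2 ^ (m - 1) * 2 := by
    rw [← pow_succ, Nat.sub_add_cancel hm]
  linear_combination (-2 ^ (m - 1)) * hxy + (x - y) * h1 - (x - y) * h2

lemma m_val (h : n = 2 * m) : (m : ZMod n).val = m :=
  ZMod.val_cast_of_lt (by have := NeZero.ne n; omega)

lemma evM_shift (h : n = 2 * m) (f : ZMod n → ℤ) :
    ev (2 : ZMod (2 ^ m + 1)) (fun x : ZMod n => f (x - m)) = -ev 2 f := by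
  rw [ev_shift (two_pow_n h), m_val h, two_pow_m]; ring

/-- pairs with disjoint columns -/
structure Semi (m : ℕ) (a b : ZMod n → ℤ) : Prop where
  ha : IsBit a
  hb : IsBit b
  le : ∀ x, col m a x + col m b x ≤ 1

/-- pairs partitioning the columns -/
structure Valid (m : ℕ) (a b : ZMod n → ℤ) : Prop where
  ha : IsBit a
  hb : IsBit b
  eq : ∀ x, col m a x + col m b x = 1

omit [NeZero n] in
lemma Semi.symm {a b : ZMod n → ℤ} (h : Semi m a b) : Semi m b a :=
  ⟨h.hb, h.ha, fun x => by rw [add_comm]; exact h.le x⟩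

omit [NeZero n] in
lemma col_nonneg {a : ZMod n → ℤ} (ha : IsBit a) (x : ZMod n) : 0 ≤ col m a x := by
  unfold col
  rcases ha x with h | h <;> rcases ha (x - m) with h' | h' <;> omega

lemma Valid.sum (h : n = 2 * m) {a b : ZMod n → ℤ} (hv : Valid m a b) :
    ∑ x, a x + ∑ x, b x = m := by
  have h1 : ∑ x, (col m a x + col m b x) = ∑ _x : ZMod n, (1 : ℤ) :=
    sum_congr rfl fun x _ => hv.eq x
  rw [sum_add_distrib, sum_col, sum_col] at h1
  simp only [sum_const, card_univ, ZMod.card, nsmul_eq_mul, mul_one] at h1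
  omega

lemma move (h : n = 2 * m) (hm : 2 ≤ m) {a b : ZMod n → ℤ} (hs : Semi m a b) {x : ZMod n}
    (hx : a x = 1) (hz : col m a (x + 1) + col m b (x + 1) = 0) :
    ∃ a', Semi m a' b ∧ ev (2 : ZMod (2 ^ m + 1)) a' = ev 2 a ∧ ∑ y, a' y = ∑ y, a y + 1 ∧
      ∃ y, col m a' y + col m b y = 1 := by
  have hcast : ∀ i : ℕ, 0 < i → i < n → (i : ZMod n) ≠ 0 := by
    intro i h0 hi h1
    exact absurd (Nat.le_of_dvd h0 ((ZMod.natCast_eq_zero_iff i n).1 h1)) (by omega)
  have n1 : x + 1 ≠ x := by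
    intro h1
    apply hcast 1 one_pos (by omega)
    push_cast; linear_combination h1
  have n2 : x - m ≠ x := by
    intro h1
    apply hcast m (by omega) (by omega)
    linear_combination -h1
  have n3 : x + 1 ≠ x - m := by
    intro h1
    apply hcast (m + 1) (by omega) (by omega)
    push_cast; linear_combination h1
  have c1 := col_nonneg (m := m) hs.ha (x + 1)
  have c2 := col_nonneg (m := m) hs.hb (x + 1)
  have c3 := col_nonneg (m := m) hs.hb x
  have a1 : a (x + 1) = 0 := by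
    have : col m a (x + 1) = 0 := by omega
    unfold col at this
    rcases hs.ha (x + 1) with h | h <;> rcases hs.ha (x + 1 - m) with h' | h' <;> omega
  have a2 : a (x - m) = 0 := by
    have := hs.le x
    unfold col at this c3
    rcases hs.ha (x - m) with h' | h' <;> omega
  set e : ZMod n → ZMod n → ℤ := fun z y => if y = z then 1 else 0 with he
  have hcol : ∀ y, col m (fun y => a y - e x y + e (x + 1) y + e (x - m) y) y
      = col m a y + col m (e (x + 1)) y := by
    intro y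
    have e1 : e (x - m) (y - m) = e x y := by simp [he]
    have e2 : e x (y - m) = e (x - m) y := by
      simp only [he]
      congr 1
      apply propext
      constructor
      · rintro rfl; rw [sub_mm h]
      · rintro rfl; rw [sub_mm h]
    simp only [col]
    rw [e1, e2]; ring
  refine ⟨fun y => a y - e x y + e (x + 1) y + e (x - m) y, ⟨fun y => ?_, hs.hb, fun y => ?_⟩,
    ?_, ?_, x + 1, ?_⟩
  · simp only [he]
    by_cases y1 : y = x
    · subst y1; simp [hx, n1.symm, n2.symm]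
    by_cases y2 : y = x + 1
    · subst y2; simp [a1, n1, n3]
    by_cases y3 : y = x - m
    · subst y3; simp [a2, n2, n3.symm]
    simpa [y1, y2, y3] using hs.ha y
  · rw [hcol]
    have hl := hs.le y
    by_cases y2 : y = x + 1
    · subst y2
      have : x + 1 - m ≠ x + 1 := by
        intro h1; apply n2; linear_combination h1
      simp only [col, he, if_neg this, if_true] at hz ⊢
      omega
    by_cases y3 : y - m = x + 1
    · rw [← col_sub h a y, ← col_sub h b y, y3]
      simp only [col, he, if_neg y2, if_pos y3] at hz ⊢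
      omega
    simp only [col, he, if_neg y2, if_neg y3] at hl ⊢
    omega
  · rw [ev_add, ev_add, ev_sub]
    have e3 : e (x - m) = fun y => e x (y - m) := by
      funext y
      simp only [he]
      congr 1
      apply propext
      constructor
      · rintro rfl; rw [sub_mm h]
      · rintro rfl; rw [sub_mm h]
    rw [e3, evM_shift h, he]
    simp only [ev_single]
    have : (1 : ZMod n).val = 1 := by
      have := ZMod.val_cast_of_lt (n := n) (a := 1) (by omega)
      simpa using this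
    rw [pow_val_add (two_pow_n h), this]; ring
  · simp [he, sum_add_distrib, sum_sub_distrib]
  · rw [hcol]
    have : x + 1 - m ≠ x + 1 := by
      intro h1; apply n2; linear_combination h1
    simp only [col, he, if_neg this, if_true] at hz ⊢
    omega

lemma fill (h : n = 2 * m) (hm : 2 ≤ m) (k : ℕ) : ∀ {a b : ZMod n → ℤ}, Semi m a b →
    (∃ y, col m a y + col m b y = 1) → (m : ℤ) ≤ ∑ x, a x + ∑ x, b x + k →
    ∃ a0 b0, Valid m a0 b0 ∧ ev (2 : ZMod (2 ^ m + 1)) a0 = ev 2 a ∧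
      ev (2 : ZMod (2 ^ m + 1)) b0 = ev 2 b ∧ (∑ x, b x < ∑ x, b0 x ∨ b0 = b) := by
  induction k with
  | zero =>
    intro a b hs _ hk
    refine ⟨a, b, ⟨hs.ha, hs.hb, fun x => ?_⟩, rfl, rfl, Or.inr rfl⟩
    by_contra hx
    have h1 : ∑ x, (col m a x + col m b x) < ∑ _x : ZMod n, (1 : ℤ) :=
      sum_lt_sum (fun y _ => hs.le y) ⟨x, mem_univ _, lt_of_le_of_ne (hs.le x) hx⟩
    rw [sum_add_distrib, sum_col, sum_col] at h1
    simp only [sum_const, card_univ, ZMod.card, nsmul_eq_mul, mul_one] at h1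
    omega
  | succ k ih =>
    intro a b hs hy hk
    by_cases hv : ∀ x, col m a x + col m b x = 1
    · exact ⟨a, b, ⟨hs.ha, hs.hb, hv⟩, rfl, rfl, Or.inr rfl⟩
    push Not at hv
    obtain ⟨y, hy1, hy2⟩ := exists_edge (fun x => col m a x + col m b x = 1) hy hv
    have hz : col m a (y + 1) + col m b (y + 1) = 0 := by
      have := hs.le (y + 1)
      have := col_nonneg (m := m) hs.ha (y + 1)
      have := col_nonneg (m := m) hs.hb (y + 1)
      omega
    have hz' : col m a (y - m + 1) + col m b (y - m + 1) = 0 := by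
      rw [show y - m + 1 = y + 1 - m by ring, col_sub h, col_sub h, hz]
    have key : ∃ x, (a x = 1 ∨ b x = 1) ∧ col m a (x + 1) + col m b (x + 1) = 0 := by
      unfold col at hy1
      rcases hs.ha y with h1 | h1
      · rcases hs.hb y with h2 | h2
        · refine ⟨y - m, ?_, hz'⟩
          rcases hs.ha (y - m) with h3 | h3 <;> rcases hs.hb (y - m) with h4 | h4 <;> omega
        · exact ⟨y, Or.inr h2, hz⟩
      · exact ⟨y, Or.inl h1, hz⟩
    obtain ⟨x, hx | hx, hxz⟩ := key
    · obtain ⟨a', hs', e1, e2, e3⟩ := move h hm hs hx hxz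
      obtain ⟨a0, b0, v, f1, f2, f3⟩ := ih hs' e3 (by push_cast at hk; omega)
      exact ⟨a0, b0, v, f1.trans e1, f2, f3⟩
    · obtain ⟨b', hs', e1, e2, y', e3⟩ := move h hm hs.symm hx (by omega)
      obtain ⟨a0, b0, v, f1, f2, f3⟩ := ih hs'.symm ⟨y', by omega⟩ (by push_cast at hk; omega)
      refine ⟨a0, b0, v, f1, f2.trans e1, Or.inl ?_⟩
      rcases f3 with f3 | f3
      · omega
      · rw [f3]; omega

lemma fill' (h : n = 2 * m) (hm : 2 ≤ m) {a b : ZMod n → ℤ} (hs : Semi m a b)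
    (hy : ∃ y, col m a y + col m b y = 1) :
    ∃ a0 b0, Valid m a0 b0 ∧ ev (2 : ZMod (2 ^ m + 1)) a0 = ev 2 a ∧
      ev (2 : ZMod (2 ^ m + 1)) b0 = ev 2 b ∧ (∑ x, b x < ∑ x, b0 x ∨ b0 = b) := by
  refine fill h hm m hs hy ?_
  have h1 : 0 ≤ ∑ x, a x := sum_nonneg fun x _ => by rcases hs.ha x with h | h <;> omega
  have h2 : 0 ≤ ∑ x, b x := sum_nonneg fun x _ => by rcases hs.hb x with h | h <;> omega
  omega

lemma ev_anti (h : n = 2 * m) (D : ZMod n → ℤ) (hD : ∀ x, D (x - m) = -D x) (z : ZMod n) :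
    ev (2 : ZMod (2 ^ m + 1)) D
      = 2 * (2 ^ z.val * ((∑ i ∈ range m, D (z + i) * 2 ^ i : ℤ) : ZMod (2 ^ m + 1))) := by
  have h1 := ev_shift (two_pow_n h) (fun x => D (z + x)) z
  simp only [add_sub_cancel] at h1
  rw [show D = fun x => D x from rfl, h1, mul_left_comm]
  congr 1
  unfold ev
  rw [sum_zmod']
  simp only [pow_val_cast (two_pow_n h)]
  rw [show range n = range (m + m) by rw [h, two_mul], sum_range_add]
  push_cast
  rw [two_mul]
  congr 1
  refine sum_congr rfl fun i _ => ?_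
  have : z + ((m : ZMod n) + i) = z + i - m := by linear_combination mm_add h
  rw [this, hD, pow_add, two_pow_m]; push_cast; ring

/-- uniqueness at a maximal pair -/
theorem niho_unique (h : n = 2 * m) (hm : 2 ≤ m) (δ : ZMod (2 ^ m + 1)) {a b : ZMod n → ℤ}
    (hv : Valid m a b) (hr : δ * ev 2 a + ev 2 b = 0) (hb : ev (2 : ZMod (2 ^ m + 1)) b ≠ 0)
    (hmax : ∀ a' b' : ZMod n → ℤ, Valid m a' b' → δ * ev 2 a' + ev 2 b' = 0 →
      ev (2 : ZMod (2 ^ m + 1)) b' ≠ 0 → ∑ x, b' x ≤ ∑ x, b x)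
    {a' : ZMod n → ℤ} (hv' : Valid m a' b) (hr' : δ * ev 2 a' + ev 2 b = 0) : a' = a := by
  obtain ⟨y, hy⟩ : ∃ y, b y = 1 := by
    by_contra h1
    push Not at h1
    apply hb
    have : b = fun _ => 0 := funext fun x => (hv.hb x).resolve_right (h1 x)
    simp [this, ev]
  have anti : ∀ {a' : ZMod n → ℤ}, Valid m a' b → ∀ x, a (x - m) - a' (x - m) = -(a x - a' x) := by
    intro a' hv' x
    have h1 := hv.eq x
    have h2 := hv'.eq x
    unfold col at h1 h2
    omega
  have ycol : ∀ {a' : ZMod n → ℤ}, Valid m a' b → a' y = 0 := by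
    intro a' hv'
    have h1 := hv'.eq y
    unfold col at h1
    rcases hv'.ha y with h2 | h2 <;> rcases hv'.ha (y - m) with h3 | h3 <;>
      rcases hv'.hb (y - m) with h4 | h4 <;> omega
  have step : ∀ {a' : ZMod n → ℤ}, Valid m a' b → δ * ev 2 a' + ev 2 b = 0 →
      a (y + 1) = a' (y + 1) ∧ ∃ a0, Valid m a0 b ∧ δ * ev 2 a0 + ev 2 b = 0 ∧
        2 * (ev (2 : ZMod (2 ^ m + 1)) a - ev 2 a0) = ev 2 a - ev 2 a' := by
    intro a' hv' hr'
    have hs : Semi m (fun x => a x * a' x) b := by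
      refine ⟨fun x => ?_, hv.hb, fun x => ?_⟩
      · rcases hv.ha x with h1 | h1 <;> rcases hv'.ha x with h2 | h2 <;> simp [h1, h2]
      · have h0 := hv.eq x
        unfold col at h0 ⊢
        rcases hv.ha x with h1 | h1 <;> rcases hv'.ha x with h2 | h2 <;>
          rcases hv.ha (x - m) with h3 | h3 <;> rcases hv'.ha (x - m) with h4 | h4 <;>
          simp only [h1, h2, h3, h4] at h0 ⊢ <;> omega
    have hmid : 2 * ev (2 : ZMod (2 ^ m + 1)) (fun x => a x * a' x) = ev 2 a + ev 2 a' := by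
      have h1 : ev (2 : ZMod (2 ^ m + 1)) (fun x => (a x - a' x) ^ 2) = 0 := by
        have h2 := evM_shift h (fun x => (a x - a' x) ^ 2)
        simp only [anti hv', neg_sq] at h2
        apply two_unit (by omega)
        linear_combination h2
      have h3 : (fun x => (a x - a' x) ^ 2) = fun x => (a x + a' x) - 2 * (a x * a' x) := by
        funext x
        rcases hv.ha x with h1 | h1 <;> rcases hv'.ha x with h2 | h2 <;> simp [h1, h2]
      rw [h3, ev_sub, ev_add, ev_mul] at h1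
      push_cast at h1
      linear_combination -h1
    have hrel : δ * ev 2 (fun x => a x * a' x) + ev (2 : ZMod (2 ^ m + 1)) b = 0 := by
      apply two_unit (by omega)
      linear_combination δ * hmid + hr + hr'
    constructor
    · by_contra hne
      have hz : col m b (y + 1) + col m (fun x => a x * a' x) (y + 1) = 0 := by
        have h0 := hv.eq (y + 1)
        have h0' := hv'.eq (y + 1)
        have c := col_nonneg (m := m) hv.hb (y + 1)
        simp only [col] at h0 h0' c ⊢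
        rcases hv.ha (y + 1) with h1 | h1 <;> rcases hv'.ha (y + 1) with h2 | h2 <;>
          rcases hv.ha (y + 1 - m) with h3 | h3 <;> rcases hv'.ha (y + 1 - m) with h4 | h4 <;>
          rw [h1, h2, h3, h4] <;> omega
      obtain ⟨b', hs', e1, e2, y', e3⟩ := move h hm hs.symm hy hz
      obtain ⟨a0, b0, v, f1, f2, f3⟩ := fill' h hm hs'.symm ⟨y', by omega⟩
      have := hmax a0 b0 v (by rw [f1, f2, e1, hrel]) (by rw [f2, e1]; exact hb)
      rcases f3 with f3 | f3
      · omega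
      · rw [f3] at this; omega
    · obtain ⟨a0, b0, v, f1, f2, f3⟩ := fill' h hm hs ⟨y, by
        have h1 := hv.eq y
        have h2 := hs.le y
        have h3 := col_nonneg (m := m) hs.ha y
        have h4 : 1 ≤ col m b y := by
          unfold col; rcases hv.hb (y - m) with h | h <;> omega
        omega⟩
      have := hmax a0 b0 v (by rw [f1, f2, hrel]) (by rw [f2]; exact hb)
      rcases f3 with f3 | f3
      · omega
      · subst f3
        exact ⟨a0, v, by rw [f1, hrel], by rw [f1]; linear_combination -hmid⟩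
  obtain ⟨k, rfl⟩ := Nat.exists_eq_add_of_le' hm
  set E : (ZMod n → ℤ) → ℤ := fun a' => ∑ i ∈ range (k + 2), (a (y + 2 + i) - a' (y + 2 + i)) * 2 ^ i
    with hE
  have habs : ∀ {a' : ZMod n → ℤ}, Valid (k + 2) a' b → ∀ x, |a x - a' x| ≤ 1 := by
    intro a' hv' x
    rcases hv.ha x with h1 | h1 <;> rcases hv'.ha x with h2 | h2 <;> simp [h1, h2]
  have bound : ∀ {a' : ZMod n → ℤ}, Valid (k + 2) a' b → δ * ev 2 a' + ev 2 b = 0 →
      |E a'| ≤ 2 ^ k - 1 := by
    intro a' hv' hr'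
    have h1 : y + 2 + (k : ZMod n) = y - ((k + 2 : ℕ) : ZMod n) := by
      have := mm_add h
      push_cast at this ⊢
      linear_combination this
    have h2 : y + 2 + ((k + 1 : ℕ) : ZMod n) = y + 1 - ((k + 2 : ℕ) : ZMod n) := by
      have := mm_add h
      push_cast at this ⊢
      linear_combination this
    simp only [hE]
    rw [sum_range_succ, sum_range_succ, h1, h2, anti hv', anti hv', ycol hv, ycol hv',
      (step hv' hr').1]
    simpa using signed_bound (fun i => a (y + 2 + i) - a' (y + 2 + i)) (fun i => habs hv' _) k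
  have hev : ∀ {a' : ZMod n → ℤ}, Valid (k + 2) a' b →
      ev (2 : ZMod (2 ^ (k + 2) + 1)) a - ev 2 a' = 2 * (2 ^ (y + 2).val * (E a' : ZMod (2 ^ (k + 2) + 1))) := by
    intro a' hv'
    rw [← ev_sub, ev_anti h _ (anti hv') (y + 2)]
  have zero : ∀ (t : ℕ) {a' : ZMod n → ℤ}, Valid (k + 2) a' b → δ * ev 2 a' + ev 2 b = 0 →
      (E a').natAbs < t → E a' = 0 := by
    intro t
    induction t with
    | zero => intro a' _ _ h0; omega
    | succ t ih =>
      intro a' hv' hr' ht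
      obtain ⟨a0, v0, r0, e0⟩ := (step hv' hr').2
      rw [hev v0, hev hv'] at e0
      have e1 := two_unit (by omega) e0
      have hu : IsUnit ((2 : ZMod (2 ^ (k + 2) + 1)) ^ (y + 2).val) := by
        refine IsUnit.pow _ (IsUnit.of_pow_eq_one (two_pow_n h) (NeZero.ne n))
      rw [mul_left_comm] at e1
      have e2 := hu.mul_left_cancel e1
      have e3 : ((2 * E a0 - E a' : ℤ) : ZMod (2 ^ (k + 2) + 1)) = 0 := by
        push_cast; linear_combination e2
      rw [ZMod.intCast_zmod_eq_zero_iff_dvd] at e3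
      have b0 := abs_le.1 (bound v0 r0)
      have b1 := abs_le.1 (bound hv' hr')
      have e4 : 2 * E a0 - E a' = 0 := by
        refine Int.eq_zero_of_abs_lt_dvd e3 ?_
        push_cast
        rw [abs_lt, pow_add]
        constructor <;> omega
      by_contra h5
      have := ih v0 r0 (by omega)
      omega
  have h0 := signed_zero (fun i => a (y + 2 + i) - a' (y + 2 + i)) (fun i => habs hv' _) (k + 2)
    (zero _ hv' hr' (Nat.lt_succ_self _))
  funext x
  have hx : x = y + 2 + ((x - (y + 2)).val : ZMod n) := by simp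
  have hlt := ZMod.val_lt (x - (y + 2))
  by_cases h1 : (x - (y + 2)).val < k + 2
  · have := h0 _ h1
    simp only [← hx] at this
    omega
  · have := h0 ((x - (y + 2)).val - (k + 2)) (by omega)
    simp only [Nat.cast_sub (not_lt.1 h1)] at this
    rw [← add_sub_assoc, ← hx, anti hv'] at this
    omega

end Pool.Agent.Lib.MP_0287c7_lc
end

-- part Pool.Agent.Lib.MP_0287c7_lc.Gauss
section

set_option autoImplicit false
open Classical Finset

namespace Pool.Agent.Lib.MP_0287c7_lc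

variable {F : Type} [Field F] [CharP F 2] [Fintype F] {n : ℕ}

/-- the unramified ring -/
abbrev WR (F : Type) [Field F] := WittVector 2 F

/-- reduction modulo two -/
noncomputable abbrev cc : WR F →+* F := WittVector.constantCoeff

/-- Teichmuller lift -/
noncomputable abbrev tm : F →* WR F := WittVector.teichmuller 2

omit [CharP F 2] [Fintype F] in
lemma cc_tm (x : F) : cc (tm x) = x := rfl

omit [Fintype F] in
lemma two_ne : (2 : WR F) ≠ 0 := by
  have := WittVector.p_nonzero 2 F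
  exact_mod_cast this

omit [Fintype F] in
lemma cc_two : cc (2 : WR F) = 0 := by
  rw [map_ofNat]
  exact_mod_cast CharP.cast_eq_zero F 2

/-- the additive character -/
noncomputable def psi (hF : Fintype.card F = 2 ^ n) : AddChar F (WR F) where
  toFun y := (sg n y : WR F)
  map_zero_eq_one' := by simp [sg_zero]
  map_add_eq_mul' x y := by rw [sg_add hF]; push_cast; rfl

lemma psi_apply (hF : Fintype.card F = 2 ^ n) (y : F) : psi hF y = (sg n y : WR F) := rfl

/-- the Teichmuller character -/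
noncomputable def om (F : Type) [Field F] : MulChar F (WR F) where
  toMonoidHom := tm
  map_nonunit' a ha := by
    have : a = 0 := by simpa using ha
    subst this
    exact WittVector.teichmuller_zero 2

/-- its inverse -/
noncomputable def chi (F : Type) [Field F] [Fintype F] : MulChar F (WR F) := (om F)⁻¹

omit [CharP F 2] in
lemma chi_apply (j : ℕ) {x : F} (hx : x ≠ 0) : (chi F ^ j) x = tm (x⁻¹) ^ j := by
  have := MulChar.pow_apply_coe (chi F) j (Units.mk0 x hx)
  rw [Units.val_mk0] at this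
  rw [this, chi, MulChar.inv_apply']
  rfl

omit [CharP F 2] in
lemma orderOf_chi (hF : Fintype.card F = 2 ^ n) : orderOf (chi F) = 2 ^ n - 1 := by
  apply Nat.dvd_antisymm
  · rw [orderOf_dvd_iff_pow_eq_one, ← hF, ← Fintype.card_units]
    exact MulChar.pow_card_eq_one _
  · obtain ⟨g, hg⟩ := IsCyclic.exists_ofOrder_eq_natCard (α := Fˣ)
    rw [Nat.card_eq_fintype_card, Fintype.card_units, hF] at hg
    rw [← hg, orderOf_dvd_iff_pow_eq_one]
    have h1 : (chi F ^ orderOf (chi F)) ((g⁻¹ : Fˣ) : F) = 1 := by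
      rw [pow_orderOf_eq_one, MulChar.one_apply_coe]
    rw [chi_apply _ (Units.ne_zero _)] at h1
    have h2 := congrArg cc h1
    rw [map_pow, cc_tm, map_one] at h2
    ext
    simpa using h2

omit [CharP F 2] in
lemma chi_pow_eq_iff (hF : Fintype.card F = 2 ^ n) (i j : ℕ) :
    chi F ^ i = chi F ^ j ↔ i ≡ j [MOD 2 ^ n - 1] := by
  rw [pow_eq_pow_iff_modEq, orderOf_chi hF]

omit [CharP F 2] in
lemma chi_pow_eq_one_iff (hF : Fintype.card F = 2 ^ n) (i : ℕ) :
    chi F ^ i = 1 ↔ 2 ^ n - 1 ∣ i := by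
  rw [← orderOf_dvd_iff_pow_eq_one, orderOf_chi hF]

lemma psi_ne_one (hF : Fintype.card F = 2 ^ n) (hn : 2 ≤ n) : psi hF ≠ 1 := by
  intro h
  have h1 : ∀ x : F, tr n x = 0 := by
    intro x
    by_contra hx
    have h2 : psi hF x = 1 := by rw [h]; rfl
    rw [psi_apply, sg_def, if_neg hx] at h2
    apply two_ne (F := F)
    push_cast at h2
    linear_combination -h2
  have := sum_inv_tr hF hn
  simp [h1] at this

lemma psi_inv (hF : Fintype.card F = 2 ^ n) : (psi hF)⁻¹ = psi hF := by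
  ext x : 1
  rw [AddChar.inv_apply, CharTwo.neg_eq]

/-- Gauss sums -/
noncomputable def GG (hF : Fintype.card F = 2 ^ n) (j : ℕ) : WR F := gaussSum (chi F ^ j) (psi hF)

lemma GG_zero (hF : Fintype.card F = 2 ^ n) (hn : 2 ≤ n) : GG hF 0 = -1 := by
  rw [GG, pow_zero]
  exact gaussSum_one_left (psi_ne_one hF hn)

lemma sq_bij : Function.Bijective (fun x : F => x ^ 2) :=
  (Finite.injective_iff_bijective).1 (frobenius_inj F 2)

lemma GG_two_mul (hF : Fintype.card F = 2 ^ n) (j : ℕ) : GG hF (2 * j) = GG hF j := by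
  unfold GG gaussSum
  refine Fintype.sum_bijective _ (sq_bij (F := F)) _ _ fun x => ?_
  rw [psi_apply, psi_apply, sg_sq hF]
  congr 1
  rcases eq_or_ne x 0 with rfl | hx
  · simp [MulChar.map_zero]
  · rw [chi_apply _ hx, chi_apply _ (pow_ne_zero 2 hx), ← inv_pow, map_pow, pow_mul]

lemma GG_frob (hF : Fintype.card F = 2 ^ n) (j : ℕ) :
    WittVector.map (frobenius F 2) (GG hF j) = GG hF j := by
  conv_rhs => rw [← GG_two_mul]
  unfold GG gaussSum
  rw [map_sum]
  refine sum_congr rfl fun x _ => ?_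
  rw [map_mul, psi_apply, map_intCast]
  congr 1
  rcases eq_or_ne x 0 with rfl | hx
  · simp [MulChar.map_zero]
  · rw [chi_apply _ hx, chi_apply _ hx, map_pow, WittVector.map_teichmuller, frobenius_def,
      map_pow, pow_mul]

lemma GG_dvd (hF : Fintype.card F = 2 ^ n) {i j : ℕ} (h : ¬ 2 ^ n - 1 ∣ i + j) :
    GG hF (i + j) ∣ GG hF i * GG hF j := by
  unfold GG
  rw [← jacobiSum_mul_nontrivial, pow_add]
  · exact dvd_mul_right _ _
  · rw [← pow_add, Ne, chi_pow_eq_one_iff hF]; exact h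

lemma GG_mul (hF : Fintype.card F = 2 ^ n) (hn : 2 ≤ n) {j : ℕ} (h0 : 0 < j) (hj : j < 2 ^ n - 1) :
    GG hF j * GG hF (2 ^ n - 1 - j) = 2 ^ n := by
  have h1 : chi F ^ j ≠ 1 := by
    rw [Ne, chi_pow_eq_one_iff hF]
    intro h; exact absurd (Nat.le_of_dvd h0 h) (by omega)
  have h2 : chi F ^ (2 ^ n - 1 - j) = (chi F ^ j)⁻¹ := by
    rw [eq_inv_iff_mul_eq_one, ← pow_add, chi_pow_eq_one_iff hF, Nat.sub_add_cancel hj.le]
  have := gaussSum_mul_gaussSum_eq_card h1 (AddChar.IsPrimitive.of_ne_one (psi_ne_one hF hn))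
  rw [psi_inv, ← h2, hF] at this
  exact_mod_cast this

lemma GG_one (hF : Fintype.card F = 2 ^ n) (hn : 2 ≤ n) : GG hF 1 ∣ 2 := by
  have hN : 4 ≤ 2 ^ n := by
    calc 4 = 2 ^ 2 := rfl
      _ ≤ 2 ^ n := Nat.pow_le_pow_right (by norm_num) hn
  have h1 : chi F ^ 1 ≠ 1 := by
    rw [Ne, chi_pow_eq_one_iff hF]
    intro h; exact absurd (Nat.le_of_dvd one_pos h) (by omega)
  set U : WR F := -∑ x : F, (chi F ^ 1) x * (if tr n x = 0 then 0 else 1) with hU
  have h2 : GG hF 1 = 2 * U := by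
    have h3 := MulChar.sum_eq_zero_of_ne_one h1
    rw [hU, mul_neg, mul_sum, eq_neg_iff_add_eq_zero, GG, gaussSum, ← sum_add_distrib]
    refine Eq.trans (sum_congr rfl fun x _ => ?_) h3
    rw [psi_apply, sg_def]
    split_ifs <;> push_cast <;> ring
  have h4 : cc U = 1 := by
    rw [hU, map_neg, map_sum, neg_eq_iff_eq_neg, ← sum_inv_tr hF hn]
    refine sum_congr rfl fun x _ => ?_
    rcases eq_or_ne x 0 with rfl | hx
    · simp [MulChar.map_zero]
    · rw [map_mul, chi_apply _ hx, pow_one, cc_tm]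
      rcases tr_cases hF x with h | h <;> simp [h]
  have h5 : IsUnit U := WittVector.isUnit_of_coeff_zero_ne_zero U (by
    have : U.coeff 0 = 1 := h4
    rw [this]; exact one_ne_zero)
  rw [h2]
  exact (h5.mul_right_dvd).2 dvd_rfl

lemma GG_dvd_pow (hF : Fintype.card F = 2 ^ n) (hn : 2 ≤ n) (l : ℕ) :
    ∀ j, j < 2 ^ l → j < 2 ^ n - 1 → GG hF j ∣ 2 ^ wt l j := by
  induction l with
  | zero =>
    intro j hj _
    have : j = 0 := by omega
    subst this
    rw [GG_zero hF hn]; simp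
  | succ l ih =>
    intro j hj hjN
    have h1 := ih (j / 2) (by rw [pow_succ] at hj; omega) (by omega)
    rw [← GG_two_mul] at h1
    rcases Nat.mod_two_eq_zero_or_one j with h | h
    · have : j = 2 * (j / 2) := by omega
      rw [wt, h, zero_add]
      rwa [← this] at h1
    · have h2 : j = 2 * (j / 2) + 1 := by omega
      rw [wt, h, add_comm, pow_succ]
      have h3 := GG_dvd hF (i := 2 * (j / 2)) (j := 1) (by
        intro h; exact absurd (Nat.le_of_dvd (by omega) h) (by omega))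
      rw [← h2] at h3
      exact h3.trans (mul_dvd_mul h1 (GG_one hF hn))

/-- Stickelberger's congruence in characteristic two -/
lemma stickelberger (hF : Fintype.card F = 2 ^ n) (hn : 2 ≤ n) {j : ℕ} (hj : j < 2 ^ n - 1) :
    ∃ U : WR F, GG hF j = 2 ^ wt n j * U ∧ cc U = 1 := by
  rcases Nat.eq_zero_or_pos j with rfl | h0
  · refine ⟨-1, by rw [GG_zero hF hn, wt_zero]; simp, ?_⟩
    rw [map_neg, map_one, CharTwo.neg_eq]
  obtain ⟨u, hu⟩ := GG_dvd_pow hF hn n j (by omega) hj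
  obtain ⟨v, hv⟩ := GG_dvd_pow hF hn n (2 ^ n - 1 - j) (by omega) (by omega)
  have h1 := GG_mul hF hn h0 hj
  have h2 := wt_compl n j (by omega)
  have h3 : (2 : WR F) ^ n * (u * v) = 2 ^ n * 1 := by
    rw [mul_one]
    conv_rhs => rw [← h2, pow_add, hu, hv]
    rw [← h1]; ring
  have h4 : u * v = 1 := mul_left_cancel₀ (pow_ne_zero _ two_ne) h3
  have h5 : GG hF j = 2 ^ wt n j * v := by rw [hu, mul_assoc, h4, mul_one]
  refine ⟨v, h5, ?_⟩
  have h6 := GG_frob hF j
  rw [h5, map_mul, map_pow, map_ofNat] at h6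
  have h7 := congrArg cc (mul_left_cancel₀ (pow_ne_zero _ two_ne) h6)
  have h8 : cc (WittVector.map (frobenius F 2) v) = cc v ^ 2 := by
    show (WittVector.map (frobenius F 2) v).coeff 0 = (v.coeff 0) ^ 2
    rw [WittVector.map_coeff, frobenius_def]
  rw [h8] at h7
  have h9 : cc u * cc v = 1 := by rw [← map_mul, h4, map_one]
  have h10 : cc v ≠ 0 := right_ne_zero_of_mul_eq_one h9
  apply mul_left_cancel₀ h10
  rw [mul_one, ← sq, h7]

end Pool.Agent.Lib.MP_0287c7_lc
end

-- part Pool.Agent.Lib.MP_0287c7_lc.Crit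
section

set_option autoImplicit false
open Classical Finset

namespace Pool.Agent.Lib.MP_0287c7_lc

variable {F : Type} [Field F] [CharP F 2] [Fintype F] {n : ℕ}

omit [Fintype F] in
lemma N_ne (hn : 2 ≤ n) : ((2 ^ n - 1 : ℕ) : WR F) ≠ 0 := by
  intro h
  have h1 := congrArg cc h
  rw [map_natCast, map_zero, Nat.cast_sub Nat.one_le_two_pow] at h1
  have h2 : (2 : F) = 0 := by exact_mod_cast CharP.cast_eq_zero F 2
  push_cast at h1
  rw [h2, zero_pow (by omega)] at h1
  simp at h1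

lemma expand (hF : Fintype.card F = 2 ^ n) {b : F} (hb : b ≠ 0) :
    ∑ j ∈ range (2 ^ n - 1), GG hF j * tm b ^ j = ((2 ^ n - 1 : ℕ) : WR F) * psi hF b := by
  unfold GG gaussSum
  simp only [sum_mul]
  rw [sum_comm, sum_eq_single b]
  · have : ∀ j ∈ range (2 ^ n - 1), (chi F ^ j) b * psi hF b * tm b ^ j = psi hF b := by
      intro j _
      rw [chi_apply _ hb, mul_right_comm, ← mul_pow, ← map_mul, inv_mul_cancel₀ hb]
      simp
    rw [sum_congr rfl this]; simp
  · intro x _ hx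
    rcases eq_or_ne x 0 with rfl | h0
    · simp [MulChar.map_zero]
    have : ∀ j ∈ range (2 ^ n - 1), (chi F ^ j) x * psi hF x * tm b ^ j
        = psi hF x * tm (x⁻¹ * b) ^ j := by
      intro j _
      rw [chi_apply _ h0, map_mul, mul_pow]; ring
    rw [sum_congr rfl this, ← mul_sum]
    have h1 : tm (x⁻¹ * b) ^ (2 ^ n - 1) = 1 := by
      rw [← map_pow, ← hF, FiniteField.pow_card_sub_one_eq_one _ (by simp [h0, hb]), map_one]
    have h2 : tm (x⁻¹ * b) - 1 ≠ 0 := by
      intro h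
      have h3 := congrArg cc (sub_eq_zero.1 h)
      rw [cc_tm, map_one] at h3
      apply hx
      field_simp at h3
      exact h3.symm
    have h3 := mul_geom_sum (tm (x⁻¹ * b)) (2 ^ n - 1)
    rw [h1, sub_self] at h3
    rw [(mul_eq_zero.1 h3).resolve_left h2, mul_zero]
  · intro h; exact absurd (mem_univ _) h

lemma sum_inv_chi (hF : Fintype.card F = 2 ^ n) (i : ℕ) :
    ∑ x : F, (chi F ^ i)⁻¹ x = if 2 ^ n - 1 ∣ i then ((2 ^ n - 1 : ℕ) : WR F) else 0 := by
  split_ifs with h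
  · rw [(chi_pow_eq_one_iff hF i).2 h, inv_one, MulChar.sum_one_eq_card_units,
      Fintype.card_units, hF]
  · apply MulChar.sum_eq_zero_of_ne_one
    rw [Ne, inv_eq_one, chi_pow_eq_one_iff hF]; exact h

omit [CharP F 2] in
lemma inv_chi_apply (i : ℕ) {x : F} (hx : x ≠ 0) : (chi F ^ i)⁻¹ x = tm x ^ i := by
  rw [MulChar.inv_apply', chi_apply _ (inv_ne_zero hx), inv_inv]

lemma twisted (hF : Fintype.card F = 2 ^ n) (hn : 2 ≤ n) {a : F} (ha : a ≠ 0) (d s : ℕ) :
    ∑ c : F, psi hF (a * c ^ d) * (chi F ^ s)⁻¹ c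
      = ∑ j ∈ (range (2 ^ n - 1)).filter (fun j => 2 ^ n - 1 ∣ j * d + s), GG hF j * tm a ^ j := by
  apply mul_left_cancel₀ (N_ne (F := F) hn)
  rw [mul_sum]
  have h1 : ∀ c ∈ (univ : Finset F), ((2 ^ n - 1 : ℕ) : WR F) * (psi hF (a * c ^ d) * (chi F ^ s)⁻¹ c)
      = ∑ j ∈ range (2 ^ n - 1), GG hF j * tm a ^ j * (chi F ^ (j * d + s))⁻¹ c := by
    intro c _
    rcases eq_or_ne c 0 with rfl | hc
    · simp [MulChar.map_zero]
    rw [← mul_assoc, ← expand hF (mul_ne_zero ha (pow_ne_zero d hc)), sum_mul]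
    refine sum_congr rfl fun j _ => ?_
    rw [inv_chi_apply _ hc, inv_chi_apply _ hc, map_mul, map_pow]; ring
  rw [sum_congr rfl h1, sum_comm, sum_filter, mul_sum]
  refine sum_congr rfl fun j _ => ?_
  rw [← mul_sum, sum_inv_chi hF]
  split_ifs <;> ring

lemma moment (hF : Fintype.card F = 2 ^ n) {s : ℕ} (hs : ¬ 2 ^ n - 1 ∣ s) (a : F) (d : ℕ) :
    ∑ u : F, (chi F ^ s) u * ((∑ c : F, sg n (a * c ^ d) * sg n (u * c) : ℤ) : WR F)
      = GG hF s * ∑ c : F, psi hF (a * c ^ d) * (chi F ^ s)⁻¹ c := by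
  have h1 : chi F ^ s ≠ 1 := by rw [Ne, chi_pow_eq_one_iff hF]; exact hs
  push_cast
  simp only [mul_sum]
  rw [sum_comm]
  refine sum_congr rfl fun c _ => ?_
  rcases eq_or_ne c 0 with rfl | hc
  · simp only [mul_zero, MulChar.map_zero]
    rw [← sum_mul, MulChar.sum_eq_zero_of_ne_one h1, zero_mul]
  · have h2 := gaussSum_mulShift_eq (chi F ^ s) (psi hF) (Units.mk0 c hc)
    rw [Units.val_mk0] at h2
    have h3 : GG hF s * (psi hF (a * c ^ d) * (chi F ^ s)⁻¹ c)
        = psi hF (a * c ^ d) * ((chi F ^ s)⁻¹ c * GG hF s) := by ring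
    rw [h3, GG, ← h2, gaussSum, mul_sum]
    refine sum_congr rfl fun u _ => ?_
    rw [AddChar.mulShift_apply, psi_apply, psi_apply, mul_comm c u]; ring

omit [Fintype F] in
lemma reduce (S : Finset ℕ) (w : ℕ → ℕ) (w0 : ℕ) (hw : ∀ j ∈ S, w0 ≤ w j) (G : ℕ → WR F)
    (hG : ∀ j ∈ S, ∃ U : WR F, G j = 2 ^ w j * U ∧ cc U = 1) (a : F) :
    ∃ V : WR F, ∑ j ∈ S, G j * tm a ^ j = 2 ^ w0 * V ∧
      cc V = ∑ j ∈ S.filter (fun j => w j = w0), a ^ j := by
  choose! U hU using hG
  refine ⟨∑ j ∈ S, 2 ^ (w j - w0) * U j * tm a ^ j, ?_, ?_⟩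
  · rw [mul_sum]
    refine sum_congr rfl fun j hj => ?_
    rw [(hU j hj).1, ← mul_assoc, ← mul_assoc, ← pow_add, Nat.add_sub_cancel' (hw j hj)]
  · rw [map_sum, sum_filter]
    refine sum_congr rfl fun j hj => ?_
    rw [map_mul, map_mul, map_pow, map_pow, cc_two, (hU j hj).2, cc_tm]
    have := hw j hj
    split_ifs with h
    · simp [h]
    · rw [zero_pow (by omega)]; simp

/-- the main criterion -/
theorem crit (hF : Fintype.card F = 2 ^ n) (hn : 2 ≤ n) {a : F} (ha : a ≠ 0) {d : ℕ}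
    (hb : Bent n d a) {s : ℕ} (h0 : 0 < s) (hs : s < 2 ^ n - 1) {w0 : ℕ}
    (hw : ∀ j < 2 ^ n - 1, 2 ^ n - 1 ∣ j * d + s → w0 ≤ wt n j) (hle : w0 + wt n s ≤ n / 2) :
    ∑ j ∈ (range (2 ^ n - 1)).filter (fun j => 2 ^ n - 1 ∣ j * d + s ∧ wt n j = w0), a ^ j = 0 := by
  have hs' : ¬ 2 ^ n - 1 ∣ s := fun h => absurd (Nat.le_of_dvd h0 h) (by omega)
  have h1 := moment hF hs' a d
  rw [twisted hF hn ha] at h1
  obtain ⟨V, hV, hV'⟩ := reduce ((range (2 ^ n - 1)).filter (fun j => 2 ^ n - 1 ∣ j * d + s))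
    (wt n) w0 (fun j hj => hw j (mem_range.1 (mem_filter.1 hj).1) (mem_filter.1 hj).2) (GG hF)
    (fun j hj => stickelberger hF hn (mem_range.1 (mem_filter.1 hj).1)) a
  obtain ⟨U, hU, hU'⟩ := stickelberger hF hn hs
  rw [filter_filter] at hV'
  rw [hV, hU] at h1
  have h2 : ∀ u : F, ∃ e : WR F, ((∑ c : F, sg n (a * c ^ d) * sg n (u * c) : ℤ) : WR F)
      = 2 ^ (n / 2) + 2 ^ (n / 2 + 1) * e := by
    intro u
    rcases (abs_eq (by positivity)).1 (hb u) with h | h
    · exact ⟨0, by rw [h]; push_cast; ring⟩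
    · exact ⟨-1, by rw [h]; push_cast; ring⟩
  choose e he using h2
  have h3 : chi F ^ s ≠ 1 := by rw [Ne, chi_pow_eq_one_iff hF]; exact hs'
  have h4 : ∑ u : F, (chi F ^ s) u * ((∑ c : F, sg n (a * c ^ d) * sg n (u * c) : ℤ) : WR F)
      = 2 ^ (n / 2 + 1) * ∑ u : F, (chi F ^ s) u * e u := by
    simp only [he, mul_add, sum_add_distrib]
    rw [← sum_mul, MulChar.sum_eq_zero_of_ne_one h3, zero_mul, zero_add, mul_sum]
    refine sum_congr rfl fun u _ => by ring
  rw [h4] at h1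
  obtain ⟨r, hr⟩ := Nat.exists_eq_add_of_le hle
  have h5 : (2 : WR F) ^ (w0 + wt n s) * (U * V)
      = 2 ^ (w0 + wt n s) * (2 * (2 ^ r * ∑ u : F, (chi F ^ s) u * e u)) := by
    rw [hr] at h1
    linear_combination -h1
  have h6 := congrArg cc (mul_left_cancel₀ (pow_ne_zero _ two_ne) h5)
  rw [map_mul, map_mul, cc_two, zero_mul, hU', one_mul, hV'] at h6
  exact h6

/-- the criterion at zero -/
theorem crit0 (hF : Fintype.card F = 2 ^ n) (hn : 2 ≤ n) {a : F} (ha : a ≠ 0) {d : ℕ} (hd : 0 < d)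
    (hb : Bent n d a) (hw : ∀ j < 2 ^ n - 1, 0 < j → 2 ^ n - 1 ∣ j * d → n / 2 ≤ wt n j) :
    ∑ j ∈ (range (2 ^ n - 1)).filter (fun j => (0 < j ∧ 2 ^ n - 1 ∣ j * d) ∧ wt n j = n / 2),
      a ^ j = 1 := by
  have hN : 4 ≤ 2 ^ n := by
    calc 4 = 2 ^ 2 := rfl
      _ ≤ 2 ^ n := Nat.pow_le_pow_right (by norm_num) hn
  have h1 := twisted hF hn ha d 0
  obtain ⟨V, hV, hV'⟩ := reduce ((range (2 ^ n - 1)).filter (fun j => 0 < j ∧ 2 ^ n - 1 ∣ j * d))
    (wt n) (n / 2) (fun j hj => hw j (mem_range.1 (mem_filter.1 hj).1) (mem_filter.1 hj).2.1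
      (mem_filter.1 hj).2.2) (GG hF)
    (fun j hj => stickelberger hF hn (mem_range.1 (mem_filter.1 hj).1)) a
  rw [filter_filter] at hV'
  have h2 : (range (2 ^ n - 1)).filter (fun j => 2 ^ n - 1 ∣ j * d + 0)
      = insert 0 ((range (2 ^ n - 1)).filter (fun j => 0 < j ∧ 2 ^ n - 1 ∣ j * d)) := by
    ext j
    simp only [mem_filter, mem_range, mem_insert, add_zero]
    constructor
    · rintro ⟨h1, h2⟩
      rcases Nat.eq_zero_or_pos j with h | h
      · exact Or.inl h
      · exact Or.inr ⟨h1, h, h2⟩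
    · rintro (rfl | ⟨h1, _, h2⟩)
      · exact ⟨by omega, by simp⟩
      · exact ⟨h1, h2⟩
  rw [h2, sum_insert (by simp), hV, GG_zero hF hn, pow_zero, pow_zero, inv_one] at h1
  have h3 : ((∑ c : F, sg n (a * c ^ d) * sg n (0 * c) : ℤ) : WR F)
      = 1 + ∑ c : F, psi hF (a * c ^ d) * (1 : MulChar F (WR F)) c := by
    push_cast
    rw [← add_sum_erase univ _ (mem_univ (0 : F)), ← add_sum_erase univ _ (mem_univ (0 : F))]
    simp only [zero_pow hd.ne', mul_zero, zero_mul, sg_zero, MulChar.map_zero, zero_add]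
    push_cast
    rw [mul_one]
    congr 1
    refine sum_congr rfl fun c hc => ?_
    rw [MulChar.one_apply (isUnit_iff_ne_zero.2 (ne_of_mem_erase hc)), psi_apply]
  rw [h1] at h3
  rw [← hV']
  rcases (abs_eq (by positivity)).1 (hb 0) with h | h
  · rw [h] at h3
    push_cast at h3
    have h5 : (2 : WR F) ^ (n / 2) * V = 2 ^ (n / 2) * 1 := by linear_combination -h3
    rw [mul_left_cancel₀ (pow_ne_zero _ two_ne) h5, map_one]
  · rw [h] at h3
    push_cast at h3
    have h5 : (2 : WR F) ^ (n / 2) * V = 2 ^ (n / 2) * (-1) := by linear_combination -h3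
    rw [mul_left_cancel₀ (pow_ne_zero _ two_ne) h5, map_neg, map_one, CharTwo.neg_eq]

theorem crit_unique (hF : Fintype.card F = 2 ^ n) (hn : 2 ≤ n) {a : F} (ha : a ≠ 0) {d : ℕ}
    (hb : Bent n d a) {s : ℕ} (h0 : 0 < s) (hs : s < 2 ^ n - 1) {j0 : ℕ} (hj0 : j0 < 2 ^ n - 1)
    (hd : 2 ^ n - 1 ∣ j0 * d + s)
    (hw : ∀ j < 2 ^ n - 1, 2 ^ n - 1 ∣ j * d + s → wt n j ≤ wt n j0 → j = j0)
    (hle : wt n j0 + wt n s ≤ n / 2) : False := by
  have h1 := crit hF hn ha hb h0 hs (w0 := wt n j0) (fun j hj hj' => by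
    by_contra h
    have := hw j hj hj' (by omega)
    subst this
    omega) hle
  have h2 : (range (2 ^ n - 1)).filter (fun j => 2 ^ n - 1 ∣ j * d + s ∧ wt n j = wt n j0)
      = {j0} := by
    ext j
    simp only [mem_filter, mem_range, mem_singleton]
    constructor
    · rintro ⟨h1, h2, h3⟩
      exact hw j h1 h2 h3.le
    · rintro rfl
      exact ⟨hj0, hd, rfl⟩
  rw [h2, sum_singleton] at h1
  exact pow_ne_zero _ ha h1

theorem crit_coprime (hF : Fintype.card F = 2 ^ n) (hn : 2 ≤ n) {a : F} (ha : a ≠ 0) {d : ℕ}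
    (hd : 0 < d) (hb : Bent n d a) (hc : Nat.Coprime (2 ^ n - 1) d) : False := by
  have h0 : ∀ j < 2 ^ n - 1, 0 < j → ¬ 2 ^ n - 1 ∣ j * d := by
    intro j hj h0 h
    exact absurd (Nat.le_of_dvd h0 (hc.dvd_of_dvd_mul_right h)) (by omega)
  have h1 := crit0 hF hn ha hd hb (fun j hj h1 h2 => absurd h2 (h0 j hj h1))
  rw [filter_eq_empty_iff.2 (fun j hj h => h0 j (mem_range.1 hj) h.1.1 h.1.2), sum_empty] at h1
  exact zero_ne_one h1

end Pool.Agent.Lib.MP_0287c7_lc
end
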