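import Pool.Agent.Lib.MP_0287c7_lc.Pat

set_option autoImplicit false
open Finset

namespace Pool.Agent.Lib.MP_0287c7_lc

/-- equivalence to one of the two cubic families -/
def MF (n d : ℕ) : Prop :=
  ∃ e : ℕ, ((∃ k : ℕ, n = 4 * k ∧ Odd k ∧ e = (2 ^ k + 1) ^ 2) ∨
    (∃ k : ℕ, n = 6 * k ∧ e = 2 ^ (2 * k) + 2 ^ k + 1)) ∧ ∃ j : ℕ, e ≡ 2 ^ j * d [MOD 2 ^ n - 1]

/-- the classification statement for one exponent -/
def ResN (n d : ℕ) : Prop :=
  ∀ (F : Type) [Field F] [CharP F 2] [Fintype F], Fintype.card F = 2 ^ n →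
    ∀ b : F, b ≠ 0 → Bent n d b → MF n d

lemma ResN.equiv {n d d' i : ℕ} (h : ResN n d) (hd : 0 < d) (hd' : 0 < d')
    (he : d ≡ 2 ^ i * d' [MOD 2 ^ n - 1]) : ResN n d' := by
  intro F _ _ _ hF b hb0 hb
  obtain ⟨e, h1, j, h2⟩ := h F hF _ (pow_ne_zero _ hb0) (hb.equiv hF hd' hd he)
  refine ⟨e, h1, j + i, h2.trans ?_⟩
  rw [pow_add, mul_assoc]
  exact he.mul_left _

lemma ResN.of_coprime {n d : ℕ} (hn : 2 ≤ n) (hd : 0 < d) (hc : Nat.Coprime (2 ^ n - 1) d) :
    ResN n d := fun _ _ _ _ hF _ hb0 hb => (crit_coprime hF hn hb0 hd hb hc).elim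

variable {h : ℕ} [NeZero h] {k : ℕ}

omit [NeZero h] in
lemma dd_pos (p q r : ZMod h) : 0 < dd k p q r := by unfold dd; positivity

lemma dd_shift (hk : 0 < k) (p q r t : ZMod h) :
    dd k (p + t) (q + t) (r + t) ≡ 2 ^ (k * t.val) * dd k p q r [MOD 2 ^ (h * k) - 1] := by
  have : NeZero (h * k) := ⟨Nat.mul_ne_zero (NeZero.ne h) hk.ne'⟩
  rw [← ZMod.natCast_eq_natCast_iff]
  have key : ∀ x : ZMod h, (2 : ZMod (2 ^ (h * k) - 1)) ^ (k * (x + t).val)
      = 2 ^ (k * t.val) * 2 ^ (k * x.val) := by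
    intro x
    rw [← pow_val_cast (n := h * k) two_pow_N, kap_add rfl, pow_val_add two_pow_N,
      pow_val_cast two_pow_N, pow_val_cast two_pow_N]
    ring
  unfold dd
  push_cast
  rw [key, key, key]; ring

/-- the classification statement for all dilates of a tile -/
def All (k : ℕ) (p q r : ZMod h) : Prop :=
  ∀ u v : ZMod h, v * u = 1 → ResN (h * k) (dd k (u * p) (u * q) (u * r))

lemma All.shift (hk : 0 < k) {p q r : ZMod h} (ha : All k p q r) (t : ZMod h) :
    All k (p + t) (q + t) (r + t) := by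
  intro u v huv
  refine (ha u v huv).equiv (dd_pos _ _ _) (dd_pos _ _ _) (i := k * (-(u * t)).val) ?_
  have := dd_shift hk (u * (p + t)) (u * (q + t)) (u * (r + t)) (-(u * t))
  simpa [mul_add] using this

omit [NeZero h] in
lemma All.mul {p q r : ZMod h} (ha : All k p q r) {u v : ZMod h} (huv : v * u = 1) :
    All k (u * p) (u * q) (u * r) := by
  intro u' v' h'
  have := ha (u' * u) (v * v') (by linear_combination (v * u) * h' + huv)
  simpa only [mul_assoc] using this

omit [NeZero h] in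
lemma All.swap12 {p q r : ZMod h} (ha : All k p q r) : All k q p r := by
  intro u v huv
  have := ha u v huv
  rwa [show dd k (u * p) (u * q) (u * r) = dd k (u * q) (u * p) (u * r) by unfold dd; ring] at this

omit [NeZero h] in
lemma All.swap23 {p q r : ZMod h} (ha : All k p q r) : All k p r q := by
  intro u v huv
  have := ha u v huv
  rwa [show dd k (u * p) (u * q) (u * r) = dd k (u * p) (u * r) (u * q) by unfold dd; ring] at this

lemma resN_of_wit (hk : 0 < k) (he : Even (h * k)) {p q r u v : ZMod h} (huv : v * u = 1)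
    (hw : Wit k v p q r) : ResN (h * k) (dd k (u * p) (u * q) (u * r)) := by
  have : NeZero (h * k) := ⟨Nat.mul_ne_zero (NeZero.ne h) hk.ne'⟩
  intro F _ _ _ hF b hb0 hb
  have h1 := hw.mul huv
  rw [mul_comm u v, huv] at h1
  exact (h1.not_bent rfl hF he hb0 hb).elim

lemma All.of_wit (hk : 0 < k) (he : Even (h * k)) {p q r : ZMod h}
    (hw : ∀ σ, Wit k σ p q r) : All k p q r :=
  fun _ v huv => resN_of_wit hk he huv (hw v)

lemma All.of_canon (hk : 0 < k) {j p q r v : ZMod h} (ha : All k 0 1 j) (hv : v * (q - p) = 1)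
    (hr : r - p = j * (q - p)) : All k p q r := by
  have := (ha.mul hv).shift hk p
  rwa [mul_zero, zero_add, mul_one, sub_add_cancel, mul_comm, ← hr, sub_add_cancel] at this

/-- numeric certificate -/
def numOK (n d j0 : ℕ) : Bool :=
  let N := 2 ^ n - 1
  let g := Nat.gcd N d
  g == 1 ||
    (let s := N - j0 * d % N
     let w := wt n j0
     decide (j0 < N) && decide (s < N) && decide (w + wt n s ≤ n / 2) &&
      (List.range (g - 1)).all fun c => decide (w < wt n ((j0 + (c + 1) * (N / g)) % N)))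

lemma numOK_sound {n d j0 : ℕ} (hn : 2 ≤ n) (hd : 0 < d) (h : numOK n d j0 = true) :
    ResN n d := by
  simp only [numOK, Bool.or_eq_true, beq_iff_eq, Bool.and_eq_true, decide_eq_true_eq,
    List.all_eq_true, List.mem_range] at h
  rcases h with h | ⟨⟨⟨h1, h2⟩, h3⟩, h4⟩
  · exact ResN.of_coprime hn hd h
  intro F _ _ _ hF b hb0 hb
  exfalso
  set N := 2 ^ n - 1 with hN
  have hN0 : 0 < N := by omega
  have hm := Nat.mod_lt (j0 * d) hN0
  have hdv : N ∣ j0 * d + (N - j0 * d % N) := by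
    refine ⟨j0 * d / N + 1, ?_⟩
    have := Nat.div_add_mod (j0 * d) N
    rw [mul_add]; omega
  refine crit_unique hF hn hb0 hb (s := N - j0 * d % N) (by omega) h2 h1 hdv ?_ h3
  intro j hj hjd hw
  by_contra hne
  set g := Nat.gcd N d with hg
  have hg0 : 0 < g := Nat.gcd_pos_of_pos_left _ hN0
  set e := (j + N - j0) % N with he
  have e1 : N ∣ e * d := by
    have a1 : (j0 + e) % N = j := by
      rw [he, Nat.add_mod_mod, show j0 + (j + N - j0) = j + N by omega, Nat.add_mod_right,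
        Nat.mod_eq_of_lt hj]
    have a2 : j ≡ j0 + e [MOD N] := by rw [← a1]; exact Nat.mod_modEq _ _
    have a3 := ((a2.mul_right d).add_right (N - j0 * d % N)).dvd_iff dvd_rfl
    have a4 := a3.1 hjd
    rw [add_mul, add_right_comm] at a4
    exact (Nat.dvd_add_right hdv).1 a4
  have e2 : N / g ∣ e := by
    have a1 : N / g ∣ e * (d / g) := by
      rw [Nat.div_dvd_iff_dvd_mul (Nat.gcd_dvd_left _ _) hg0, mul_left_comm,
        Nat.mul_div_cancel' (Nat.gcd_dvd_right _ _)]
      exact e1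
    exact (Nat.coprime_div_gcd_div_gcd hg0).dvd_of_dvd_mul_right a1
  obtain ⟨c, hc⟩ := e2
  have e3 : e < N := Nat.mod_lt _ hN0
  have e4 : c < g := by
    by_contra h5
    have := Nat.mul_le_mul_left (N / g) (not_lt.1 h5)
    rw [Nat.div_mul_cancel (Nat.gcd_dvd_left _ _)] at this
    omega
  have a1 : (j0 + e) % N = j := by
    rw [he, Nat.add_mod_mod, show j0 + (j + N - j0) = j + N by omega, Nat.add_mod_right,
      Nat.mod_eq_of_lt hj]
  have e5 : c ≠ 0 := by
    rintro rfl
    rw [hc, mul_zero, add_zero, Nat.mod_eq_of_lt h1] at a1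
    exact hne a1.symm
  have := h4 (c - 1) (by omega)
  rw [Nat.sub_add_cancel (by omega), mul_comm, ← hc, a1] at this
  omega

lemma special_10_11 : ResN 10 11 := by
  intro F _ _ _ hF b hb0 hb
  exfalso
  have h1 := crit hF (by norm_num) hb0 hb (s := 264) (by norm_num) (by norm_num) (w0 := 3)
    (by decide +kernel) (by decide +kernel)
  have h2 := crit0 hF (by norm_num) hb0 (by norm_num) hb (by decide +kernel)
  have e1 : ∀ j < 2 ^ 10 - 1, (2 ^ 10 - 1 ∣ j * 11 + 264 ∧ wt 10 j = 3) ↔ j = 69 ∨ j = 162 := by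
    decide +kernel
  have e2 : ∀ j < 2 ^ 10 - 1, ((0 < j ∧ 2 ^ 10 - 1 ∣ j * 11) ∧ wt 10 j = 10 / 2) ↔
      j ∈ (range 10).image (fun c => 93 * (c + 1)) := by
    decide +kernel
  rw [sum_congr (s₂ := {69, 162}) (g := fun j => b ^ j) (by
    ext j
    simp only [mem_filter, mem_range, mem_insert, mem_singleton]
    constructor
    · rintro ⟨a1, a2⟩; exact (e1 j a1).1 a2
    · intro a1
      have : j < 2 ^ 10 - 1 := by omega
      exact ⟨this, (e1 j this).2 a1⟩) (fun _ _ => rfl), sum_pair (by norm_num)] at h1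
  have h3 : b ^ 93 = 1 := by
    have h4 : b ^ 69 * (b ^ 93 + 1) = 0 := by linear_combination h1
    have h5 := (mul_eq_zero.1 h4).resolve_left (pow_ne_zero _ hb0)
    rw [← CharTwo.sub_eq_add] at h5
    exact sub_eq_zero.1 h5
  rw [sum_congr (s₂ := (range 10).image (fun c => 93 * (c + 1))) (g := fun j => b ^ j) (by
    ext j
    simp only [mem_filter, mem_range]
    constructor
    · rintro ⟨a1, a2⟩; exact (e2 j a1).1 a2
    · intro a1
      have : j < 2 ^ 10 - 1 := by
        obtain ⟨c, hc, rfl⟩ := mem_image.1 a1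
        have := mem_range.1 hc
        omega
      exact ⟨this, (e2 j this).2 a1⟩) (fun _ _ => rfl),
    sum_image (fun x _ y _ hxy => by simpa using hxy)] at h2
  simp only [pow_mul, h3, one_pow, sum_const, card_range, nsmul_eq_mul, mul_one] at h2
  have h6 : ((10 : ℕ) : F) = 0 := (CharP.cast_eq_zero_iff F 2 10).2 (by norm_num)
  rw [h6] at h2
  exact zero_ne_one h2

/-- numeric certificates for all dilates -/
def numAll (h k j : ℕ) (cs : List ℕ) : Bool :=
  (List.range h).all fun u => Nat.gcd u h != 1 ||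
    (let d := 1 + 2 ^ (k * u) + 2 ^ (k * (u * j % h))
     numOK (h * k) d (cs.getD u 0) || (h * k == 10 && d == 11))

lemma numAll_sound (hk : 2 ≤ h * k) {j : ℕ} {cs : List ℕ} (hc : numAll h k j cs = true) :
    All k (0 : ZMod h) 1 (j : ZMod h) := by
  intro u v huv
  simp only [numAll, List.all_eq_true, List.mem_range, Bool.or_eq_true, bne_iff_ne,
    Bool.and_eq_true, beq_iff_eq] at hc
  have hu : Nat.gcd u.val h = 1 := by
    have : IsUnit (u.val : ZMod h) := by
      rw [ZMod.natCast_zmod_val]; exact IsUnit.of_mul_eq_one_right v huv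
    exact (ZMod.isUnit_iff_coprime _ _).1 this
  have hd : dd k (u * 0) (u * 1) (u * (j : ZMod h)) = 1 + 2 ^ (k * u.val) + 2 ^ (k * (u.val * j % h)) := by
    unfold dd
    rw [mul_zero, ZMod.val_zero, mul_one, ZMod.val_mul, ZMod.val_natCast, Nat.mul_mod_mod]
    simp
  rw [hd]
  rcases hc u.val (ZMod.val_lt u) with h1 | h1 | ⟨h1, h2⟩
  · exact absurd hu h1
  · exact numOK_sound hk (by positivity) h1
  · rw [h1, h2]; exact special_10_11

end Pool.Agent.Lib.MP_0287c7_lc
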