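import Pool.Agent.Lib.MP_0287c7_lc.Pat
import Pool.Agent.Lib.MP_0287c7_lc.Res
import Pool.Agent.Lib.MP_0287c7_lc.Crit

-- part Pool.Agent.Lib.MP_0287c7_lc.Clus
section

set_option autoImplicit false
open Finset

namespace Pool.Agent.Lib.MP_0287c7_lc

variable {h : ℕ} [NeZero h]

lemma window (f : ℤ → ℤ) (hf : ∀ v, |f v| ≤ 1) (s : ℤ)
    (h0 : ∀ v, s ≤ v → v < s + 8 → f v + f (v - 1) + f (v - 3) = 0) :
    (f (s - 1) = 0 ∧ f (s - 2) = 0 ∧ f (s - 3) = 0) ∧
      (f (s + 7) = 0 ∧ f (s + 6) = 0 ∧ f (s + 5) = 0) := by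
  have e0 := h0 s (by omega) (by omega)
  have e1 := h0 (s + 1) (by omega) (by omega)
  have e2 := h0 (s + 2) (by omega) (by omega)
  have e3 := h0 (s + 3) (by omega) (by omega)
  have e4 := h0 (s + 4) (by omega) (by omega)
  have e5 := h0 (s + 5) (by omega) (by omega)
  have e6 := h0 (s + 6) (by omega) (by omega)
  have e7 := h0 (s + 7) (by omega) (by omega)
  rw [show s + 1 - 1 = s by ring, show s + 1 - 3 = s - 2 by ring] at e1
  rw [show s + 2 - 1 = s + 1 by ring, show s + 2 - 3 = s - 1 by ring] at e2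
  rw [show s + 3 - 1 = s + 2 by ring, show s + 3 - 3 = s by ring] at e3
  rw [show s + 4 - 1 = s + 3 by ring, show s + 4 - 3 = s + 1 by ring] at e4
  rw [show s + 5 - 1 = s + 4 by ring, show s + 5 - 3 = s + 2 by ring] at e5
  rw [show s + 6 - 1 = s + 5 by ring, show s + 6 - 3 = s + 3 by ring] at e6
  rw [show s + 7 - 1 = s + 6 by ring, show s + 7 - 3 = s + 4 by ring] at e7
  have b1 := abs_le.1 (hf (s - 1))
  have b2 := abs_le.1 (hf (s - 2))
  have b3 := abs_le.1 (hf (s - 3))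
  have b4 := abs_le.1 (hf s)
  have b5 := abs_le.1 (hf (s + 1))
  have b6 := abs_le.1 (hf (s + 2))
  have b7 := abs_le.1 (hf (s + 3))
  have b8 := abs_le.1 (hf (s + 4))
  have b9 := abs_le.1 (hf (s + 5))
  have b10 := abs_le.1 (hf (s + 6))
  have b11 := abs_le.1 (hf (s + 7))
  generalize f (s - 1) = x1 at *
  generalize f (s - 2) = x2 at *
  generalize f (s - 3) = x3 at *
  obtain ⟨c1, c2⟩ := b1
  obtain ⟨c3, c4⟩ := b2
  obtain ⟨c5, c6⟩ := b3
  interval_cases x1 <;> interval_cases x2 <;> interval_cases x3 <;> omega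

lemma telescope {M : Type} [CommRing M] (f : ℤ → ℤ) (φ : ℤ → M)
    (hφ : ∀ v, φ v + φ (v + 1) + φ (v + 3) = 0) (l : ℤ) (n : ℕ) :
    ∑ i ∈ range n, ((f (l + i) + f (l + i - 1) + f (l + i - 3) : ℤ) : M) * φ (l + i)
      = (f (l - 1) * (φ l + φ (l + 2)) + f (l - 2) * φ (l + 1) + f (l - 3) * φ l)
        - (f (l + n - 1) * (φ (l + n) + φ (l + n + 2)) + f (l + n - 2) * φ (l + n + 1)
          + f (l + n - 3) * φ (l + n)) := by
  induction n with
  | zero => simp
  | succ n ih =>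
    rw [sum_range_succ, ih]
    push_cast
    rw [show l + (n + 1) - 1 = l + n by ring, show l + (n + 1) - 2 = l + n - 1 by ring,
      show l + (n + 1) - 3 = l + n - 2 by ring, show l + (n + 1) + 2 = l + n + 3 by ring,
      show l + (n + 1) + 1 = l + n + 2 by ring, show l + (n + 1) = l + n + 1 by ring]
    linear_combination (f (l + n) : M) * hφ (l + n)

/-- value of a dual sequence at the representative inside a segment -/
def sel {M : Type} [CommRing M] (h : ℕ) (l r : ℤ) (φ : ℤ → M) (w : ℕ) : M :=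
  if (w : ℤ) < r then φ w else if h + l ≤ w then φ (w - h) else 0

lemma sgl_int (x z : ZMod h) {v : ℤ} (h1 : -h < v) (h2 : v < h) :
    sgl z (x + v) = if v = (z - x).val ∨ v = (z - x).val - h then 1 else 0 := by
  unfold sgl
  congr 1
  apply propext
  have hw := ZMod.val_lt (z - x)
  constructor
  · intro h3
    have h4 : ((v - (z - x).val : ℤ) : ZMod h) = 0 := by
      push_cast; simp only [ZMod.natCast_val, ZMod.cast_id', id]; linear_combination h3
    rw [ZMod.intCast_zmod_eq_zero_iff_dvd] at h4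
    obtain ⟨c, hc⟩ := h4
    have : c = 0 ∨ c = -1 := by
      by_contra h5
      have : c ≤ -2 ∨ 1 ≤ c := by omega
      rcases this with h6 | h6 <;> nlinarith
    rcases this with rfl | rfl <;> omega
  · rintro (h3 | h3) <;> rw [h3] <;> simp

lemma cluster (hh : 49 ≤ h) {D : ZMod h → ℤ} (hD : ∀ y, |D y| ≤ 1) (x z1 z2 z3 : ZMod h)
    (c0 c1 c2 c3 : ℤ) (hR : ∀ y, mul3 0 1 3 D y
      = c0 * sgl x y + c1 * sgl z1 y + c2 * sgl z2 y + c3 * sgl z3 y) :
    ∃ l r : ℤ, -24 ≤ l ∧ l ≤ 0 ∧ 0 < r ∧ r ≤ 25 ∧ ∀ (M : Type) [CommRing M] (φ : ℤ → M),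
      (∀ v, φ v + φ (v + 1) + φ (v + 3) = 0) → c0 * φ 0 + c1 * sel h l r φ (z1 - x).val
        + c2 * sel h l r φ (z2 - x).val + c3 * sel h l r φ (z3 - x).val = 0 := by
  set f : ℤ → ℤ := fun v => D (x + v) with hf
  have hR' : ∀ v : ℤ, f v + f (v - 1) + f (v - 3) = c0 * sgl x (x + v) + c1 * sgl z1 (x + v)
      + c2 * sgl z2 (x + v) + c3 * sgl z3 (x + v) := by
    intro v
    rw [← hR]
    simp only [hf, mul3]
    push_cast
    rw [sub_zero, add_sub_assoc, add_sub_assoc]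
  obtain ⟨r, r0, r1, r2⟩ : ∃ r : ℤ, 0 < r ∧ r ≤ 25 ∧ ∀ v, r ≤ v → v < r + 8 →
      v ≠ (z1 - x).val ∧ v ≠ (z2 - x).val ∧ v ≠ (z3 - x).val := by
    generalize ((z1 - x).val : ℤ) = w1
    generalize ((z2 - x).val : ℤ) = w2
    generalize ((z3 - x).val : ℤ) = w3
    by_contra h0
    push Not at h0
    obtain ⟨v1, a1⟩ := h0 1 (by omega) (by omega)
    obtain ⟨v2, a2⟩ := h0 9 (by omega) (by omega)
    obtain ⟨v3, a3⟩ := h0 17 (by omega) (by omega)
    obtain ⟨v4, a4⟩ := h0 25 (by omega) (by omega)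
    omega
  obtain ⟨l, l0, l1, l2⟩ : ∃ l : ℤ, -24 ≤ l ∧ l ≤ 0 ∧ ∀ v, l - 8 ≤ v → v < l →
      v ≠ (z1 - x).val - h ∧ v ≠ (z2 - x).val - h ∧ v ≠ (z3 - x).val - h := by
    generalize ((z1 - x).val : ℤ) - h = w1
    generalize ((z2 - x).val : ℤ) - h = w2
    generalize ((z3 - x).val : ℤ) - h = w3
    by_contra h0
    push Not at h0
    obtain ⟨v1, a1⟩ := h0 0 (by omega) (by omega)
    obtain ⟨v2, a2⟩ := h0 (-8) (by omega) (by omega)
    obtain ⟨v3, a3⟩ := h0 (-16) (by omega) (by omega)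
    obtain ⟨v4, a4⟩ := h0 (-24) (by omega) (by omega)
    omega
  have w1 := ZMod.val_lt (z1 - x)
  have w2 := ZMod.val_lt (z2 - x)
  have w3 := ZMod.val_lt (z3 - x)
  have hw1 := (window f (fun v => hD _) r fun v v1 v2 => by
    have := r2 v v1 v2
    rw [hR', sgl_int x x (by omega) (by omega), sgl_int x z1 (by omega) (by omega),
      sgl_int x z2 (by omega) (by omega), sgl_int x z3 (by omega) (by omega), sub_self,
      ZMod.val_zero, if_neg (by omega), if_neg (by omega), if_neg (by omega), if_neg (by omega)]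
    simp).1
  have hw2 := (window f (fun v => hD _) (l - 8) fun v v1 v2 => by
    have := l2 v v1 (by omega)
    rw [hR', sgl_int x x (by omega) (by omega), sgl_int x z1 (by omega) (by omega),
      sgl_int x z2 (by omega) (by omega), sgl_int x z3 (by omega) (by omega), sub_self,
      ZMod.val_zero, if_neg (by omega), if_neg (by omega), if_neg (by omega), if_neg (by omega)]
    simp).2
  rw [show l - 8 + 7 = l - 1 by ring, show l - 8 + 6 = l - 2 by ring,
    show l - 8 + 5 = l - 3 by ring] at hw2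
  refine ⟨l, r, l0, l1, r0, r1, fun M _ φ hφ => ?_⟩
  obtain ⟨n, hn⟩ := Int.eq_ofNat_of_zero_le (a := r - l) (by omega)
  have ht := telescope f φ hφ l n
  rw [show l + n = r by omega, hw1.1, hw1.2.1, hw1.2.2, hw2.1, hw2.2.1, hw2.2.2] at ht
  have key : ∀ z : ZMod h, ∑ i ∈ range n, (sgl z (x + (l + i : ℤ)) : M) * φ (l + i)
      = sel h l r φ (z - x).val := by
    intro z
    have hw := ZMod.val_lt (z - x)
    have e : ∀ i ∈ range n, (sgl z (x + (l + i : ℤ)) : M) * φ (l + i)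
        = if l + i = (z - x).val ∨ l + i = (z - x).val - h then φ (l + i) else 0 := by
      intro i hi
      have := mem_range.1 hi
      rw [sgl_int x z (by omega) (by omega)]
      split_ifs <;> simp
    rw [sum_congr rfl e]
    unfold sel
    generalize (z - x).val = w at hw ⊢
    split_ifs with b1 b2
    · rw [sum_eq_single (w - l).toNat, if_pos (by omega)]
      · congr 1; omega
      · intro i hi h3; have := mem_range.1 hi; rw [if_neg (by omega)]
      · intro h3; exact absurd (mem_range.2 (by omega)) h3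
    · rw [sum_eq_single (w - h - l).toNat, if_pos (by omega)]
      · congr 1; omega
      · intro i hi h3; have := mem_range.1 hi; rw [if_neg (by omega)]
      · intro h3; exact absurd (mem_range.2 (by omega)) h3
    · exact sum_eq_zero fun i hi => by have := mem_range.1 hi; rw [if_neg (by omega)]
  have k0 := key x
  rw [sub_self, ZMod.val_zero, sel, if_pos (by omega), Nat.cast_zero] at k0
  rw [← k0, ← key, ← key, ← key, mul_sum, mul_sum, mul_sum, mul_sum, ← sum_add_distrib,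
    ← sum_add_distrib, ← sum_add_distrib]
  simp only [hR'] at ht
  simp only [Int.cast_zero, zero_mul, add_zero, sub_self] at ht
  rw [← ht]
  refine sum_congr rfl fun i _ => ?_
  push_cast; ring

/-- the binary dual sequence of period seven -/
def mseq (v : ℤ) : ZMod 2 :=
  if v % 7 = 0 ∨ v % 7 = 3 ∨ v % 7 = 5 ∨ v % 7 = 6 then 1 else 0

lemma mseq_rec (v : ℤ) : mseq v + mseq (v + 1) + mseq (v + 3) = 0 := by
  unfold mseq
  split_ifs <;> first | decide | omega

/-- a single odd coefficient is impossible -/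
lemma cluster_odd (hh : 49 ≤ h) {D : ZMod h → ℤ} (hD : ∀ y, |D y| ≤ 1) (x z1 z2 z3 : ZMod h)
    (c0 c1 c2 c3 : ℤ) (hR : ∀ y, mul3 0 1 3 D y
      = c0 * sgl x y + c1 * sgl z1 y + c2 * sgl z2 y + c3 * sgl z3 y)
    (o0 : c0 % 2 = 1) (o1 : c1 % 2 = 0 ∨ (z1 - x).val = 11) (o2 : c2 % 2 = 0) (o3 : c3 % 2 = 0) :
    False := by
  obtain ⟨l, r, l0, l1, r0, r1, key⟩ := cluster hh hD x z1 z2 z3 c0 c1 c2 c3 hR
  have := key (ZMod 2) mseq mseq_rec
  have ev : ∀ c : ℤ, c % 2 = 0 → (c : ZMod 2) = 0 := fun c hc =>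
    (ZMod.intCast_zmod_eq_zero_iff_dvd c 2).2 (by omega)
  have e0 : (c0 : ZMod 2) = 1 := by
    have := ev (c0 - 1) (by omega)
    push_cast at this; linear_combination this
  have e1 : (c1 : ZMod 2) * sel h l r mseq (z1 - x).val = 0 := by
    rcases o1 with o1 | o1
    · rw [ev c1 o1, zero_mul]
    · rw [o1, sel]
      split_ifs
      · simp [mseq]
      · omega
      · simp
  rw [e0, e1, ev c2 o2, ev c3 o3] at this
  simp [mseq] at this

lemma exists_rho : ∃ ρ : ℝ, -0.69 < ρ ∧ ρ < -0.68 ∧ ρ ^ 3 + ρ + 1 = 0 := by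
  have hc : ContinuousOn (fun x : ℝ => x ^ 3 + x + 1) (Set.Icc (-0.69) (-0.68)) := by fun_prop
  obtain ⟨ρ, ⟨h1, h2⟩, h3⟩ := intermediate_value_Ioo (by norm_num) hc
    (show (0 : ℝ) ∈ Set.Ioo _ _ by constructor <;> norm_num)
  exact ⟨ρ, h1, h2, h3⟩

/-- the four point configuration of a single level -/
lemma cluster_four (hh : 74 ≤ h) {D : ZMod h → ℤ} (hD : ∀ y, |D y| ≤ 1) (α α' σ : ZMod h)
    (hR : ∀ y, mul3 0 1 3 D y
      = 1 * sgl (α + σ) y + (-1) * sgl (α' + σ) y + 2 * sgl α' y + (-2) * sgl α y) : α' = α := by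
  by_contra hne
  obtain ⟨l, r, l0, l1, r0, r1, key⟩ := cluster (by omega) hD _ _ _ _ _ _ _ _ hR
  obtain ⟨ρ, p1, p2, p3⟩ := exists_rho
  have hρ : ρ ≠ 0 := by intro h0; rw [h0] at p2; norm_num at p2
  have k2 := key (ZMod 2) mseq mseq_rec
  have k3 := key (ZMod 3) (fun _ => 1) (fun _ => by decide)
  have kr := key ℝ (fun v => ρ ^ v) (fun v => by
    rw [zpow_add₀ hρ, zpow_add₀ hρ]
    have : ρ ^ (3 : ℤ) = ρ ^ 3 := by norm_cast
    rw [this, zpow_one]; linear_combination ρ ^ v * p3)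
  have hw : ((α' + σ - (α + σ)).val : ZMod h) = (α' - (α + σ)).val - (α - (α + σ)).val := by
    simp only [ZMod.natCast_val, ZMod.cast_id', id]; ring
  have hw0 : (α' + σ - (α + σ)).val ≠ 0 := by
    rw [Ne, ZMod.val_eq_zero]
    intro h0; apply hne; linear_combination h0
  have w1 := ZMod.val_lt (α' + σ - (α + σ))
  have w2 := ZMod.val_lt (α' - (α + σ))
  have w3 := ZMod.val_lt (α - (α + σ))
  generalize (α' + σ - (α + σ)).val = u at *
  generalize (α' - (α + σ)).val = a' at *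
  generalize (α - (α + σ)).val = a at *
  have one : ∀ v : ℤ, ρ ^ v = 1 → v = 0 := by
    intro v hv
    have h1 : |ρ| ^ v = 1 := by rw [← abs_zpow, hv, abs_one]
    exact (zpow_eq_one_iff_right₀ (abs_nonneg _) (by rw [abs_of_neg (by linarith)]; linarith)).1 h1
  have two : ∀ v : ℤ, 2 * ρ ^ v ≠ 1 := by
    intro v hv
    have h1 : 2 * (-ρ) ^ v = 1 := by
      have := congrArg abs hv
      rwa [abs_mul, abs_zpow, abs_of_neg (show ρ < 0 by linarith), abs_one, abs_two] at this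
    have h0 : 0 < -ρ := by linarith
    have h2 : -ρ ≤ 1 := by linarith
    rcases le_or_gt v 1 with h3 | h3
    · have := zpow_le_zpow_right_of_le_one₀ h0 h2 h3
      rw [zpow_one] at this
      linarith
    · have := zpow_le_zpow_right_of_le_one₀ h0 h2 (show (2 : ℤ) ≤ v by omega)
      have h4 : (-ρ) ^ (2 : ℤ) = ρ ^ 2 := by norm_cast; ring
      rw [h4] at this
      nlinarith
  have main : ∀ v b' b : ℤ, 1 * 1 + -1 * ρ ^ v + 2 * ρ ^ b' + -2 * ρ ^ b = 0 →
      (v = u ∨ v = u - h) → (b' = a' ∨ b' = a' - h) → (b = a ∨ b = a - h) →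
      -24 ≤ v → v < 25 → -24 ≤ b' → b' < 25 → -24 ≤ b → b < 25 → False := by
    intro v b' b he v1 v2 v3 _ _ _ _ _ _
    have h4 : ((v - (b' - b) : ℤ) : ZMod h) = 0 := by
      rcases v1 with rfl | rfl <;> rcases v2 with rfl | rfl <;> rcases v3 with rfl | rfl <;>
        push_cast <;> simp [hw]
    rw [ZMod.intCast_zmod_eq_zero_iff_dvd] at h4
    have h5 := Int.eq_zero_of_abs_lt_dvd h4 (by rw [abs_lt]; constructor <;> omega)
    have h6 : b' = b + v := by omega
    rw [h6, zpow_add₀ hρ] at he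
    have h7 : (1 - ρ ^ v) * (1 - 2 * ρ ^ b) = 0 := by linear_combination he
    rcases mul_eq_zero.1 h7 with h8 | h8
    · have := one v (by linarith); omega
    · exact two b (by linarith)
  unfold sel at k2 k3 kr
  simp only [Int.cast_one, Int.cast_neg, Int.cast_ofNat, zpow_zero] at k2 k3 kr
  have m0 : mseq 0 = 1 := by simp [mseq]
  have t2 : (2 : ZMod 2) = 0 := rfl
  rw [m0, t2] at k2
  split_ifs at k2 k3 kr <;>
    first
    | (revert k3; decide)
    | (simp at k2; done)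
    | (have := one u (by linarith); omega)
    | (have := one (u - h) (by linarith); omega)
    | (refine main _ _ _ kr ?_ ?_ ?_ ?_ ?_ ?_ ?_ ?_ ?_ <;> omega)

end Pool.Agent.Lib.MP_0287c7_lc
end

-- part Pool.Agent.Lib.MP_0287c7_lc.FamA
section

set_option autoImplicit false
open Finset

namespace Pool.Agent.Lib.MP_0287c7_lc

variable {h : ℕ} [NeZero h]

lemma mul3A (hh : 4 ≤ h) (C : Finset ℕ) (y0 d t : ℕ) (π y : ZMod h) :
    mul3 0 1 3 (ind C y0 d t π) y = (if pat C y0 d t (y + π).val then 1 else 0)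
      + (if pat C y0 d t (if 1 ≤ (y + π).val then (y + π).val - 1 else (y + π).val + h - 1)
        then 1 else 0)
      + (if pat C y0 d t (if 3 ≤ (y + π).val then (y + π).val - 3 else (y + π).val + h - 3)
        then 1 else 0) := by
  rw [← ind_sub C y0 d t π y (s := 1) (by omega), ← ind_sub C y0 d t π y (s := 3) (by omega)]
  simp [mul3, ind]

lemma injA (hh : 4 ≤ h) (Zc : ZMod h → Prop) : Inj (0 : ZMod h) 1 3 Zc := by
  refine inj_of_not_tie ?_ Zc
  have h1 := ZMod.val_cast_of_lt (n := h) (a := 1) (by omega)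
  have h3 := ZMod.val_cast_of_lt (n := h) (a := 3) (by omega)
  push_cast at h1 h3
  omega

lemma witA0 {k : ℕ} (hk : 0 < k) {w : ℕ} (hw : h = 4 * w) (σ : ZMod h) : Wit k σ 0 1 3 := by
  have := NeZero.ne h
  refine wit_indep hk (isBit_ind ∅ 0 4 w 0) (fun y => ?_) ?_ (injA (by omega) fun _ => False)
    (fun _ h => h.elim)
  · rw [mul3A (by omega)]
    have := ZMod.val_lt (y + 0)
    generalize (y + 0).val = v at *
    simp only [pat, notMem_empty, false_or]
    split_ifs <;> omega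
  · rw [sum_ind _ (by omega) (by simp) (by omega)]; simp; omega

section
variable {w : ℕ}

lemma lvY (hw : 4 * w < h) (hh : 5 ≤ h) (π : ZMod h) : Lv 0 1 3 0 (ind ∅ 0 4 w π) 0 := by
  refine ⟨isBit_ind _ _ _ _ _, fun _ => le_rfl, fun y => ?_, by simp⟩
  simp only [mul3A (show 4 ≤ h by omega), Pi.zero_apply]
  have := ZMod.val_lt (y + π)
  generalize (y + π).val = v at *
  simp only [pat, notMem_empty, false_or]
  split_ifs <;> omega

lemma lvY' (hw : 4 * w < h) (hh : 5 ≤ h) (z : ZMod h) :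
    Lv 0 1 3 (sgl z) (ind ∅ 0 4 w (2 - z)) 0 := by
  refine ⟨isBit_ind _ _ _ _ _, fun _ => le_rfl, fun y => ?_, by simp⟩
  simp only [mul3A (show 4 ≤ h by omega), Pi.zero_apply,
    sgl_eq (z := z) (π := 2 - z) (c := 2) (by omega) (by simp)]
  have := ZMod.val_lt (y + (2 - z))
  generalize (y + (2 - z)).val = v at *
  simp only [pat, notMem_empty, false_or]
  split_ifs <;> omega

lemma sumY (hw : 4 * w < h) (π : ZMod h) : ∑ y, ind ∅ 0 4 w π y = w := by
  rw [sum_ind _ (by omega) (by simp) (by omega)]; simp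

lemma lvP (hw : h = 4 * w + 5) : Lv (0 : ZMod h) 1 3 0 (ind {0, 1} 5 4 w 1) (sgl 0) := by
  refine ⟨isBit_ind _ _ _ _ _, sgl_nn _, fun y => ?_, by simp [sum_sgl]⟩
  simp only [mul3A (show 4 ≤ h by omega), Pi.zero_apply,
    sgl_eq (z := (0 : ZMod h)) (π := 1) (c := 1) (by omega) (by simp)]
  have := ZMod.val_lt (y + 1)
  generalize (y + 1).val = v at *
  simp only [pat, mem_insert, mem_singleton]
  split_ifs <;> omega

lemma lvP' (hw : h = 4 * w + 5) : Lv (0 : ZMod h) 1 3 (sgl 0) (ind {0, 1} 5 4 w 1) (sgl 0) := by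
  refine ⟨isBit_ind _ _ _ _ _, sgl_nn _, fun y => ?_, by simp [sum_sgl]⟩
  simp only [mul3A (show 4 ≤ h by omega),
    sgl_eq (z := (0 : ZMod h)) (π := 1) (c := 1) (by omega) (by simp)]
  have := ZMod.val_lt (y + 1)
  generalize (y + 1).val = v at *
  simp only [pat, mem_insert, mem_singleton]
  split_ifs <;> omega

lemma sumP (hw : h = 4 * w + 5) (π : ZMod h) : ∑ y, ind {0, 1} 5 4 w π y = w + 2 := by
  rw [sum_ind _ (by omega) (by simp; omega) (by omega)]; simp; ring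

lemma lvC (hw : h = 4 * w + 7) : Lv (0 : ZMod h) 1 3 0 (ind {0, 2, 3} 7 4 w 3) (sgl 0) := by
  refine ⟨isBit_ind _ _ _ _ _, sgl_nn _, fun y => ?_, by simp [sum_sgl]⟩
  simp only [mul3A (show 4 ≤ h by omega), Pi.zero_apply,
    sgl_eq (z := (0 : ZMod h)) (π := 3) (c := 3) (by omega) (by simp)]
  have := ZMod.val_lt (y + 3)
  generalize (y + 3).val = v at *
  simp only [pat, mem_insert, mem_singleton]
  split_ifs <;> omega

lemma lvC' (hw : h = 4 * w + 7) (h1 : 1 ≤ w) :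
    Lv (0 : ZMod h) 1 3 (sgl 0) (ind {0, 2, 3} 7 4 w 9) (sgl (-6)) := by
  refine ⟨isBit_ind _ _ _ _ _, sgl_nn _, fun y => ?_, by simp [sum_sgl]⟩
  simp only [mul3A (show 4 ≤ h by omega),
    sgl_eq (z := (0 : ZMod h)) (π := 9) (c := 9) (by omega) (by simp),
    sgl_eq (z := (-6 : ZMod h)) (π := 9) (c := 3) (by omega) (by norm_num)]
  have := ZMod.val_lt (y + 9)
  generalize (y + 9).val = v at *
  simp only [pat, mem_insert, mem_singleton]
  split_ifs <;> omega

lemma sumC (hw : h = 4 * w + 7) (π : ZMod h) : ∑ y, ind {0, 2, 3} 7 4 w π y = w + 3 := by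
  rw [sum_ind _ (by omega) (by simp; omega) (by omega)]; simp; ring

lemma sum_two (z z' : ZMod h) : ∑ y, (sgl z y + sgl z' y) = 2 := by
  rw [sum_add_distrib, sum_sgl, sum_sgl]; rfl

lemma lvD (hw : h = 4 * w + 18) :
    Lv (0 : ZMod h) 1 3 0 (ind {0, 2, 3, 7, 11, 13, 14} 18 4 w 3) (fun y => sgl 0 y + sgl 11 y) := by
  refine ⟨isBit_ind _ _ _ _ _, fun y => add_nonneg (sgl_nn _ _) (sgl_nn _ _), fun y => ?_,
    by rw [sum_two]⟩
  simp only [mul3A (show 4 ≤ h by omega), Pi.zero_apply,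
    sgl_eq (z := (0 : ZMod h)) (π := 3) (c := 3) (by omega) (by simp),
    sgl_eq (z := (11 : ZMod h)) (π := 3) (c := 14) (by omega) (by norm_num)]
  have := ZMod.val_lt (y + 3)
  generalize (y + 3).val = v at *
  simp only [pat, mem_insert, mem_singleton]
  split_ifs <;> omega

lemma sumD (hw : h = 4 * w + 18) (π : ZMod h) :
    ∑ y, ind {0, 2, 3, 7, 11, 13, 14} 18 4 w π y = w + 7 := by
  rw [sum_ind _ (by omega) (by simp; omega) (by omega)]; simp; ring

lemma lvE (hw : h = 4 * w + 18) :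
    Lv (0 : ZMod h) 1 3 (fun y => sgl 0 y + sgl 11 y) (ind {0} 6 4 (w + 3) 5) 0 := by
  refine ⟨isBit_ind _ _ _ _ _, fun _ => le_rfl, fun y => ?_, by simp⟩
  simp only [mul3A (show 4 ≤ h by omega), Pi.zero_apply,
    sgl_eq (z := (0 : ZMod h)) (π := 5) (c := 5) (by omega) (by simp),
    sgl_eq (z := (11 : ZMod h)) (π := 5) (c := 16) (by omega) (by norm_num)]
  have := ZMod.val_lt (y + 5)
  generalize (y + 5).val = v at *
  simp only [pat, mem_singleton]
  split_ifs <;> omega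

lemma sumE (hw : h = 4 * w + 18) (π : ZMod h) : ∑ y, ind {0} 6 4 (w + 3) π y = w + 4 := by
  rw [sum_ind _ (by omega) (by simp; omega) (by omega)]; simp; ring

lemma witA1 (hw : h = 4 * w + 5) {k : ℕ} (hk : 4 ≤ k) (he : k % 2 = 0) (σ : ZMod h) :
    Wit k σ 0 1 3 := by
  have y1 := lvY' (h := h) (w := w + 1) (by omega) (by omega) 0
  have y0 := lvY (h := h) (w := w + 1) (by omega) (by omega) 0
  have hB := blk4 (lvP hw) (lvP' hw) y1 y0 (by
    simp only [sumP hw, sumY (show 4 * (w + 1) < h by omega), sum_sgl]; simp; omega)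
  have hR := blk2 (lvP hw) y1 (by
    simp only [sumP hw, sumY (show 4 * (w + 1) < h by omega), sum_sgl]; simp; omega)
  refine wit_head hB hR (injA (by omega) _) (hB.hole0 ?_) (fun _ => ?_) hk (by omega) σ
  · simp [oo, sumP hw, sum_sgl]; omega
  · simp [sum_sgl, lb1, lb2]

lemma witA3 (hw : h = 4 * w + 7) (h1 : 1 ≤ w) {k : ℕ} (hk : 4 ≤ k) (he : k % 2 = 0) (σ : ZMod h) :
    Wit k σ 0 1 3 := by
  have y1 := lvY' (h := h) (w := w + 1) (by omega) (by omega) 0
  have y2 := lvY' (h := h) (w := w + 1) (by omega) (by omega) (-6)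
  have y0 := lvY (h := h) (w := w + 1) (by omega) (by omega) 0
  have hB := blk4 (lvC hw) (lvC' hw h1) y2 y0 (by
    simp only [sumC hw, sumY (show 4 * (w + 1) < h by omega), sum_sgl]; simp; omega)
  have hR := blk2 (lvC hw) y1 (by
    simp only [sumC hw, sumY (show 4 * (w + 1) < h by omega), sum_sgl]; simp; omega)
  refine wit_head hB hR (injA (by omega) _) (hB.hole0 ?_) (fun _ => ?_) hk (by omega) σ
  · simp [oo, sumC hw, sum_sgl]; omega
  · simp [sum_sgl, lb1, lb2]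

lemma witA2 (hw : h = 4 * w + 18) {k : ℕ} (hk : 3 ≤ k) (σ : ZMod h) : Wit k σ 0 1 3 := by
  have y0 := lvY (h := h) (w := w + 4) (by omega) (by omega) 0
  have hR := blk2 (lvD hw) (lvE hw) (by simp only [sumD hw, sumE hw, sum_two]; omega)
  by_cases he : k % 2 = 0
  · have hB := blk4 (lvD hw) (lvE hw) y0 y0 (by
      simp only [sumD hw, sumE hw, sumY (show 4 * (w + 4) < h by omega), sum_two]; simp; omega)
    refine wit_head hB hR (injA (by omega) _) (hB.hole0 ?_) (fun _ => ?_) (by omega) (by omega) σ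
    · simp [oo, sumD hw, sum_two]; omega
    · simp [sum_two, lb1, lb2]
  · have hB := blk3 (lvD hw) (lvE hw) y0 (by
      simp only [sumD hw, sumE hw, sumY (show 4 * (w + 4) < h by omega), sum_two]; simp; omega)
    refine wit_head hB hR (injA (by omega) _) (hB.hole0 ?_) (fun _ => by omega) hk (by omega) σ
    simp [oo, sumD hw, sum_two]; omega

omit [NeZero h] in
lemma sgl_shift (z σ y : ZMod h) : sgl z (y - σ) = sgl (z + σ) y := by
  simp [sgl, sub_eq_iff_eq_add]

/-- two levels, one carry -/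
lemma witA_two_odd (hh : 49 ≤ h) {X Y : ZMod h → ℤ} (l0 : Lv 0 1 3 0 X (sgl 0))
    (l1 : Lv 0 1 3 (sgl 0) Y 0) (hv : 2 * h + 2 ≤ 4 * (∑ y, X y + ∑ y, Y y))
    (hc : 3 * ∑ y, X y - 2 < h) (σ : ZMod h) : Wit 2 σ 0 1 3 := by
  have hB := blk2 l0 l1 (by simpa [sum_sgl] using hv)
  refine hB.wit (injA (by omega) _) (hB.hole0 (by simpa [oo, sum_sgl] using hc))
    (fun _ => Or.inl (by simp [sum_sgl, lb1])) (fun _ => Or.inr ⟨by simp [sum_sgl, lb2], ?_⟩)
  intro a' γ' hA hp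
  have p0 := hp 0 (by omega)
  have p1 := hp 1 (by omega)
  simp [oo, sum_sgl, lb2] at p0 p1
  obtain ⟨z, hz⟩ := single_of_sum (hA.nn 1) p1
  refine cluster_odd hh (abs_diff (hA.bit 1) (hB.bit 1)) 0 z z z 1 2 0 0 (fun y => ?_) rfl
    (Or.inl rfl) rfl rfl
  rw [hA.diff (by omega : 1 < 2)]
  simp [cin, hz, zero_of_sum (hA.nn 0) p0]; ring

lemma witA_two (hh : 49 ≤ h) (h4 : h % 4 ≠ 0) (σ : ZMod h) : Wit 2 σ 0 1 3 := by
  have : h % 4 = 1 ∨ h % 4 = 3 ∨ h % 4 = 2 := by omega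
  rcases this with h1 | h1 | h1
  · obtain ⟨w, hw⟩ : ∃ w, h = 4 * w + 5 := ⟨(h - 5) / 4, by omega⟩
    refine witA_two_odd hh (lvP hw) (lvY' (w := w + 1) (by omega) (by omega) 0) ?_ ?_ σ
    · rw [sumP hw, sumY (by omega)]; push_cast; omega
    · rw [sumP hw]; omega
  · obtain ⟨w, hw⟩ : ∃ w, h = 4 * w + 7 := ⟨(h - 7) / 4, by omega⟩
    refine witA_two_odd hh (lvC hw) (lvY' (w := w + 1) (by omega) (by omega) 0) ?_ ?_ σ
    · rw [sumC hw, sumY (by omega)]; push_cast; omega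
    · rw [sumC hw]; omega
  obtain ⟨w, hw⟩ : ∃ w, h = 4 * w + 18 := ⟨(h - 18) / 4, by omega⟩
  have hB := blk2 (lvD hw) (lvE hw) (by simp only [sumD hw, sumE hw, sum_two]; omega)
  refine hB.wit (injA (by omega) _) (hB.hole0 (by simp [oo, sumD hw, sum_two]; omega))
    (fun _ => Or.inr ⟨by simp [sum_two, lb1], ?_⟩) (fun _ => Or.inr ⟨by simp [sum_two, lb2], ?_⟩)
  · intro a' γ' hA hp
    have p0 := hp 0 (by omega)
    have p1 := hp 1 (by omega)
    simp [oo, sum_two, lb1] at p0 p1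
    obtain ⟨z, z', hz⟩ := pair_of_sum (hA.nn 1) p1
    refine cluster_odd hh (abs_diff (hA.bit 1) (hB.bit 1)) 0 11 z z' 1 1 2 2 (fun y => ?_) rfl
      (Or.inr ?_) rfl rfl
    · rw [hA.diff (by omega : 1 < 2)]
      simp [cin, hz, zero_of_sum (hA.nn 0) p0]; ring
    · have := ZMod.val_cast_of_lt (n := h) (a := 11) (by omega)
      simpa using this
  · intro a' γ' hA hp
    have p0 := hp 0 (by omega)
    have p1 := hp 1 (by omega)
    simp [oo, sum_two, lb2] at p0 p1
    obtain ⟨z, hz⟩ := single_of_sum (hA.nn 0) p0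
    obtain ⟨z', hz'⟩ := single_of_sum (hA.nn 1) p1
    refine cluster_odd hh (abs_diff (hA.bit 0) (hB.bit 0)) (z' + σ) z 0 11 (-1) 2 (-2) (-2)
      (fun y => ?_) rfl (Or.inl rfl) rfl rfl
    rw [hA.diff (by omega : 0 < 2), ← sgl_shift]
    simp [cin, hz, hz']; ring

lemma witA_one_aux (hh : 74 ≤ h) {X : ZMod h → ℤ} {α σ : ZMod h}
    (l0 : Lv 0 1 3 (sgl (α + σ)) X (sgl α)) (hv : (h : ℤ) + 2 = 4 * ∑ y, X y) : Wit 1 σ 0 1 3 := by
  have e : ∀ z y : ZMod h, sgl z (y - σ) = sgl (z + σ) y := fun z y => sgl_shift z σ y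
  have ht : tau 1 σ 0 1 3 (fun _ => X) (fun _ => sgl α) 0
      = fun y => mul3 0 1 3 X y + sgl (α + σ) y - 2 * sgl α y := by
    funext y; simp [tau, cin, e]
  refine ⟨fun _ => X, fun _ => sgl α, ⟨fun _ => l0.bit, fun _ => l0.nn, fun c hc => ?_,
    ⟨0, one_pos, ?_⟩, ?_⟩, fun a' γ' hA c hc => ?_⟩
  · rw [show c = 0 by omega, ht]; exact l0.tb
  · rw [ht]
    refine hole_of_count l0.tb ?_
    simp only [sum_sub_distrib, sum_add_distrib, sum_mul3, ← mul_sum, sum_sgl]
    omega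
  · simp [tot, sum_sgl]; omega
  · obtain rfl : c = 0 := by omega
    rcases profile one_pos (fun _ => l0.nn) (fun _ _ => l0.o2) hA with b | ⟨b, _⟩
    · have p0 := b 0 one_pos
      simp only [oo, sum_sgl] at p0
      obtain ⟨z, hz⟩ := single_of_sum (hA.nn 0) p0
      have hd := fun y => hA.diff one_pos y
      simp only [cin, if_true, hz, e, Nat.sub_self] at hd
      have := cluster_four hh (abs_diff (hA.bit 0) l0.bit) α z σ (fun y => by rw [hd]; ring)
      subst this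
      funext y
      have := injA (by omega) (fun _ => False) _ (fun y => by rw [hd]; ring)
        (fun _ h => h.elim) y
      exact sub_eq_zero.1 this
    · omega

lemma witA_one (hh : 74 ≤ h) (h4 : h % 4 = 2) {σ : ZMod h} (ho : σ.val % 2 = 1) (h1 : σ ≠ -1)
    (h3 : σ ≠ 3) : Wit 1 σ 0 1 3 := by
  obtain ⟨w, hw⟩ : ∃ w, h = 4 * w + 6 := ⟨(h - 6) / 4, by omega⟩
  have hs := ZMod.val_lt σ
  have c1 : σ.val ≠ h - 1 := by
    intro h5; apply h1
    rw [← ZMod.natCast_zmod_val σ, h5, Nat.cast_sub (by omega)]; simp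
  have c3 : σ.val ≠ 3 := by
    intro h5; apply h3
    rw [← ZMod.natCast_zmod_val σ, h5]; simp
  by_cases h5 : σ.val % 4 = 1
  · refine witA_one_aux hh (X := ind {0, 2} 6 4 w 0) (α := 3)
      ⟨isBit_ind _ _ _ _ _, sgl_nn _, fun y => ?_, by simp [sum_sgl]⟩ ?_
    · simp only [mul3A (show 4 ≤ h by omega),
        sgl_eq (z := (3 : ZMod h)) (π := 0) (c := 3) (by omega) (by simp),
        sgl_eq (z := 3 + σ) (π := 0) (c := 3 + σ.val) (by omega) (by simp)]
      have := ZMod.val_lt (y + 0)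
      generalize (y + 0).val = v at *
      simp only [pat, mem_insert, mem_singleton]
      split_ifs <;> omega
    · rw [sum_ind _ (by omega) (by simp; omega) (by omega)]; simp; omega
  · refine witA_one_aux hh (X := ind {0, 1} 6 4 w 0) (α := 1)
      ⟨isBit_ind _ _ _ _ _, sgl_nn _, fun y => ?_, by simp [sum_sgl]⟩ ?_
    · simp only [mul3A (show 4 ≤ h by omega),
        sgl_eq (z := (1 : ZMod h)) (π := 0) (c := 1) (by omega) (by simp),
        sgl_eq (z := 1 + σ) (π := 0) (c := 1 + σ.val) (by omega) (by simp)]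
      have := ZMod.val_lt (y + 0)
      generalize (y + 0).val = v at *
      simp only [pat, mem_insert, mem_singleton]
      split_ifs <;> omega
    · rw [sum_ind _ (by omega) (by simp; omega) (by omega)]; simp; omega

end

lemma coprimeA (hh : 4 ≤ h) (h4 : h % 4 = 2) {u v : ZMod h} (huv : v * u = 1) (hv : v = -1 ∨ v = 3) :
    Nat.Coprime (2 ^ h - 1) (dd 1 (u * 0) (u * 1) (u * 3)) := by
  set g := Nat.gcd (2 ^ h - 1) (dd 1 (u * 0) (u * 1) (u * 3)) with hg
  have h1 : (2 : ZMod g) ^ h = 1 := by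
    have := (ZMod.natCast_eq_zero_iff _ g).2 (Nat.gcd_dvd_left (2 ^ h - 1) (dd 1 (u * 0) (u * 1) (u * 3)))
    rw [Nat.cast_sub Nat.one_le_two_pow] at this
    push_cast at this
    linear_combination this
  have h2 := (ZMod.natCast_eq_zero_iff _ g).2
    (Nat.gcd_dvd_right (2 ^ h - 1) (dd 1 (u * 0) (u * 1) (u * 3)))
  have v1 : (1 : ZMod h).val = 1 := by
    have := ZMod.val_cast_of_lt (n := h) (a := 1) (by omega)
    simpa using this
  have e3 : (2 : ZMod g) ^ (u * 3).val = (2 ^ u.val) ^ 3 := by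
    rw [show u * 3 = u + u + u by ring, pow_val_add h1, pow_val_add h1]; ring
  simp only [dd, mul_zero, ZMod.val_zero, mul_one, one_mul] at h2
  push_cast at h2
  rw [e3] at h2
  have fin : ∀ p e : ℕ, p.Prime → (p : ZMod g) = 0 → 0 < e → 4 ∣ e → (2 : ZMod p) ^ e = 1 →
      (∀ i < e, i % 4 = 2 → (2 : ZMod p) ^ i ≠ 1) → g = 1 := by
    intro p e hp h0 he h4e h5 h6
    rcases (Nat.dvd_prime hp).1 ((ZMod.natCast_eq_zero_iff _ g).1 h0) with h7 | h7
    · exact h7
    · exfalso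
      rw [h7, pow_eq_pow_mod h h5] at h1
      refine h6 _ (Nat.mod_lt _ he) ?_ h1
      rw [Nat.mod_mod_of_dvd _ h4e, h4]
  rcases hv with rfl | rfl
  · have e1 : (2 : ZMod g) ^ u.val * 2 = 1 := by
      have := pow_val_add h1 u 1
      rw [show u + 1 = 0 by linear_combination -huv, ZMod.val_zero, v1] at this
      simpa using this.symm
    refine fin 13 12 (by norm_num) ?_ (by norm_num) (by norm_num) (by decide) (by decide)
    generalize (2 : ZMod g) ^ u.val = y at *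
    push_cast
    linear_combination 8 * h2 - (4 * y ^ 2 + 2 * y + 5) * e1
  · rw [mul_comm] at huv
    rw [huv, v1, pow_one] at e3
    refine fin 29 28 (by norm_num) ?_ (by norm_num) (by norm_num) (by decide) (by decide)
    generalize (2 : ZMod g) ^ u.val = y at *
    push_cast
    linear_combination (y ^ 2 - 3 * y + 9) * h2 + (y ^ 2 - 3 * y + 10) * e3

end Pool.Agent.Lib.MP_0287c7_lc
end

-- part Pool.Agent.Lib.MP_0287c7_lc.FamB
section

set_option autoImplicit false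
open Finset

namespace Pool.Agent.Lib.MP_0287c7_lc

variable {h : ℕ} [NeZero h] {H : ℕ}

lemma mul3B (hh : h = 2 * H) (C : Finset ℕ) (y0 d t : ℕ) (π y : ZMod h) :
    mul3 0 1 (H : ZMod h) (ind C y0 d t π) y = (if pat C y0 d t (y + π).val then 1 else 0)
      + (if pat C y0 d t (if 1 ≤ (y + π).val then (y + π).val - 1 else (y + π).val + h - 1)
        then 1 else 0)
      + (if pat C y0 d t (if H ≤ (y + π).val then (y + π).val - H else (y + π).val + h - H)
        then 1 else 0) := by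
  have := NeZero.ne h
  rw [← ind_sub C y0 d t π y (s := 1) (by omega), ← ind_sub C y0 d t π y (s := H) (by omega)]
  simp [mul3, ind]

omit [NeZero h] in
lemma val_one' (hh : 2 ≤ h) : (1 : ZMod h).val = 1 := by
  have := ZMod.val_cast_of_lt (n := h) (a := 1) (by omega)
  simpa using this

lemma injB (hh : h = 2 * H) (Zc : ZMod h → Prop) : Inj (0 : ZMod h) 1 H Zc := by
  have := NeZero.ne h
  refine inj_of_not_tie ?_ Zc
  rw [val_one' (by omega), m_val hh]
  omega

lemma witB0 {k : ℕ} (hk : 0 < k) (hh : h = 2 * H) {w : ℕ} (hw : H = 2 * w) (σ : ZMod h) :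
    Wit k σ 0 1 H := by
  have := NeZero.ne h
  refine wit_indep hk (isBit_ind ∅ 0 2 w 0) (fun y => ?_) ?_ (injB hh fun _ => False)
    (fun _ h => h.elim)
  · rw [mul3B hh]
    have := ZMod.val_lt (y + 0)
    generalize (y + 0).val = v at *
    simp only [pat, notMem_empty, false_or]
    split_ifs <;> omega
  · rw [sum_ind _ (by omega) (by simp) (by omega)]; simp; omega

/-- a full column of carries -/
def gcol (H : ℕ) (t y : ZMod h) : ℤ := sgl t y + sgl (t + (H : ZMod h)) y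

lemma sum_gcol (t : ZMod h) : ∑ y, gcol H t y = 2 := sum_two _ _

section
variable {w : ℕ}

lemma lvBX (hh : h = 2 * H) (hw : H = 2 * w + 3) (t : ZMod h) :
    Lv 0 1 (H : ZMod h) 0 (ind {0, 1, H + 1} (H + 3) 2 w (1 - t)) (gcol H t) := by
  refine ⟨isBit_ind _ _ _ _ _, fun y => add_nonneg (sgl_nn _ _) (sgl_nn _ _), fun y => ?_,
    by rw [sum_gcol]⟩
  simp only [mul3B hh, Pi.zero_apply, gcol,
    sgl_eq (z := t) (π := 1 - t) (c := 1) (by omega) (by simp),
    sgl_eq (z := t + (H : ZMod h)) (π := 1 - t) (c := H + 1) (by omega) (by push_cast; ring)]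
  have := ZMod.val_lt (y + (1 - t))
  generalize (y + (1 - t)).val = v at *
  simp only [pat, mem_insert, mem_singleton]
  split_ifs <;> omega

lemma sumBX (hh : h = 2 * H) (hw : H = 2 * w + 3) (π : ZMod h) :
    ∑ y, ind {0, 1, H + 1} (H + 3) 2 w π y = w + 3 := by
  rw [sum_ind _ (by omega) (by simp; omega) (by omega), card_insert_of_notMem (by simp),
    card_insert_of_notMem (by simp; omega)]
  simp; ring

lemma lvBY (hh : h = 2 * H) (hw : H = 2 * w + 3) (t : ZMod h) :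
    Lv 0 1 (H : ZMod h) (gcol H t) (ind ∅ 0 2 (w + 1) (H - 1 - t)) 0 := by
  refine ⟨isBit_ind _ _ _ _ _, fun _ => le_rfl, fun y => ?_, by simp⟩
  simp only [mul3B hh, Pi.zero_apply, gcol,
    sgl_eq (z := t) (π := (H : ZMod h) - 1 - t) (c := H - 1) (by omega) (by
      rw [Nat.cast_sub (by omega)]; push_cast; ring),
    sgl_eq (z := t + (H : ZMod h)) (π := (H : ZMod h) - 1 - t) (c := 2 * H - 1) (by omega) (by
      rw [Nat.cast_sub (by omega)]; push_cast; ring)]
  have := ZMod.val_lt (y + ((H : ZMod h) - 1 - t))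
  generalize (y + ((H : ZMod h) - 1 - t)).val = v at *
  simp only [pat, notMem_empty, false_or]
  split_ifs <;> omega

lemma sumBY (hh : h = 2 * H) (hw : H = 2 * w + 3) (π : ZMod h) :
    ∑ y, ind ∅ 0 2 (w + 1) π y = w + 1 := by
  rw [sum_ind _ (by omega) (by simp) (by omega)]; simp

omit [NeZero h] in
lemma beta_H (hw : H = 2 * w + 3) : (-2 : ZMod (2 ^ H + 1)) ^ H = 1 := by
  rw [Odd.neg_pow ⟨w + 1, by omega⟩, two_pow_m, neg_neg]

omit [NeZero h] in
lemma beta_h (hh : h = 2 * H) (hw : H = 2 * w + 3) : (-2 : ZMod (2 ^ H + 1)) ^ h = 1 := by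
  rw [hh, mul_comm, pow_mul, beta_H hw, one_pow]

omit [NeZero h] in
lemma beta_ord (hw : H = 2 * w + 3) {e : ℕ} (he : (-2 : ZMod (2 ^ H + 1)) ^ e = 1) : H ∣ e := by
  rw [pow_eq_pow_mod e (beta_H hw)] at he
  have h1 : e % H < H := Nat.mod_lt _ (by omega)
  have h2 : (((-2) ^ (e % H) - 1 : ℤ) : ZMod (2 ^ H + 1)) = 0 := by
    push_cast; linear_combination he
  rw [ZMod.intCast_zmod_eq_zero_iff_dvd] at h2
  have h3 : |(-2 : ℤ) ^ (e % H)| = 2 ^ (e % H) := by rw [abs_pow]; rfl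
  have h4 : (2 : ℤ) ^ (e % H) < 2 ^ H := pow_lt_pow_right₀ (by norm_num) h1
  have h5 := Int.eq_zero_of_abs_lt_dvd h2 (by
    push_cast
    have := abs_le.1 h3.le
    rw [abs_lt]; constructor <;> omega)
  have h6 : (2 : ℤ) ^ (e % H) = 1 := by rw [← h3, show (-2 : ℤ) ^ (e % H) = 1 by omega]; rfl
  refine Nat.dvd_of_mod_eq_zero ?_
  by_contra h7
  have := one_lt_pow₀ (by norm_num : (1 : ℤ) < 2) h7
  omega

omit [NeZero h] in
lemma three_term (hw : H = 2 * w + 3) {a b : ℕ}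
    (he : (-2 : ZMod (2 ^ H + 1)) ^ a + (-2) ^ b + 1 = 0) :
    (-2 : ZMod (2 ^ H + 1)) ^ a = 1 ∨ (-2 : ZMod (2 ^ H + 1)) ^ a = -2 ∨
      (-2 : ZMod (2 ^ H + 1)) ^ a * (-2) = 1 := by
  rw [pow_eq_pow_mod a (beta_H hw)] at he ⊢
  rw [pow_eq_pow_mod b (beta_H hw)] at he
  have h1 : a % H < H := Nat.mod_lt _ (by omega)
  have h1' : b % H < H := Nat.mod_lt _ (by omega)
  generalize a % H = x at *
  generalize b % H = y at *
  by_cases x0 : x = 0
  · left; simp [x0]
  by_cases x1 : x = 1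
  · right; left; simp [x1]
  by_cases x2 : x + 1 = H
  · right; right; rw [← pow_succ, x2, beta_H hw]
  exfalso
  have h2 : (((-2) ^ x + (-2) ^ y + 1 : ℤ) : ZMod (2 ^ H + 1)) = 0 := by
    push_cast; linear_combination he
  rw [ZMod.intCast_zmod_eq_zero_iff_dvd] at h2
  have h3 : |(-2 : ℤ) ^ x| ≤ 2 ^ (2 * w + 1) := by
    rw [abs_pow]; exact pow_le_pow_right₀ (by norm_num) (by omega)
  have h4 : |(-2 : ℤ) ^ y| ≤ 2 ^ (2 * w + 1 + 1) := by
    rw [abs_pow]; exact pow_le_pow_right₀ (by norm_num) (by omega)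
  have h5 := Int.eq_zero_of_abs_lt_dvd h2 (by
    push_cast
    rw [hw, show 2 * w + 3 = 2 * w + 1 + 1 + 1 by ring, pow_succ, pow_succ]
    rw [pow_succ] at h4
    have := abs_le.1 h3
    have := abs_le.1 h4
    have : (0 : ℤ) < 2 ^ (2 * w + 1) := by positivity
    rw [abs_lt]; constructor <;> omega)
  obtain ⟨x', rfl⟩ : ∃ x', x = x' + 2 := ⟨x - 2, by omega⟩
  rw [pow_add] at h5
  rcases y with _ | _ | y
  · omega
  · omega
  · rw [pow_succ, pow_succ] at h5; omega

lemma ev_sgl {R : Type} [CommRing R] (β : R) (z : ZMod h) : ev β (sgl z) = β ^ z.val :=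
  ev_single β z

lemma ev_gcol (hh : h = 2 * H) (hw : H = 2 * w + 3) (t : ZMod h) :
    ev (-2 : ZMod (2 ^ H + 1)) (gcol H t) = 2 * (-2) ^ t.val := by
  rw [show gcol H t = fun y => sgl t y + sgl (t + (H : ZMod h)) y from rfl, ev_add, ev_sgl, ev_sgl,
    pow_val_add (beta_h hh hw), m_val hh, beta_H hw]; ring

lemma ev_mul3 {R : Type} [CommRing R] {β : R} (hβ : β ^ h = 1) (p q r : ZMod h) (D : ZMod h → ℤ) :
    ev β (mul3 p q r D) = (β ^ p.val + β ^ q.val + β ^ r.val) * ev β D := by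
  rw [show mul3 p q r D = fun y => D (y - p) + D (y - q) + D (y - r) from rfl, ev_add, ev_add,
    ev_shift hβ, ev_shift hβ, ev_shift hβ]; ring

lemma evB (hh : h = 2 * H) (hw : H = 2 * w + 3) {k : ℕ} {σ : ZMod h}
    {a γ a' γ' : ℕ → ZMod h → ℤ} (hA : Alt k σ 0 1 H a γ a' γ') {c : ℕ} (hc : c < k) :
    2 * (ev (-2 : ZMod (2 ^ H + 1)) (γ' c) - ev (-2) (γ c))
      = ev (-2) (cin k σ γ' c) - ev (-2) (cin k σ γ c) := by
  have h1 := congrArg (ev (-2 : ZMod (2 ^ H + 1))) (funext (hA.diff hc))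
  rw [ev_sub, ev_mul, ev_sub, ev_sub, ev_mul3 (beta_h hh hw), m_val hh, val_one' (by omega),
    beta_H hw, ZMod.val_zero] at h1
  push_cast at h1
  linear_combination -h1

lemma ev_zero {R : Type} [CommRing R] (β : R) : ev β (0 : ZMod h → ℤ) = 0 := by simp [ev]

lemma evB_pos (hh : h = 2 * H) (hw : H = 2 * w + 3) {k : ℕ} {σ : ZMod h}
    {a γ a' γ' : ℕ → ZMod h → ℤ} (hA : Alt k σ 0 1 H a γ a' γ') {c : ℕ} (hc : c + 1 < k) :
    2 * (ev (-2 : ZMod (2 ^ H + 1)) (γ' (c + 1)) - ev (-2) (γ (c + 1)))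
      = ev (-2) (γ' c) - ev (-2) (γ c) := by
  rw [evB hh hw hA hc]
  rfl

lemma witB_two (hh : h = 2 * H) (hw : H = 2 * w + 3) {σ : ZMod h}
    (hs : (-2 : ZMod (2 ^ H + 1)) ^ σ.val ≠ 4) : Wit 2 σ 0 1 H := by
  have hB := blk2 (lvBX hh hw 0) (lvBY hh hw 0) (by
    simp only [sumBX hh hw, sumBY hh hw, sum_gcol]; omega)
  have key : ∀ {a} a' γ', Alt 2 σ 0 1 H a (fun c => [gcol H 0].getD c 0) a' γ' →
      2 * (ev (-2 : ZMod (2 ^ H + 1)) (γ' 0) - 2) = (-2) ^ σ.val * ev (-2) (γ' 1) ∧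
      2 * ev (-2 : ZMod (2 ^ H + 1)) (γ' 1) = ev (-2) (γ' 0) - 2 := by
    intro a a' γ' hA
    have e0 := evB hh hw hA (by omega : 0 < 2)
    have e1 := evB_pos hh hw hA (by omega : 0 + 1 < 2)
    rw [show cin 2 σ γ' 0 = fun y => γ' 1 (y - σ) from rfl, ev_shift (beta_h hh hw),
      show cin 2 σ (fun c => [gcol H 0].getD c 0) 0 = 0 from rfl] at e0
    simp only [List.getD_cons_zero, List.getD_cons_succ, List.getD_nil, ev_gcol hh hw, ev_zero,
      ZMod.val_zero, zero_add] at e0 e1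
    exact ⟨by linear_combination e0, by linear_combination e1⟩
  refine hB.wit (injB hh _) (hB.hole0 (by simp [oo, sumBX hh hw, sum_gcol]; omega))
    (fun _ => Or.inr ⟨by simp [sum_gcol, lb1], ?_⟩) (fun _ => Or.inr ⟨by simp [sum_gcol, lb2], ?_⟩)
  · intro a' γ' hA hp
    have p0 := hp 0 (by omega)
    simp [oo, sum_gcol, lb1] at p0
    obtain ⟨e0, e1⟩ := key a' γ' hA
    rw [show γ' 0 = 0 from funext (zero_of_sum (hA.nn 0) p0), ev_zero] at e0 e1
    apply hs
    apply two_unit (by omega)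
    linear_combination 2 * e0 + (-2) ^ σ.val * e1
  · intro a' γ' hA hp
    have p1 := hp 1 (by omega)
    simp [oo, lb2] at p1
    obtain ⟨z, hz⟩ := single_of_sum (hA.nn 1) p1
    obtain ⟨e0, e1⟩ := key a' γ' hA
    rw [hz, ev_sgl] at e0 e1
    apply hs
    have hu : IsUnit ((-2 : ZMod (2 ^ H + 1)) ^ z.val) :=
      IsUnit.pow _ (IsUnit.of_pow_eq_one (beta_H hw) (by omega))
    apply hu.mul_right_cancel
    linear_combination -e0 - 2 * e1

lemma witB_big (hh : h = 2 * H) (hw : H = 2 * w + 3) (h7 : 7 ≤ H) {k : ℕ} (hk : 4 ≤ k)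
    (he : k % 2 = 0) (σ : ZMod h) : Wit k σ 0 1 H := by
  have hR := blk2 (lvBX hh hw 0) (lvBY hh hw 0) (by
    simp only [sumBX hh hw, sumBY hh hw, sum_gcol]; omega)
  have hB := blk4 (lvBX hh hw 0) (lvBY hh hw 0) (lvBX hh hw 1) (lvBY hh hw 1) (by
    simp only [sumBX hh hw, sumBY hh hw, sum_gcol]; simp; omega)
  obtain ⟨t, rfl⟩ : ∃ t, k = 4 + 2 * t := ⟨(k - 4) / 2, by omega⟩
  obtain ⟨a2, γ2, b1, b2⟩ := hB.extend_many hR t
  have g0 : γ2 0 = gcol H 0 := (b2 0 (by omega)).2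
  have g1 : γ2 1 = 0 := (b2 1 (by omega)).2
  have g2 : γ2 2 = gcol H 1 := (b2 2 (by omega)).2
  have g3 : γ2 3 = 0 := (b2 3 (by omega)).2
  have no : ∀ e, 0 < e → e < 7 → (-2 : ZMod (2 ^ H + 1)) ^ e ≠ 1 := fun e e0 e1 h0 =>
    absurd (Nat.le_of_dvd e0 (beta_ord hw h0)) (by omega)
  have v1 : (1 : ZMod h).val = 1 := val_one' (by omega)
  refine b1.wit (injB hh _) (hole_ext hk b2
    (hB.hole0 (by simp [oo, sumBX hh hw, sum_gcol]; omega)))
    (fun _ => Or.inr ⟨by simp [sum_gcol, lb1], ?_⟩) (fun _ => Or.inr ⟨by simp [sum_gcol, lb2], ?_⟩)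
  · intro a' γ' hA hp
    have p0 := hp 0 (by omega)
    have p2 := hp 2 (by omega)
    simp [oo, g0, g2, sum_gcol, lb1] at p0 p2
    have e1 := evB_pos hh hw hA (by omega : 0 + 1 < _)
    have e2 := evB_pos hh hw hA (by omega : 1 + 1 < _)
    simp only [Nat.reduceAdd, g0, g1, g2, show γ' 0 = 0 from funext (zero_of_sum (hA.nn 0) p0),
      show γ' 2 = 0 from funext (zero_of_sum (hA.nn 2) p2), ev_zero, ev_gcol hh hw, v1,
      ZMod.val_zero] at e1 e2
    apply no 3 (by omega) (by omega)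
    apply two_unit (by omega)
    linear_combination -2 * e2 - e1
  · intro a' γ' hA hp
    have p0 := hp 0 (by omega)
    have p1 := hp 1 (by omega)
    have p2 := hp 2 (by omega)
    have p3 := hp 3 (by omega)
    simp [oo, g0, g1, g2, g3, sum_gcol, lb2] at p0 p1 p2 p3
    obtain ⟨r0, z0⟩ := single_of_sum (hA.nn 0) p0
    obtain ⟨s1, z1⟩ := single_of_sum (hA.nn 1) p1
    obtain ⟨r2, z2⟩ := single_of_sum (hA.nn 2) p2
    obtain ⟨s3, z3⟩ := single_of_sum (hA.nn 3) p3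
    have e1 := evB_pos hh hw hA (by omega : 0 + 1 < _)
    have e2 := evB_pos hh hw hA (by omega : 1 + 1 < _)
    have e3 := evB_pos hh hw hA (by omega : 2 + 1 < _)
    simp only [Nat.reduceAdd, g0, g1, g2, g3, z0, z1, z2, z3, ev_zero, ev_gcol hh hw, v1, ev_sgl,
      ZMod.val_zero] at e1 e2 e3
    have f : ∀ x : ZMod h, (-2 : ZMod (2 ^ H + 1)) ^ x.val = (-2) ^ (x - 1).val * (-2) := by
      intro x
      have := pow_val_add (beta_h hh hw) (x - 1) 1
      rwa [sub_add_cancel, v1, pow_one] at this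
    rw [f r0] at e1
    rw [f s3, f r2, f (r2 - 1)] at e3
    rw [f r2, f (r2 - 1)] at e2
    have t1 := three_term hw (a := s1.val) (b := (r0 - 1).val)
      (two_unit (by omega) (by linear_combination e1))
    have t3 := three_term hw (a := (s3 - 1).val) (b := (r2 - 1 - 1).val)
      (two_unit (by omega) (two_unit (by omega) (by linear_combination -e3)))
    have e4 : (-2 : ZMod (2 ^ H + 1)) ^ (s3 - 1).val * (-2) ^ 3 = (-2) ^ s1.val := by
      linear_combination 2 * e3 + e2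
    generalize (-2 : ZMod (2 ^ H + 1)) ^ (s3 - 1).val = Q at *
    generalize (-2 : ZMod (2 ^ H + 1)) ^ s1.val = P at *
    rcases t1 with t1 | t1 | t1 <;> rcases t3 with t3 | t3 | t3
    · exact no 3 (by omega) (by omega) (by linear_combination e4 + t1 - (-2) ^ 3 * t3)
    · exact no 4 (by omega) (by omega) (by linear_combination e4 + t1 - (-2) ^ 3 * t3)
    · exact no 2 (by omega) (by omega) (by linear_combination e4 + t1 - (-2) ^ 2 * t3)
    · exact no 2 (by omega) (by omega) (two_unit (by omega)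
        (by linear_combination -e4 - t1 + (-2) ^ 3 * t3))
    · exact no 3 (by omega) (by omega) (two_unit (by omega)
        (by linear_combination -e4 - t1 + (-2) ^ 3 * t3))
    · exact no 1 (by omega) (by omega) (two_unit (by omega)
        (by linear_combination -e4 - t1 + (-2) ^ 2 * t3))
    · exact no 4 (by omega) (by omega) (by linear_combination (-2) * e4 + t1 - (-2) ^ 4 * t3)
    · exact no 5 (by omega) (by omega) (by linear_combination (-2) * e4 + t1 - (-2) ^ 4 * t3)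
    · exact no 3 (by omega) (by omega) (by linear_combination (-2) * e4 + t1 - (-2) ^ 3 * t3)

omit [NeZero h] in
lemma unit_mul_H (hh : h = 2 * H) {u v : ZMod h} [NeZero h] (huv : v * u = 1) :
    u * (H : ZMod h) = H ∧ u.val % 2 = 1 := by
  have h1 : u.val % 2 = 1 := by
    have : IsUnit (u.val : ZMod h) := by
      rw [ZMod.natCast_zmod_val]; exact IsUnit.of_mul_eq_one_right v huv
    have h2 := (ZMod.isUnit_iff_coprime _ _).1 this
    have := Nat.coprime_two_right.1 (h2.coprime_dvd_right ⟨H, hh⟩)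
    exact Nat.odd_iff.1 this
  refine ⟨?_, h1⟩
  have h3 : u = ((2 * (u.val / 2) + 1 : ℕ) : ZMod h) := by
    rw [show 2 * (u.val / 2) + 1 = u.val by omega]; simp
  rw [h3]; push_cast
  linear_combination ((u.val / 2 : ℕ) : ZMod h) * mm_add hh

lemma resB_odd (hh : h = 2 * H) (hw : H = 2 * w + 3) {k : ℕ} (hk : k % 2 = 1) :
    All k (0 : ZMod h) 1 H := by
  intro u v huv
  refine ResN.of_coprime (by nlinarith [Nat.pos_of_ne_zero (show k ≠ 0 by omega)]) (dd_pos _ _ _) ?_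
  set g := Nat.gcd (2 ^ (h * k) - 1) (dd k (u * 0) (u * 1) (u * (H : ZMod h))) with hg
  have h1 : (2 : ZMod g) ^ (h * k) = 1 := by
    have := (ZMod.natCast_eq_zero_iff _ g).2 (Nat.gcd_dvd_left (2 ^ (h * k) - 1) _)
    rw [Nat.cast_sub Nat.one_le_two_pow] at this
    push_cast at this
    linear_combination this
  have h2 := (ZMod.natCast_eq_zero_iff _ g).2
    (Nat.gcd_dvd_right (2 ^ (h * k) - 1) (dd k (u * 0) (u * 1) (u * (H : ZMod h))))
  simp only [dd, mul_zero, ZMod.val_zero, mul_one, (unit_mul_H hh huv).1, m_val hh] at h2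
  push_cast at h2
  have u2 : IsUnit (2 : ZMod g) := IsUnit.of_pow_eq_one h1 (by
    have := NeZero.ne h
    exact Nat.mul_ne_zero this (by omega))
  have e1 : ((2 : ZMod g) ^ (k * H)) ^ 2 = 1 := by
    rw [← pow_mul, ← h1, hh]; congr 1; ring
  have e2 : (2 : ZMod g) ^ (k * u.val) = -2 := by
    apply (u2.pow (k * u.val)).mul_left_cancel
    linear_combination (2 ^ (k * u.val) + 1 - 2 ^ (k * H)) * h2 + e1
  have e3 : (2 : ZMod g) ^ (k * H) = 1 := by linear_combination h2 - e2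
  have e4 : ((2 : ZMod g) ^ (k * u.val)) ^ (k * H) = 1 := by
    rw [← pow_mul, mul_comm, pow_mul, e3, one_pow]
  rw [e2, Odd.neg_pow (Nat.odd_mul.2 ⟨Nat.odd_iff.2 hk, ⟨w + 1, by omega⟩⟩), e3] at e4
  have e5 : ((1 : ℕ) : ZMod g) = 0 := by
    apply u2.mul_left_cancel
    push_cast
    linear_combination -e4
  exact Nat.dvd_one.1 ((ZMod.natCast_eq_zero_iff _ g).1 e5)

lemma resB_two (hh : h = 2 * H) (hw : H = 2 * w + 3) : All 2 (0 : ZMod h) 1 H := by
  intro u v huv
  by_cases hs : (-2 : ZMod (2 ^ H + 1)) ^ v.val = 4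
  swap
  · exact resN_of_wit (by omega) ⟨h, by ring⟩ huv (witB_two hh hw hs)
  intro F _ _ _ _ _ _ _
  have h1 : (-2 : ZMod (2 ^ H + 1)) ^ (v * u).val = ((-2) ^ v.val) ^ u.val := by
    rw [ZMod.val_mul, ← pow_eq_pow_mod _ (beta_h hh hw), pow_mul]
  rw [huv, val_one' (by omega), hs, pow_one] at h1
  have ho := (unit_mul_H hh huv).2
  have h2 : H ∣ 2 * u.val - 1 := by
    apply beta_ord hw
    apply two_unit (by omega)
    have : (-2 : ZMod (2 ^ H + 1)) ^ (2 * u.val - 1) * (-2) = 4 ^ u.val := by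
      rw [← pow_succ, Nat.sub_add_cancel (by omega), pow_mul]; norm_num
    linear_combination h1 - this
  obtain ⟨c, hc⟩ := h2
  have hu := ZMod.val_lt u
  have hc4 : c < 4 := by
    by_contra h3
    have := Nat.mul_le_mul_left H (not_lt.1 h3)
    omega
  have hd : dd 2 (u * 0) (u * 1) (u * (H : ZMod h)) = 1 + 2 ^ (2 * u.val) + 2 ^ (2 * H) := by
    simp [dd, (unit_mul_H hh huv).1, m_val hh]
  rw [hd]
  refine ⟨(2 ^ H + 1) ^ 2, Or.inl ⟨H, by omega, ⟨w + 1, by omega⟩, rfl⟩, ?_⟩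
  have hc' : 2 * u.val = H + 1 ∨ 2 * u.val = 3 * H + 1 := by
    interval_cases c <;> omega
  rcases hc' with h3 | h3 <;> rw [h3]
  · refine ⟨0, ?_⟩
    rw [show 2 ^ 0 * (1 + 2 ^ (H + 1) + 2 ^ (2 * H)) = (2 ^ H + 1) ^ 2 by ring]
  · refine ⟨2 * H, ?_⟩
    rw [← ZMod.natCast_eq_natCast_iff]
    have e := two_pow_N (n := h * 2)
    rw [show h * 2 = 4 * H by omega] at e ⊢
    push_cast
    linear_combination (-(2 ^ (H + 1)) - 1) * e

end

end Pool.Agent.Lib.MP_0287c7_lc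
end

-- part Pool.Agent.Lib.MP_0287c7_lc.Cert
section

set_option autoImplicit false
open Finset

namespace Pool.Agent.Lib.MP_0287c7_lc

variable {h : ℕ} [NeZero h]

/-- levels from bit masks -/
def mA (h : ℕ) (As : List ℕ) (c : ℕ) : ZMod h → ℤ := bits h (As.getD c 0)

/-- carries from position lists -/
def mG (h : ℕ) (Gs : List (List ℕ)) (c : ℕ) (y : ZMod h) : ℤ := ((Gs.getD c []).count y.val : ℕ)

/-- block checker -/
def chkBlk (p q r : ZMod h) (zc : List ℕ) (l : ℕ) (h1 h2 : ℤ) (As : List ℕ) (Gs : List (List ℕ)) :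
    Bool :=
  decide (0 < l) &&
  (List.range l).all (fun c =>
    decide (∀ y, tau0 p q r (mA h As) (mG h Gs) c y = 0 ∨ tau0 p q r (mA h As) (mG h Gs) c y = 1) &&
    decide (oo (mG h Gs) c ≤ 2) && decide (∀ y : ZMod h, y.val ∈ zc → mA h As c y = 0)) &&
  decide (∀ y, mG h Gs (l - 1) y = 0) &&
  decide (0 ≤ ∑ c ∈ range l, (4 * oo (mA h As) c - 2 * oo (mG h Gs) c - h)) &&
  decide (h1 ≤ ∑ c ∈ range l, lb1 (oo (mG h Gs) c) c) &&
  decide (h2 ≤ ∑ c ∈ range l, lb2 (oo (mG h Gs) c) c)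

lemma chkBlk_sound {p q r : ZMod h} {zc : List ℕ} {l : ℕ} {h1 h2 : ℤ} {As : List ℕ}
    {Gs : List (List ℕ)} (hc : chkBlk p q r zc l h1 h2 As Gs = true) :
    Blk p q r (fun y => y.val ∈ zc) l h1 h2 (mA h As) (mG h Gs) := by
  simp only [chkBlk, Bool.and_eq_true, decide_eq_true_eq, List.all_eq_true, List.mem_range] at hc
  obtain ⟨⟨⟨⟨⟨c1, c2⟩, c3⟩, c4⟩, c5⟩, c6⟩ := hc
  exact ⟨c1, fun c => isBit_bits _, fun c y => by unfold mG; positivity,
    fun c hc => (c2 c hc).1.1, c3, fun c hc => (c2 c hc).1.2, fun c hc => (c2 c hc).2, c4, c5, c6⟩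

/-- hole checker -/
def chkHole (p q r : ZMod h) (l : ℕ) (As : List ℕ) (Gs : List (List ℕ)) : Bool :=
  (List.range l).any fun c => decide (∃ y, tau0 p q r (mA h As) (mG h Gs) c y = 0)

lemma chkHole_sound {p q r : ZMod h} {l : ℕ} {As : List ℕ} {Gs : List (List ℕ)}
    (hc : chkHole p q r l As Gs = true) : ∃ c < l, ∃ y, tau0 p q r (mA h As) (mG h Gs) c y = 0 := by
  simpa only [chkHole, List.any_eq_true, List.mem_range, decide_eq_true_eq] using hc

/-- head and repeated block -/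
def chkSeq (p q r : ZMod h) (zc : List ℕ) (l : ℕ) (As : List ℕ) (Gs : List (List ℕ))
    (Bs : List ℕ) (Ds : List (List ℕ)) : Bool :=
  chkBlk p q r zc l (if l % 2 = 0 then 1 else -99) (if l % 2 = 0 then 1 else -99) As Gs &&
  chkBlk p q r zc 2 (-99) (-99) Bs Ds && chkHole p q r l As Gs

lemma chkSeq_sound {p q r : ZMod h} {zc : List ℕ} {l : ℕ} {As Bs : List ℕ}
    {Gs Ds : List (List ℕ)} (hc : chkSeq p q r zc l As Gs Bs Ds = true)
    (hi : Inj p q r fun y => y.val ∈ zc) {k : ℕ} (hk : l ≤ k) (hpar : k % 2 = l % 2) (σ : ZMod h) :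
    Wit k σ p q r := by
  simp only [chkSeq, Bool.and_eq_true] at hc
  exact wit_head (chkBlk_sound hc.1.1) (chkBlk_sound hc.1.2) hi (chkHole_sound hc.2)
    (fun h0 => by simp [h0]) hk hpar σ

/-- independent set checker -/
def chkInd (p q r : ZMod h) (S : ℕ) : Bool :=
  decide (∀ y, mul3 p q r (bits h S) y = 0 ∨ mul3 p q r (bits h S) y = 1) &&
  decide ((h : ℤ) ≤ 4 * ∑ y, bits h S y)

lemma chkInd_sound {p q r : ZMod h} {S : ℕ} (hc : chkInd p q r S = true)
    (hi : Inj p q r fun _ => False) {k : ℕ} (hk : 0 < k) (σ : ZMod h) : Wit k σ p q r := by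
  simp only [chkInd, Bool.and_eq_true, decide_eq_true_eq] at hc
  exact wit_indep hk (isBit_bits S) hc.1 hc.2 hi (fun _ h => h.elim)

lemma conv_inv {p q r : ZMod h} {G D : ZMod h → ℤ} {L : ℤ}
    (hG : ∀ y, mul3 p q r G y = L * sgl 0 y) (y : ZMod h) :
    ∑ x, G (y - x) * mul3 p q r D x = L * D y := by
  have sh : ∀ t : ZMod h, ∑ x, G (y - x) * D (x - t) = ∑ x, G (y - x - t) * D x := by
    intro t
    rw [← sum_shift (fun x => G (y - x - t) * D x) t]
    refine sum_congr rfl fun x _ => ?_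
    congr 2; ring
  simp only [mul3, mul_add, sum_add_distrib, sh]
  rw [← sum_add_distrib, ← sum_add_distrib]
  have : ∀ x ∈ (univ : Finset (ZMod h)), G (y - x - p) * D x + G (y - x - q) * D x
      + G (y - x - r) * D x = if x = y then L * D y else 0 := by
    intro x _
    have := hG (y - x)
    simp only [mul3, sgl, sub_eq_zero] at this
    rw [← add_mul, ← add_mul, this]
    split_ifs with h1 h2 h2
    · rw [h2, mul_one]
    · exact absurd h1.symm h2
    · exact absurd h2.symm h1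
    · simp
  rw [sum_congr rfl this]; simp

/-- exact local solvability test -/
def okL (G : ZMod h → ℤ) (L : ℤ) (a gi go gi' go' : ZMod h → ℤ) : Bool :=
  decide (∀ y, ∑ x, G (y - x) * (2 * (go' x - go x) - (gi' x - gi x)) + L * a y = 0 ∨
    ∑ x, G (y - x) * (2 * (go' x - go x) - (gi' x - gi x)) + L * a y = L)

lemma okL_of_alt {p q r σ : ZMod h} {G : ZMod h → ℤ} {L : ℤ}
    (hG : ∀ y, mul3 p q r G y = L * sgl 0 y) {k : ℕ} {a γ a' γ' : ℕ → ZMod h → ℤ}
    (hA : Alt k σ p q r a γ a' γ') {c : ℕ} (hc : c + 1 < k) :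
    okL G L (a (c + 1)) (γ c) (γ (c + 1)) (γ' c) (γ' (c + 1)) = true := by
  simp only [okL, decide_eq_true_eq]
  intro y
  have h1 := conv_inv (D := fun y => a' (c + 1) y - a (c + 1) y) hG y
  simp only [hA.diff hc, cin, Nat.add_one_ne_zero, if_false, Nat.add_sub_cancel] at h1
  rw [h1]
  rcases hA.bit (c + 1) y with h2 | h2 <;> rw [h2]
  · left; ring
  · right; ring

/-- checker for the cases with ties in the carry profile -/
def chkExact (p q r : ZMod h) (Gl : List ℤ) (L : ℤ) (As : List ℕ) (Gs : List (List ℕ)) : Bool :=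
  let G : ZMod h → ℤ := fun y => Gl.getD y.val 0
  let a := mA h As
  let γ := mG h Gs
  chkBlk p q r [] 4 0 0 As Gs && chkBlk p q r [] 2 0 0 As Gs && chkHole p q r 4 As Gs &&
  decide (∀ y, mul3 p q r G y = L * sgl 0 y) &&
  decide (oo γ 0 = 2 ∧ oo γ 1 = 0 ∧ oo γ 2 = 2 ∧ oo γ 3 = 0) &&
  decide (∀ z z' : ZMod h, okL G L (a 1) (γ 0) (γ 1) 0 (fun y => sgl z y + sgl z' y) = true →
    okL G L (a 2) (γ 1) (γ 2) (fun y => sgl z y + sgl z' y) 0 = false) &&
  decide (∀ r0 s1 : ZMod h, okL G L (a 1) (γ 0) (γ 1) (sgl r0) (sgl s1) = true →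
    ∀ r2 : ZMod h, okL G L (a 2) (γ 1) (γ 2) (sgl s1) (sgl r2) = true →
    ∀ s3 : ZMod h, okL G L (a 3) (γ 2) (γ 3) (sgl r2) (sgl s3) = false)

lemma chkExact_sound {p q r : ZMod h} {Gl : List ℤ} {L : ℤ} {As : List ℕ} {Gs : List (List ℕ)}
    (hc : chkExact p q r Gl L As Gs = true) (hi : Inj p q r fun y => y.val ∈ ([] : List ℕ))
    {k : ℕ} (hk : 4 ≤ k) (σ : ZMod h) (he : k % 2 = 0) : Wit k σ p q r := by
  simp only [chkExact, Bool.and_eq_true, decide_eq_true_eq] at hc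
  obtain ⟨⟨⟨⟨⟨⟨c1, c2⟩, c3⟩, hG⟩, o0, o1, o2, o3⟩, t1⟩, t2⟩ := hc
  obtain ⟨t, rfl⟩ : ∃ t, k = 4 + 2 * t := ⟨(k - 4) / 2, by omega⟩
  obtain ⟨a2, γ2, b1, b2⟩ := (chkBlk_sound c1).extend_many (chkBlk_sound c2) t
  have q : ∀ c < 4, oo γ2 c = oo (mG h Gs) c := fun c hc => by simp only [oo, (b2 c hc).2]
  refine b1.wit hi (hole_ext hk b2 (chkHole_sound c3)) (fun _ => Or.inr ⟨rfl, ?_⟩)
    (fun _ => Or.inr ⟨rfl, ?_⟩)
  · intro a' γ' hA hp
    have p0 := hp 0 (by omega)
    have p1 := hp 1 (by omega)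
    have p2 := hp 2 (by omega)
    rw [q _ (by omega)] at p0 p1 p2
    simp [o0, o1, o2, lb1] at p0 p1 p2
    obtain ⟨z, z', hz⟩ := pair_of_sum (hA.nn 1) p1
    have e1 := okL_of_alt hG hA (by omega : 0 + 1 < _)
    have e2 := okL_of_alt hG hA (by omega : 1 + 1 < _)
    simp only [Nat.reduceAdd, show γ' 0 = 0 from funext (zero_of_sum (hA.nn 0) p0),
      show γ' 2 = 0 from funext (zero_of_sum (hA.nn 2) p2), hz, (b2 0 (by omega)).2,
      (b2 1 (by omega)).2, (b2 2 (by omega)).2, (b2 1 (by omega)).1, (b2 2 (by omega)).1] at e1 e2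
    rw [t1 z z' e1] at e2
    exact Bool.false_ne_true e2
  · intro a' γ' hA hp
    have p0 := hp 0 (by omega)
    have p1 := hp 1 (by omega)
    have p2 := hp 2 (by omega)
    have p3 := hp 3 (by omega)
    rw [q _ (by omega)] at p0 p1 p2 p3
    simp [o0, o1, o2, o3, lb2] at p0 p1 p2 p3
    obtain ⟨r0, z0⟩ := single_of_sum (hA.nn 0) p0
    obtain ⟨s1, z1⟩ := single_of_sum (hA.nn 1) p1
    obtain ⟨r2, z2⟩ := single_of_sum (hA.nn 2) p2
    obtain ⟨s3, z3⟩ := single_of_sum (hA.nn 3) p3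
    have e1 := okL_of_alt hG hA (by omega : 0 + 1 < _)
    have e2 := okL_of_alt hG hA (by omega : 1 + 1 < _)
    have e3 := okL_of_alt hG hA (by omega : 2 + 1 < _)
    simp only [Nat.reduceAdd, z0, z1, z2, z3, (b2 0 (by omega)).2,
      (b2 1 (by omega)).2, (b2 2 (by omega)).2, (b2 3 (by omega)).2, (b2 1 (by omega)).1,
      (b2 2 (by omega)).1, (b2 3 (by omega)).1] at e1 e2 e3
    rw [t2 r0 s1 e1 r2 e2 s3] at e3
    exact Bool.false_ne_true e3

end Pool.Agent.Lib.MP_0287c7_lc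
end
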