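import Pool.Agent.Lib.MP_0287c7_lc.Small

set_option autoImplicit false
open Finset

namespace Pool.Agent.Lib.MP_0287c7_lc

section
variable {h : ℕ} [NeZero h] {k : ℕ}

lemma lat_le (hk : 0 < k) (he : Even (h * k)) (h90 : 90 ≤ h) {p q r : ZMod h} (hg : Gen p q r)
    (hi : Inj p q r fun _ => False) (hne : r ≠ p) {a b : ℕ} (hab : a ≤ b) (h0 : 0 < b)
    (hb : b * b ≤ h) (hr : (a : ZMod h) * (q - p) + b * (r - p) = 0) : All k p q r := by
  obtain ⟨α, β, e⟩ := id hg
  rcases lattice h90 e hab h0 hb hr with ⟨ρ, f1, f2, f3⟩ | b | b | b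
  · refine All.of_wit hk he fun σ => wit_bohr hk ⟨-ρ, ?_, ?_, ?_⟩ hi
    · convert f1 using 1; ring
    · convert f2 using 1; ring
    · convert f3 using 1; ring
  · exact absurd (sub_eq_zero.1 b) hne
  · exact all_relB hk (by omega) hg hne b
  · exact (all_canon hk (allA (by omega) hk he) hg.swap23.swap12
      (by linear_combination b)).swap12.swap23

lemma lat_nat (hk : 0 < k) (he : Even (h * k)) (h90 : 90 ≤ h) {p q r : ZMod h} (hg : Gen p q r)
    (hi : Inj p q r fun _ => False) (h1 : q ≠ p) (h2 : r ≠ p) {a b : ℕ} (h0 : a ≠ 0 ∨ b ≠ 0)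
    (ha : a * a ≤ h) (hb : b * b ≤ h) (hr : (a : ZMod h) * (q - p) + b * (r - p) = 0) :
    All k p q r := by
  rcases le_total a b with hab | hab
  · exact lat_le hk he h90 hg hi h2 hab (by omega) hb hr
  · exact (lat_le hk he h90 hg.swap23 hi.swap23 h1 hab (by omega) ha
      (by linear_combination hr)).swap23

lemma lat_mix (hk : 0 < k) (he : Even (h * k)) (h90 : 90 ≤ h) {p q r : ZMod h} (hg : Gen p q r)
    (hi : Inj p q r fun _ => False) (h1 : q ≠ p) (h2 : r ≠ q) {a b : ℕ} (h0 : a ≠ 0 ∨ b ≠ 0)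
    (hab : b ≤ a) (ha : a * a ≤ h) (hr : (a : ZMod h) * (q - p) - b * (r - p) = 0) :
    All k p q r := by
  refine (lat_nat hk he h90 hg.swap12 hi.swap12 h1.symm h2 (a := a - b) (b := b) (by omega)
    ((Nat.mul_le_mul (by omega) (by omega)).trans ha) ((Nat.mul_le_mul hab hab).trans ha) ?_).swap12
  push_cast [hab]
  linear_combination -hr

lemma all_big (hk : 0 < k) (he : Even (h * k)) (h90 : 90 ≤ h) {p q r : ZMod h} (hg : Gen p q r)
    (hi : Inj p q r fun _ => False) (h1 : q ≠ p) (h2 : r ≠ p) (h3 : r ≠ q) : All k p q r := by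
  obtain ⟨a, b, h0, ha, hb, hr⟩ := short_rel (q - p) (r - p)
  have h0' : a.natAbs ≠ 0 ∨ b.natAbs ≠ 0 := by omega
  have key : (a.natAbs : ZMod h) * (q - p) + b.natAbs * (r - p) = 0 ∨
      (a.natAbs : ZMod h) * (q - p) - b.natAbs * (r - p) = 0 := by
    generalize a.natAbs = a' , b.natAbs = b', Int.natAbs_eq a = ea, Int.natAbs_eq b = eb
    rcases ea with rfl | rfl <;> rcases eb with rfl | rfl <;> push_cast at hr
    · exact Or.inl hr
    · exact Or.inr (by linear_combination hr)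
    · exact Or.inr (by linear_combination -hr)
    · exact Or.inl (by linear_combination -hr)
  rcases key with e | e
  · exact lat_nat hk he h90 hg hi h1 h2 h0' ha hb e
  rcases le_total b.natAbs a.natAbs with hab | hab
  · exact lat_mix hk he h90 hg hi h1 h3 h0' hab ha e
  · exact (lat_mix hk he h90 hg.swap23 hi.swap23 h2 h3.symm h0'.symm hab hb
      (by linear_combination -e)).swap23

theorem all_gen (hk : 0 < k) (he : Even (h * k)) (h3 : 3 ≤ h) {i j : ZMod h}
    (hg : Gen 0 i j) (hi : i ≠ 0) (hj : j ≠ 0) (hij : j ≠ i) : All k 0 i j := by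
  by_cases h90 : h < 90
  · exact all_small hk he h3 h90 hg hi hj hij
  by_cases ht : 3 ∣ h ∧ 3 ∣ i.val + j.val
  · exact all_tie hk he (by omega) hg ht.1 ht.2
  · exact all_big hk he (by omega) hg (inj_of_not_tie ht _) hi hj hij

end

theorem resN_three {n i j : ℕ} (hn : Even n) (hi : 0 < i) (hij : i < j) (hj : j < n) :
    ResN n (1 + 2 ^ i + 2 ^ j) := by
  set k := Nat.gcd (Nat.gcd i j) n with hk
  have hk0 : 0 < k := Nat.gcd_pos_of_pos_right _ (by omega)
  obtain ⟨h, hh⟩ : k ∣ n := Nat.gcd_dvd_right _ _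
  obtain ⟨i', hi'⟩ : k ∣ i := (Nat.gcd_dvd_left _ _).trans (Nat.gcd_dvd_left _ _)
  obtain ⟨j', hj'⟩ : k ∣ j := (Nat.gcd_dvd_left _ _).trans (Nat.gcd_dvd_right _ _)
  have a1 : 0 < i' := by rw [hi'] at hi; exact Nat.pos_of_mul_pos_left hi
  have a2 : i' < j' := by rw [hi', hj'] at hij; exact Nat.lt_of_mul_lt_mul_left hij
  have a3 : j' < h := by rw [hj', hh] at hj; exact Nat.lt_of_mul_lt_mul_left hj
  have : NeZero h := ⟨by omega⟩
  have v1 : (i' : ZMod h).val = i' := ZMod.val_cast_of_lt (by omega)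
  have v2 : (j' : ZMod h).val = j' := ZMod.val_cast_of_lt a3
  have hg : Gen (0 : ZMod h) i' j' := by
    have e1 := Nat.gcd_eq_gcd_ab (Nat.gcd i j) n
    have e2 := Nat.gcd_eq_gcd_ab i j
    rw [← hk] at e1
    generalize Nat.gcdA (Nat.gcd i j) n = s at e1
    generalize Nat.gcdB (Nat.gcd i j) n = t at e1
    rw [e2] at e1
    generalize Nat.gcdA i j = s' at e1
    generalize Nat.gcdB i j = t' at e1
    have e3 : (i' : ℤ) * (s' * s) + j' * (t' * s) + h * t = 1 := by
      apply mul_left_cancel₀ (show (k : ℤ) ≠ 0 by omega)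
      have b1 : (i : ℤ) = k * i' := by exact_mod_cast hi'
      have b2 : (j : ℤ) = k * j' := by exact_mod_cast hj'
      have b3 : (n : ℤ) = k * h := by exact_mod_cast hh
      rw [b1, b2, b3] at e1
      linear_combination -e1
    have := congrArg (Int.cast : ℤ → ZMod h) e3
    push_cast at this
    rw [ZMod.natCast_self] at this
    exact ⟨s' * s, t' * s, by linear_combination this⟩
  have := all_gen hk0 (by rwa [mul_comm, ← hh]) (by omega) hg
    (by rw [← ZMod.val_ne_zero]; omega) (by rw [← ZMod.val_ne_zero]; omega)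
    (fun e => by rw [e] at v2; omega) 1 1 (one_mul _)
  simp only [one_mul, dd, v1, v2, ZMod.val_zero, mul_zero, pow_zero] at this
  rwa [← hi', ← hj', mul_comm, ← hh] at this

lemma digit_step {d : ℕ} (hd : 0 < d) :
    (Nat.digits 2 d).sum = d % 2 + (Nat.digits 2 (d / 2)).sum := by
  rw [Nat.digits_def' (by norm_num) hd, List.sum_cons]

lemma digit_peel {d w : ℕ} (h : (Nat.digits 2 d).sum = w + 1) :
    ∃ a e : ℕ, d = 2 ^ a * (1 + 2 * e) ∧ (Nat.digits 2 e).sum = w := by
  induction d using Nat.strong_induction_on with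
  | _ d ih =>
    have hd : 0 < d := by
      rcases Nat.eq_zero_or_pos d with rfl | h1
      · simp at h
      · exact h1
    rw [digit_step hd] at h
    by_cases h2 : d % 2 = 1
    · exact ⟨0, d / 2, by omega, by omega⟩
    · obtain ⟨a, e, h3, h4⟩ := ih (d / 2) (by omega) (by omega)
      refine ⟨a + 1, e, ?_, h4⟩
      rw [pow_succ', mul_assoc, ← h3]; omega

lemma digit_zero {d : ℕ} (h : (Nat.digits 2 d).sum = 0) : d = 0 := by
  induction d using Nat.strong_induction_on with
  | _ d ih =>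
    by_contra hd
    rw [digit_step (by omega)] at h
    have := ih (d / 2) (by omega) (by omega)
    omega

theorem resN_cubic {n d : ℕ} (hn : Even n) (hd : d < 2 ^ n) (hw : (Nat.digits 2 d).sum = 3) :
    ResN n d := by
  obtain ⟨a, e, rfl, h1⟩ := digit_peel hw
  obtain ⟨b, f, rfl, h2⟩ := digit_peel h1
  obtain ⟨c, g, rfl, h3⟩ := digit_peel h2
  obtain rfl := digit_zero h3
  have e1 : 1 + 2 * (2 ^ b * (1 + 2 * (2 ^ c * (1 + 2 * 0)))) =
      1 + 2 ^ (b + 1) + 2 ^ (b + c + 2) := by ring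
  rw [e1] at hd ⊢
  have h4 : a + (b + c + 2) < n := by
    apply (Nat.pow_lt_pow_iff_right (a := 2) (by norm_num)).1
    rw [pow_add]
    exact lt_of_le_of_lt (Nat.mul_le_mul_left _ (Nat.le_add_left _ _)) hd
  refine (resN_three (i := b + 1) (j := b + c + 2) hn (by omega) (by omega) (by omega)).equiv (by positivity) (by positivity)
    (i := n - a) ?_
  rw [← mul_assoc, ← pow_add, Nat.sub_add_cancel (by omega)]
  have : 1 ≡ 2 ^ n [MOD 2 ^ n - 1] := (Nat.modEq_iff_dvd' Nat.one_le_two_pow).2 dvd_rfl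
  simpa using this.mul_right (1 + 2 ^ (b + 1) + 2 ^ (b + c + 2))

end Pool.Agent.Lib.MP_0287c7_lc
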