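import Pool.Agent.Lib.MP_0287c7_lc.Num

set_option autoImplicit false

namespace Pool.Agent.Lib.MP_0287c7_lc

lemma se_7_3 : chkSeq (0 : ZMod 7) 1 ((3 : ℕ) : ZMod 7) [] 8
    [35, 64, 35, 3, 64, 35, 70, 16] [[1], [], [1], [1], [], [1], [1, 2], []]
    [35, 64] [[1], []] = true := by
  decide +kernel

lemma so_10_3 : chkSeq (0 : ZMod 10) 1 ((3 : ℕ) : ZMod 10) [] 3
    [323, 616, 130] [[1, 9], [6, 9], []]
    [323, 136] [[1, 9], []] = true := by
  decide +kernel

lemma se_14_3 : chkSeq (0 : ZMod 14) 1 ((3 : ℕ) : ZMod 14) [] 4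
    [273, 273, 4515, 1092] [[], [], [1, 8], []]
    [4515, 1092] [[1, 8], []] = true := by
  decide +kernel

lemma so_14_3 : chkSeq (0 : ZMod 14) 1 ((3 : ℕ) : ZMod 14) [] 3
    [4515, 1091, 8328] [[1, 8], [1], []]
    [4515, 1092] [[1, 8], []] = true := by
  decide +kernel

lemma se_13_4 : chkSeq (0 : ZMod 13) 1 ((4 : ℕ) : ZMod 13) [] 4
    [133, 133, 1287, 4256] [[], [], [1, 2], []]
    [1287, 4256] [[1, 2], []] = true := by
  decide +kernel

lemma se_17_4 : chkSeq (0 : ZMod 17) 1 ((4 : ℕ) : ZMod 17) [] 4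
    [645, 645, 17031, 10320] [[], [], [1, 2], []]
    [17031, 10320] [[1, 2], []] = true := by
  decide +kernel

lemma se_18_4 : chkSeq (0 : ZMod 18) 1 ((4 : ℕ) : ZMod 18) [] 4
    [645, 41283, 206928, 20490] [[], [1], [17], []]
    [41283, 81960] [[1], []] = true := by
  decide +kernel

lemma so_18_4 : chkSeq (0 : ZMod 18) 1 ((4 : ℕ) : ZMod 18) [] 3
    [41283, 206928, 20490] [[1], [17], []]
    [41283, 81960] [[1], []] = true := by
  decide +kernel

lemma se_19_8 : chkSeq (0 : ZMod 19) 1 ((8 : ℕ) : ZMod 19) [] 4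
    [85, 69707, 76936, 340] [[], [1], [11], []]
    [82995, 174080] [[1, 5], []] = true := by
  decide +kernel

lemma se_25_4 : chkSeq (0 : ZMod 25) 1 ((4 : ℕ) : ZMod 25) [] 4
    [82565, 5284163, 26486864, 2622730] [[], [1], [24], []]
    [5284163, 10490920] [[1], []] = true := by
  decide +kernel

lemma se_25_10 : chkSeq (0 : ZMod 25) 1 ((10 : ℕ) : ZMod 25) [] 4
    [532645, 5325067, 11700744, 675905] [[], [1], [21], []]
    [9769011, 2139396] [[1, 5], []] = true := by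
  decide +kernel

lemma se_26_8 : chkSeq (0 : ZMod 26) 1 ((8 : ℕ) : ZMod 26) [] 4
    [163925, 2655315, 18137736, 10491200] [[], [1], [15], []]
    [19432531, 41964800] [[1, 6], []] = true := by
  decide +kernel

lemma so_26_8 : chkSeq (0 : ZMod 26) 1 ((8 : ℕ) : ZMod 26) [] 3
    [19432531, 36807952, 41963530] [[1, 6], [16, 21], []]
    [19432531, 41964800] [[1, 6], []] = true := by
  decide +kernel

lemma se_33_7 : chkSeq (0 : ZMod 33) 1 ((7 : ℕ) : ZMod 33) [] 4
    [37900309, 172118547, 6485480580, 1409582240] [[], [1], [32], []]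
    [1245859867, 4851239552] [[1, 4], []] = true := by
  decide +kernel

lemma se_37_11 : chkSeq (0 : ZMod 37) 1 ((11 : ℕ) : ZMod 37) [] 4
    [44302933, 2302968395, 80548628740, 5008001680] [[], [1], [31], []]
    [1252262491, 90732406784] [[1, 4], []] = true := by
  decide +kernel

lemma se_9_2 : chkSeq (0 : ZMod 9) 1 ((2 : ℕ) : ZMod 9) [1, 3, 8] 4
    [37, 37, 144, 144] [[2], [2], [], []]
    [37, 144] [[2], []] = true := by
  decide +kernel

lemma ex_10_3 : chkExact (0 : ZMod 10) 1 ((3 : ℕ) : ZMod 10) [14, -4, -13, -1, 5, 8, -7, 2, -10, 17] 33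
    [275, 68, 550, 136] [[1, 4], [], [2, 5], []] = true := by
  decide +kernel

lemma ex_6_3 : chkExact (0 : ZMod 6) 1 ((3 : ℕ) : ZMod 6) [2, -1, -4, 2, -1, 5] 9
    [19, 4, 13, 16] [[1, 4], [], [0, 3], []] = true := by
  decide +kernel

lemma ex_10_5 : chkExact (0 : ZMod 10) 1 ((5 : ℕ) : ZMod 10) [8, -4, 2, -1, -16, 8, -4, 2, -1, 17] 33
    [75, 20, 150, 40] [[1, 6], [], [2, 7], []] = true := by
  decide +kernel

lemma in_15_4 : chkInd (0 : ZMod 15) 1 ((4 : ℕ) : ZMod 15) 645 = true := by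
  decide +kernel

lemma in_20_4 : chkInd (0 : ZMod 20) 1 ((4 : ℕ) : ZMod 20) 17029 = true := by
  decide +kernel

lemma in_22_4 : chkInd (0 : ZMod 22) 1 ((4 : ℕ) : ZMod 22) 82565 = true := by
  decide +kernel

lemma in_27_4 : chkInd (0 : ZMod 27) 1 ((4 : ℕ) : ZMod 27) 2179717 = true := by
  decide +kernel

lemma in_29_4 : chkInd (0 : ZMod 29) 1 ((4 : ℕ) : ZMod 29) 10568325 = true := by
  decide +kernel

lemma in_30_7 : chkInd (0 : ZMod 30) 1 ((7 : ℕ) : ZMod 30) 134521893 = true := by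
  decide +kernel

lemma in_34_4 : chkInd (0 : ZMod 34) 1 ((4 : ℕ) : ZMod 34) 279003781 = true := by
  decide +kernel

lemma in_35_7 : chkInd (0 : ZMod 35) 1 ((7 : ℕ) : ZMod 35) 172118037 = true := by
  decide +kernel

lemma in_38_7 : chkInd (0 : ZMod 38) 1 ((7 : ℕ) : ZMod 38) 1245859861 = true := by
  decide +kernel

lemma in_41_4 : chkInd (0 : ZMod 41) 1 ((4 : ℕ) : ZMod 41) 35712483973 = true := by
  decide +kernel

lemma in_43_7 : chkInd (0 : ZMod 43) 1 ((7 : ℕ) : ZMod 43) 35605598229 = true := by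
  decide +kernel

lemma in_45_19 : chkInd (0 : ZMod 45) 1 ((19 : ℕ) : ZMod 45) 1241262494357 = true := by
  decide +kernel

lemma in_49_19 : chkInd (0 : ZMod 49) 1 ((19 : ℕ) : ZMod 49) 72843249472085 = true := by
  decide +kernel


end Pool.Agent.Lib.MP_0287c7_lc
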