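import Pool.Agent.Lib.MP_0287c7_lc.Crit


set_option autoImplicit false
open Classical Finset

namespace Pool.Agent.Lib.MP_0287c7_lc

variable {n m : ℕ} [NeZero n]

omit [NeZero n] in
lemma N_factor (h : n = 2 * m) : (2 ^ n - 1 : ℤ) = (2 ^ m - 1) * (2 ^ m + 1) := by
  rw [h]; ring

lemma ev_col (h : n = 2 * m) (f : ZMod n → ℤ) :
    (2 ^ n - 1 : ℤ) ∣ ev 2 (col m f) - (2 ^ m + 1) * ev 2 f := by
  have hN : ((2 ^ n - 1 : ℕ) : ℤ) = 2 ^ n - 1 := by
    rw [Nat.cast_sub Nat.one_le_two_pow]; simp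
  rw [← hN, ← ZMod.intCast_zmod_eq_zero_iff_dvd]
  have h2 : (2 : ZMod (2 ^ n - 1)) ^ n = 1 := by
    have : ((2 ^ n - 1 : ℕ) : ZMod (2 ^ n - 1)) = 0 := ZMod.natCast_self _
    rw [Nat.cast_sub Nat.one_le_two_pow] at this
    push_cast at this
    linear_combination this
  push_cast
  rw [ev_cast, ev_cast, show col m f = fun x => f x + f (x - m) from rfl, ev_add, ev_shift h2,
    m_val h]
  ring

/-- partition lemma -/
lemma partition (h : n = 2 * m) {a b : ZMod n → ℤ} (ha : IsBit a) (hb : IsBit b)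
    (hd : (2 ^ m - 1 : ℤ) ∣ ev 2 a + ev 2 b) (hw : ∑ x, a x + ∑ x, b x ≤ m)
    (h0 : ∃ x, a x = 1 ∨ b x = 1) : Valid m a b := by
  obtain ⟨γ, g0, g1⟩ := carry (fun x => col m a x + col m b x - 1) (by
    rw [ev_sub, ev_add, ev_one]
    have h1 := ev_col h a
    have h2 := ev_col h b
    have h3 : (2 ^ n - 1 : ℤ) ∣ (2 ^ m + 1) * (ev 2 a + ev 2 b) := by
      rw [N_factor h, mul_comm]; exact mul_dvd_mul_left _ hd
    have := dvd_sub (dvd_add (dvd_add h1 h2) h3) (dvd_refl _)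
    exact (congrArg _ (by ring)).mp this)
    (fun x => by
      have := col_nonneg (m := m) ha x
      have := col_nonneg (m := m) hb x
      omega)
    (by
      obtain ⟨x, hx⟩ := h0
      refine ⟨x, ?_⟩
      unfold col
      rcases ha x with h | h <;> rcases hb x with h | h <;> rcases ha (x - m) with h | h <;>
        rcases hb (x - m) with h | h <;> omega)
  have h1 : ∑ x, (col m a x + col m b x - 1 + γ (x - 1)) = ∑ x, 2 * γ x :=
    sum_congr rfl fun x _ => g1 x
  rw [sum_add_distrib, sum_sub_distrib, sum_add_distrib, sum_col, sum_col, sum_shift,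
    ← mul_sum] at h1
  simp only [sum_const, card_univ, ZMod.card, nsmul_eq_mul, mul_one] at h1
  have h2 : ∑ x, γ x = 0 := le_antisymm (by omega) (sum_nonneg fun x _ => g0 x)
  have h3 : ∀ x, γ x = 0 := fun x => (sum_eq_zero_iff_of_nonneg fun x _ => g0 x).1 h2 x (mem_univ _)
  refine ⟨ha, hb, fun x => ?_⟩
  have := g1 x
  rw [h3, h3] at this
  omega

lemma full_vector (h : n = 2 * m) {r : ZMod (2 ^ m + 1)} (hr : r ≠ 0) :
    ∃ f : ZMod n → ℤ, IsBit f ∧ (∀ x, col m f x = 1) ∧ ev 2 f = r := by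
  have hm : 0 < m := by have := NeZero.ne n; omega
  have h2 : (2 : ZMod (2 ^ m + 1)) * (-2 ^ (m - 1)) = 1 := by
    rw [mul_neg, ← pow_succ', Nat.sub_add_cancel hm, two_pow_m, neg_neg]
  set p := (r * (-2 ^ (m - 1)) - 1).val with hp
  have hp1 : (p : ZMod (2 ^ m + 1)) = r * (-2 ^ (m - 1)) - 1 := by simp [hp]
  have hp2 : p < 2 ^ m := by
    have h3 : p < 2 ^ m + 1 := ZMod.val_lt _
    rcases Nat.lt_succ_iff_lt_or_eq.1 h3 with h4 | h4
    · exact h4
    · exfalso
      rw [h4] at hp1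
      push_cast at hp1
      rw [two_pow_m] at hp1
      apply hr
      linear_combination (-2) * hp1 - r * h2
  set j := p + 2 ^ m * (2 ^ m - 1 - p) with hj
  have hq : 2 ≤ 2 ^ m := by
    calc 2 = 2 ^ 1 := rfl
      _ ≤ 2 ^ m := Nat.pow_le_pow_right (by norm_num) hm
  have hjz : (j : ℤ) = p + 2 ^ m * (2 ^ m - 1 - p) := by
    rw [hj]; push_cast [Nat.cast_sub (show p ≤ 2 ^ m - 1 by omega),
      Nat.cast_sub (show 1 ≤ 2 ^ m by omega)]; ring
  have hj2 : j < 2 ^ n := by
    have : 2 ^ m * (2 ^ m - 1 - p) ≤ 2 ^ m * (2 ^ m - 1) := Nat.mul_le_mul_left _ (by omega)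
    rw [Nat.mul_sub _ (2 ^ m) 1, mul_one] at this
    have h5 : 2 ^ n = 2 ^ m * 2 ^ m := by rw [h, two_mul, pow_add]
    have h6 : 2 ^ m ≤ 2 ^ m * 2 ^ m := Nat.le_mul_self _
    omega
  have hw : wt n j = m := by
    rw [show n = m + m by omega, hj, wt_append m m _ _ hp2, wt_compl m p hp2]
  have hv : Valid m (bits n j) (fun _ => 0) := by
    refine partition h (isBit_bits j) (fun _ => Or.inl rfl) ?_ ?_ ?_
    · rw [ev_bits hj2, hjz]
      exact ⟨2 ^ m - p, by simp [ev]; ring⟩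
    · rw [sum_bits, hw]; simp
    · by_contra h0
      push Not at h0
      have : ∑ x, bits n j x = 0 :=
        sum_eq_zero fun x _ => (isBit_bits j x).resolve_right (h0 x).1
      rw [sum_bits, hw] at this
      omega
  refine ⟨bits n j, isBit_bits j, fun x => by simpa [col] using hv.eq x, ?_⟩
  rw [← ev_cast, ev_bits hj2, hjz]
  push_cast
  rw [hp1, two_pow_m]
  linear_combination r * h2

lemma exists_valid (h : n = 2 * m) {δ : ZMod (2 ^ m + 1)} (h0 : δ ≠ 0) (h1 : δ ≠ 1)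
    (h2 : δ ≠ -1) : ∃ a b : ZMod n → ℤ, Valid m a b ∧ δ * ev 2 a + ev 2 b = 0 ∧
      ev (2 : ZMod (2 ^ m + 1)) b ≠ 0 := by
  have hm : 0 < m := by have := NeZero.ne n; omega
  obtain ⟨f, f1, f2, f3⟩ := full_vector h (r := 1 - δ) (fun h => h1 (by linear_combination -h))
  obtain ⟨g, g1, g2, g3⟩ := full_vector h (r := 1 + δ) (fun h => h2 (by linear_combination h))
  have e1 : ev (2 : ZMod (2 ^ m + 1)) (fun x => f x * g x) + ev 2 (fun x => f x * (1 - g x))
      = 1 - δ := by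
    rw [← ev_add, ← f3]; congr 1; funext x; ring
  have e2 : ev (2 : ZMod (2 ^ m + 1)) (fun x => f x * g x) - ev 2 (fun x => f x * (1 - g x))
      = 1 + δ := by
    rw [sub_eq_add_neg, ← evM_shift h, ← ev_add, ← g3]; congr 1; funext x
    have a1 := f2 x
    have a2 := g2 x
    unfold col at a1 a2
    rw [show f (x - m) = 1 - f x by omega, show g (x - m) = 1 - g x by omega]; ring
  have e3 : ev (2 : ZMod (2 ^ m + 1)) (fun x => f x * g x) = 1 :=
    two_unit hm (by linear_combination e1 + e2)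
  have e4 : ev (2 : ZMod (2 ^ m + 1)) (fun x => f x * (1 - g x)) = -δ :=
    two_unit hm (by linear_combination e1 - e2)
  refine ⟨fun x => f x * g x, fun x => f x * (1 - g x), ⟨fun x => ?_, fun x => ?_, fun x => ?_⟩,
    by rw [e3, e4]; ring, by rw [e4]; exact neg_ne_zero.2 h0⟩
  · rcases f1 x with h | h <;> rcases g1 x with h' | h' <;> simp [h, h']
  · rcases f1 x with h | h <;> rcases g1 x with h' | h' <;> simp [h, h']
  · have a1 := f2 x
    simp only [col] at a1 ⊢
    linear_combination a1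

variable {F : Type} [Field F] [CharP F 2] [Fintype F]

theorem niho_dvd (hF : Fintype.card F = 2 ^ n) (h : n = 2 * m) {a : F} (ha : a ≠ 0) {d : ℕ}
    (hd : 0 < d) (hb : Bent n d a) (hn : d ≡ 1 [MOD 2 ^ m - 1]) : 2 ^ m + 1 ∣ d := by
  have hm : 0 < m := by have := NeZero.ne n; omega
  have hn2 : 2 ≤ n := by omega
  have hq : 2 ≤ 2 ^ m := by
    calc 2 = 2 ^ 1 := rfl
      _ ≤ 2 ^ m := Nat.pow_le_pow_right (by norm_num) hm
  have hNf : 2 ^ n - 1 = (2 ^ m - 1) * (2 ^ m + 1) := by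
    zify [Nat.one_le_two_pow]
    exact N_factor h
  have hcop : Nat.Coprime (2 ^ m - 1) (2 ^ m + 1) := by
    rw [show 2 ^ m + 1 = 2 + (2 ^ m - 1) by omega, Nat.coprime_add_self_right,
      Nat.coprime_two_right]
    exact Nat.Even.sub_odd (by omega) (Nat.even_pow.2 ⟨even_two, hm.ne'⟩) odd_one
  by_contra hne
  set δ : ZMod (2 ^ m + 1) := (d : ZMod (2 ^ m + 1)) with hδ
  have h0 : δ ≠ 0 := fun h => hne ((ZMod.natCast_eq_zero_iff _ _).1 h)
  by_cases hu : δ = 1 ∨ δ = -1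
  · refine crit_coprime hF hn2 ha hd hb ?_
    rw [hNf]
    refine Nat.Coprime.mul_left ?_ ?_
    · exact (Nat.coprime_of_mul_modEq_one 1 (by simpa using hn)).symm
    · refine ((ZMod.isUnit_iff_coprime _ _).1 ?_).symm
      rw [← hδ]
      rcases hu with hu | hu <;> rw [hu]
      · exact isUnit_one
      · exact isUnit_one.neg
  push Not at hu
  have hm2 : 2 ≤ m := by
    by_contra h3
    have : m = 1 := by omega
    subst this
    have : ∀ ε : ZMod (2 ^ 1 + 1), ε ≠ 0 → ε ≠ 1 ∧ ε ≠ -1 → False := by decide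
    exact this δ h0 hu
  obtain ⟨β, ⟨a0, b0, hv, hr, hb0, rfl⟩, hmax⟩ := Int.exists_greatest_of_bdd
    (P := fun β => ∃ a b : ZMod n → ℤ, Valid m a b ∧ δ * ev 2 a + ev 2 b = 0 ∧
      ev (2 : ZMod (2 ^ m + 1)) b ≠ 0 ∧ ∑ x, b x = β)
    ⟨m, by
      rintro z ⟨a, b, hv, _, _, rfl⟩
      have := hv.sum h
      have h1 : 0 ≤ ∑ x, a x := sum_nonneg fun x _ => by rcases hv.ha x with h | h <;> omega
      omega⟩
    (by
      obtain ⟨a, b, h1, h2, h3⟩ := exists_valid h h0 hu.1 hu.2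
      exact ⟨_, a, b, h1, h2, h3, rfl⟩)
  obtain ⟨j0, hj0, rfl⟩ := exists_bits hv.ha
  obtain ⟨s, hs, rfl⟩ := exists_bits hv.hb
  have hsum := hv.sum h
  rw [sum_bits, sum_bits] at hsum
  have hlt : ∀ j < 2 ^ n, wt n j ≤ m → j < 2 ^ n - 1 := by
    intro j hj hw
    by_contra h3
    have : j = 2 ^ n - 1 := by omega
    rw [this, wt_top] at hw
    omega
  have hs0 : 0 < s := by
    by_contra h3
    have : s = 0 := by omega
    rw [ev_bits' _ hs, this] at hb0
    simp at hb0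
  have hmod : ∀ j : ℕ, (2 ^ m - 1 ∣ j * d + s ↔ (2 ^ m - 1 : ℤ) ∣ j + s) := by
    intro j
    have h4 : j * d + s ≡ j + s [MOD 2 ^ m - 1] := by
      have := (hn.mul_left j).add_right s
      rwa [mul_one] at this
    rw [h4.dvd_iff dvd_rfl, ← Int.natCast_dvd_natCast, Nat.cast_sub Nat.one_le_two_pow]
    simp
  have hmod' : ∀ j < 2 ^ n, (2 ^ m + 1 ∣ j * d + s ↔
      δ * ev 2 (bits n j) + ev 2 (bits n s) = 0) := by
    intro j hj
    rw [ev_bits' _ hj, ev_bits' _ hs, ← ZMod.natCast_eq_zero_iff, hδ]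
    push_cast
    rw [mul_comm]
  refine crit_unique hF hn2 ha hb hs0 (hlt s hs (by omega)) (hlt j0 hj0 (by omega)) ?_ ?_
    (by omega)
  · rw [hNf]
    refine hcop.mul_dvd_of_dvd_of_dvd ((hmod j0).2 ?_) ((hmod' j0 hj0).2 hr)
    have h1 := ev_col h (bits n j0)
    have h2 := ev_col h (bits n s)
    have h3 : ev (2 : ℤ) (col m (bits n j0)) + ev 2 (col m (bits n s)) = 2 ^ n - 1 := by
      rw [← ev_add, ← ev_one]; congr 1; funext x; exact hv.eq x
    rw [ev_bits hj0] at h1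
    rw [ev_bits hs] at h2
    have h4 : (2 ^ n - 1 : ℤ) ∣ (2 ^ m + 1) * (j0 + s) := by
      have := dvd_sub (dvd_refl _) (dvd_add h1 h2)
      exact (congrArg _ (by linear_combination -h3)).mp this
    rw [N_factor h, mul_comm] at h4
    exact (mul_dvd_mul_iff_left (by positivity)).1 h4
  · intro j hj hjd hw
    have hj' : j < 2 ^ n := by omega
    rw [hNf] at hjd
    have hv' : Valid m (bits n j) (bits n s) := by
      refine partition h (isBit_bits j) (isBit_bits s) ?_ ?_ ?_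
      · rw [ev_bits hj', ev_bits hs]
        exact (hmod j).1 ((dvd_mul_right _ _).trans hjd)
      · rw [sum_bits, sum_bits]; omega
      · by_contra h0
        push Not at h0
        apply hb0
        have : bits n s = fun _ => 0 := funext fun x => (isBit_bits s x).resolve_right (h0 x).2
        simp [this, ev]
    have := niho_unique h hm2 δ hv hr hb0
      (fun a' b' v r e => hmax _ ⟨a', b', v, r, e, rfl⟩) hv'
      ((hmod' j hj').1 ((dvd_mul_left _ _).trans hjd))
    have h5 := congrArg (ev (2 : ℤ)) this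
    rw [ev_bits hj', ev_bits hj0] at h5
    exact_mod_cast h5

end Pool.Agent.Lib.MP_0287c7_lc
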