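import Pool.Agent.Lib.MP_0287c7_lc.Crit

-- part Pool.Agent.Lib.MP_0287c7_lc.Bridge
section

set_option autoImplicit false
open Finset

namespace Pool.Agent.Lib.MP_0287c7_lc

variable {h : ℕ} [NeZero h]

/-- convolution with a three point tile -/
def mul3 (p q r : ZMod h) (a : ZMod h → ℤ) (y : ZMod h) : ℤ := a (y - p) + a (y - q) + a (y - r)

/-- incoming carry -/
def cin (k : ℕ) (σ : ZMod h) (γ : ℕ → ZMod h → ℤ) (c : ℕ) (y : ZMod h) : ℤ :=
  if c = 0 then γ (k - 1) (y - σ) else γ (c - 1) y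

/-- output digit -/
def tau (k : ℕ) (σ p q r : ZMod h) (a γ : ℕ → ZMod h → ℤ) (c : ℕ) (y : ZMod h) : ℤ :=
  mul3 p q r (a c) y + cin k σ γ c y - 2 * γ c y

/-- total mass -/
def tot (k : ℕ) (f : ℕ → ZMod h → ℤ) : ℤ := ∑ c ∈ range k, ∑ y, f c y

/-- admissible configuration -/
structure Cfg (k : ℕ) (σ p q r : ZMod h) (a γ : ℕ → ZMod h → ℤ) : Prop where
  bit : ∀ c, IsBit (a c)
  nn : ∀ c y, 0 ≤ γ c y
  tb : ∀ c < k, IsBit (tau k σ p q r a γ c)
  hole : ∃ c < k, ∃ y, tau k σ p q r a γ c y = 0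
  val : (h : ℤ) * k ≤ 4 * tot k a - 2 * tot k γ

/-- competing configuration -/
structure Alt (k : ℕ) (σ p q r : ZMod h) (a γ a' γ' : ℕ → ZMod h → ℤ) : Prop where
  bit : ∀ c, IsBit (a' c)
  nn : ∀ c y, 0 ≤ γ' c y
  eq : ∀ c < k, ∀ y, tau k σ p q r a' γ' c y = tau k σ p q r a γ c y
  le : tot k γ' ≤ tot k γ

/-- a witness against bentness -/
def Wit (k : ℕ) (σ p q r : ZMod h) : Prop :=
  ∃ a γ, Cfg k σ p q r a γ ∧ ∀ a' γ', Alt k σ p q r a γ a' γ' → ∀ c < k, a' c = a c

omit [NeZero h] in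
lemma tau_swap12 (k : ℕ) (σ p q r : ZMod h) : tau k σ p q r = tau k σ q p r := by
  funext a γ c y; simp only [tau, mul3]; ring

omit [NeZero h] in
lemma tau_swap23 (k : ℕ) (σ p q r : ZMod h) : tau k σ p q r = tau k σ p r q := by
  funext a γ c y; simp only [tau, mul3]; ring

omit [NeZero h] in
lemma tau_mul {u v : ZMod h} (huv : v * u = 1) (k : ℕ) (σ p q r : ZMod h)
    (a γ : ℕ → ZMod h → ℤ) (c : ℕ) (y : ZMod h) :
    tau k (u * σ) (u * p) (u * q) (u * r) (fun c y => a c (v * y)) (fun c y => γ c (v * y))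
      c y = tau k σ p q r a γ c (v * y) := by
  simp only [tau, mul3, cin, mul_sub, ← mul_assoc, huv, one_mul]

lemma tot_mul {u v : ZMod h} (huv : v * u = 1) (k : ℕ) (f : ℕ → ZMod h → ℤ) :
    tot k (fun c y => f c (v * y)) = tot k f := by
  refine sum_congr rfl fun c _ => ?_
  exact Equiv.sum_comp (Units.mulLeft ⟨v, u, huv, by rw [mul_comm, huv]⟩) (f c)

lemma Wit.mul {k : ℕ} {σ p q r : ZMod h} (hw : Wit k σ p q r) {u v : ZMod h} (huv : v * u = 1) :
    Wit k (u * σ) (u * p) (u * q) (u * r) := by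
  obtain ⟨a, γ, hc, hu⟩ := hw
  have hvu : u * v = 1 := by rw [mul_comm, huv]
  refine ⟨fun c y => a c (v * y), fun c y => γ c (v * y), ⟨fun c y => hc.bit c _,
    fun c y => hc.nn c _, fun c hk y => ?_, ?_, ?_⟩, fun a' γ' ha c hk => ?_⟩
  · rw [tau_mul huv]; exact hc.tb c hk _
  · obtain ⟨c, hk, y, hy⟩ := hc.hole
    exact ⟨c, hk, u * y, by rw [tau_mul huv, ← mul_assoc, huv, one_mul, hy]⟩
  · rw [tot_mul huv, tot_mul huv]; exact hc.val
  · have := hu (fun c y => a' c (u * y)) (fun c y => γ' c (u * y)) ⟨fun c y => ha.bit c _,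
      fun c y => ha.nn c _, fun c hk y => ?_, ?_⟩ c hk
    · funext y
      have h2 := congrFun this (v * y)
      simpa [← mul_assoc, hvu] using h2
    · have h1 := tau_mul hvu k (u * σ) (u * p) (u * q) (u * r) a' γ' c y
      simp only [← mul_assoc, huv, one_mul] at h1
      rw [h1, ha.eq c hk, tau_mul huv, ← mul_assoc, huv, one_mul]
    · have := ha.le
      rwa [tot_mul huv, ← tot_mul hvu k γ'] at this

/-- the exponent attached to a tile -/
def dd (k : ℕ) (p q r : ZMod h) : ℕ := 2 ^ (k * p.val) + 2 ^ (k * q.val) + 2 ^ (k * r.val)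

section
variable {n k : ℕ}

/-- position of a level and a column -/
def io (n k : ℕ) (c : ℕ) (y : ZMod h) : ZMod n := ((c + k * y.val : ℕ) : ZMod n)

omit [NeZero h] in
lemma kap_cast (hn : n = h * k) (i : ℕ) : ((k * (i : ZMod h).val : ℕ) : ZMod n) = k * i := by
  rw [ZMod.val_natCast, ← Nat.mul_mod_mul_left, mul_comm k h, ← hn, ZMod.natCast_mod]
  push_cast; rfl

lemma kap_add (hn : n = h * k) (y z : ZMod h) :
    ((k * (y + z).val : ℕ) : ZMod n) = (k * y.val : ℕ) + (k * z.val : ℕ) := by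
  have := kap_cast hn (y.val + z.val)
  push_cast at this ⊢
  simp only [ZMod.natCast_val, ZMod.cast_id', id] at this ⊢
  rw [this]; ring

lemma io_sub (hn : n = h * k) (c : ℕ) (y p : ZMod h) :
    io n k c (y - p) = io n k c y - (k * p.val : ℕ) := by
  have := kap_add hn (y - p) p
  rw [sub_add_cancel] at this
  unfold io
  rw [Nat.cast_add, Nat.cast_add, this]; ring

lemma io_pred (hn : n = h * k) (hk : 0 < k) (g : ZMod n → ℤ) (c : ℕ) (y : ZMod h) :
    cin k 1 (fun c y => g (io n k c y)) c y = g (io n k c y - 1) := by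
  simp only [cin]
  split_ifs with hc
  · subst hc
    rw [io_sub hn]
    have := kap_cast hn 1
    rw [Nat.cast_one] at this
    rw [this]
    unfold io
    congr 1
    push_cast [Nat.cast_sub hk]; ring
  · unfold io
    congr 1
    push_cast [Nat.cast_sub (Nat.pos_of_ne_zero hc)]; ring

lemma io_val (hn : n = h * k) {c : ℕ} (hc : c < k) (y : ZMod h) :
    (io n k c y).val = c + k * y.val := by
  apply ZMod.val_cast_of_lt
  have := ZMod.val_lt y
  rw [hn]; nlinarith

variable [NeZero n]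

omit [NeZero h] in
lemma io_surj (hn : n = h * k) (x : ZMod n) :
    io n k (x.val % k) ((x.val / k : ℕ) : ZMod h) = x := by
  unfold io
  have hk : 0 < k := by
    rcases Nat.eq_zero_or_pos k with h0 | h0
    · exact absurd (by rw [hn, h0, mul_zero]) (NeZero.ne n)
    · exact h0
  rw [ZMod.val_cast_of_lt, Nat.mod_add_div]
  · simp
  · rw [Nat.div_lt_iff_lt_mul hk, ← hn]; exact ZMod.val_lt x

lemma sum_io (hn : n = h * k) (g : ZMod n → ℤ) :
    tot k (fun c (y : ZMod h) => g (io n k c y)) = ∑ x, g x := by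
  have hk : 0 < k := by
    rcases Nat.eq_zero_or_pos k with h0 | h0
    · exact absurd (by rw [hn, h0, mul_zero]) (NeZero.ne n)
    · exact h0
  unfold tot
  rw [← sum_product']
  refine sum_nbij' (fun z => io n k z.1 z.2) (fun x => (x.val % k, ((x.val / k : ℕ) : ZMod h)))
    (fun _ _ => mem_univ _) (fun x _ => ?_) (fun z hz => ?_) (fun x _ => io_surj hn x)
    (fun _ _ => rfl)
  · simp [Nat.mod_lt _ hk]
  · have hc : z.1 < k := mem_range.1 (mem_product.1 hz).1
    simp only [io_val hn hc]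
    rw [Nat.add_mul_mod_self_left, Nat.mod_eq_of_lt hc, Nat.add_mul_div_left _ _ hk,
      Nat.div_eq_of_lt hc]
    simp

/-- flattening of a level function -/
def flat (n k : ℕ) (f : ℕ → ZMod h → ℤ) (x : ZMod n) : ℤ :=
  f (x.val % k) ((x.val / k : ℕ) : ZMod h)

omit [NeZero n] in
lemma flat_io (hn : n = h * k) (f : ℕ → ZMod h → ℤ) {c : ℕ} (hc : c < k) (y : ZMod h) :
    flat n k f (io n k c y) = f c y := by
  unfold flat
  rw [io_val hn hc, Nat.add_mul_mod_self_left, Nat.mod_eq_of_lt hc,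
    Nat.add_mul_div_left _ _ (by omega), Nat.div_eq_of_lt hc]
  simp

lemma sum_flat (hn : n = h * k) (f : ℕ → ZMod h → ℤ) : ∑ x, flat n k f x = tot k f := by
  rw [← sum_io hn]
  exact sum_congr rfl fun c hc => sum_congr rfl fun y _ => flat_io hn f (mem_range.1 hc) y

omit [NeZero n] in
lemma tau_io (hn : n = h * k) (hk : 0 < k) (p q r : ZMod h) (A G : ZMod n → ℤ) (c : ℕ) (y : ZMod h) :
    tau k 1 p q r (fun c y => A (io n k c y)) (fun c y => G (io n k c y)) c y
      = A (io n k c y - (k * p.val : ℕ)) + A (io n k c y - (k * q.val : ℕ))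
        + A (io n k c y - (k * r.val : ℕ)) + G (io n k c y - 1) - 2 * G (io n k c y) := by
  simp only [tau, mul3, io_sub hn, io_pred hn hk]

omit [NeZero n] [NeZero h] in
lemma tau_congr (hk : 0 < k) (σ p q r : ZMod h) {a γ a' γ' : ℕ → ZMod h → ℤ}
    (h1 : ∀ c < k, a c = a' c) (h2 : ∀ c < k, γ c = γ' c) {c : ℕ} (hc : c < k) :
    tau k σ p q r a γ c = tau k σ p q r a' γ' c := by
  funext y
  simp only [tau, cin, h1 c hc, h2 c hc, h2 (k - 1) (by omega), h2 (c - 1) (by omega)]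

omit [NeZero n] in
lemma two_pow_N : (2 : ZMod (2 ^ n - 1)) ^ n = 1 := by
  have : ((2 ^ n - 1 : ℕ) : ZMod (2 ^ n - 1)) = 0 := ZMod.natCast_self _
  rw [Nat.cast_sub Nat.one_le_two_pow] at this
  push_cast at this
  linear_combination this

omit [NeZero h] in
lemma ev_tile (p q r : ZMod h) (A S : ZMod n → ℤ) :
    ev (2 : ZMod (2 ^ n - 1)) (fun x : ZMod n => A (x - (k * p.val : ℕ)) + A (x - (k * q.val : ℕ))
      + A (x - (k * r.val : ℕ)) + S x - 1) = ev 2 A * (dd k p q r : ℕ) + ev 2 S := by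
  have h1 : ev (2 : ZMod (2 ^ n - 1)) (fun _ : ZMod n => 1) = 0 := by
    rw [← ev_cast, ev_one]; push_cast; rw [two_pow_N, sub_self]
  rw [ev_sub, ev_add, ev_add, ev_add, ev_shift two_pow_N, ev_shift two_pow_N, ev_shift two_pow_N,
    pow_val_cast two_pow_N, pow_val_cast two_pow_N, pow_val_cast two_pow_N, h1, dd]
  push_cast; ring

theorem Wit.not_bent {F : Type} [Field F] [CharP F 2] [Fintype F] (hn : n = h * k)
    (hF : Fintype.card F = 2 ^ n) (he : Even n) {p q r : ZMod h} (hw : Wit k 1 p q r) {b : F}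
    (hb0 : b ≠ 0) (hb : Bent n (dd k p q r) b) : False := by
  obtain ⟨a, γ, hc, hu⟩ := hw
  have hn0 := NeZero.ne n
  have hk : 0 < k := by
    rcases Nat.eq_zero_or_pos k with h0 | h0
    · exact absurd (by rw [hn, h0, mul_zero]) hn0
    · exact h0
  obtain ⟨m, hm⟩ := he
  set T : ZMod n → ℤ := flat n k (tau k 1 p q r a γ) with hT
  have hTb : IsBit T := fun x => hc.tb _ (Nat.mod_lt _ hk) _
  have hAb : IsBit (flat n k a) := fun x => hc.bit _ _
  have hSb : IsBit (fun x => 1 - T x) := fun x => by rcases hTb x with h | h <;> simp [h]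
  obtain ⟨j0, hj0, hA⟩ := exists_bits hAb
  obtain ⟨s, hs, hS⟩ := exists_bits hSb
  have hflat : ∀ x, flat n k a (x - (k * p.val : ℕ)) + flat n k a (x - (k * q.val : ℕ))
      + flat n k a (x - (k * r.val : ℕ)) + (1 - T x) - 1 + flat n k γ (x - 1) = 2 * flat n k γ x := by
    intro x
    have h1 := tau_io hn hk p q r (flat n k a) (flat n k γ) (x.val % k) ((x.val / k : ℕ) : ZMod h)
    rw [tau_congr hk 1 p q r (a' := a) (γ' := γ) (fun c hc => funext fun y => flat_io hn a hc y)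
      (fun c hc => funext fun y => flat_io hn γ hc y) (Nat.mod_lt _ hk), io_surj hn] at h1
    have h2 : T x = tau k 1 p q r a γ (x.val % k) ((x.val / k : ℕ) : ZMod h) := rfl
    omega
  have hsum : ∀ (A G : ZMod n → ℤ), (∀ x, A (x - (k * p.val : ℕ)) + A (x - (k * q.val : ℕ))
      + A (x - (k * r.val : ℕ)) + (1 - T x) - 1 + G (x - 1) = 2 * G x) →
      ∑ x, G x = 3 * ∑ x, A x + wt n s - n := by
    intro A G hx
    have h1 := sum_congr rfl fun x (_ : x ∈ (univ : Finset (ZMod n))) => hx x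
    rw [sum_add_distrib, sum_sub_distrib, sum_add_distrib, sum_add_distrib, sum_add_distrib,
      sum_shift, sum_shift, sum_shift, sum_shift, ← mul_sum, hS, sum_bits] at h1
    simp only [sum_const, card_univ, ZMod.card, nsmul_eq_mul, mul_one] at h1
    omega
  have h1 := hsum _ _ hflat
  have h2 := hc.val
  rw [← sum_flat hn, ← sum_flat hn, h1, hA, sum_bits] at h2
  have h3 : (h : ℤ) * k = n := by rw [hn]; push_cast; rfl
  obtain ⟨c0, hc0, y0, hy0⟩ := hc.hole
  have hx0 : bits n s (io n k c0 y0) = 1 := by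
    rw [← hS]; simp only [hT, flat_io hn _ hc0, hy0, sub_zero]
  have hs0 : 0 < s := by
    rcases Nat.eq_zero_or_pos s with h0 | h0
    · rw [h0] at hx0; simp [bits] at hx0
    · exact h0
  have hlt : ∀ j < 2 ^ n, wt n j ≤ m → j < 2 ^ n - 1 := by
    intro j hj hw
    by_contra h3
    have : j = 2 ^ n - 1 := by omega
    rw [this, wt_top] at hw
    omega
  have hdiv : ∀ j < 2 ^ n, (2 ^ n - 1 ∣ j * dd k p q r + s ↔ (2 ^ n - 1 : ℤ) ∣ ev 2
      (fun x : ZMod n => bits n j (x - (k * p.val : ℕ)) + bits n j (x - (k * q.val : ℕ))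
        + bits n j (x - (k * r.val : ℕ)) + (1 - T x) - 1)) := by
    intro j hj
    have hN : ((2 ^ n - 1 : ℕ) : ℤ) = 2 ^ n - 1 := by
      rw [Nat.cast_sub Nat.one_le_two_pow]; simp
    rw [← hN, ← ZMod.intCast_zmod_eq_zero_iff_dvd, ev_cast, ev_tile p q r _ (fun x => 1 - T x), hS,
      ev_bits' _ hj, ev_bits' _ hs, ← ZMod.natCast_eq_zero_iff]
    push_cast; rfl
  refine crit_unique hF (by omega) hb0 hb hs0 (hlt s hs (by omega)) (hlt j0 hj0 (by omega)) ?_ ?_
    (by omega)
  · rw [hdiv j0 hj0, ← hA]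
    have h4 : (fun x : ZMod n => flat n k a (x - (k * p.val : ℕ)) + flat n k a (x - (k * q.val : ℕ))
        + flat n k a (x - (k * r.val : ℕ)) + (1 - T x) - 1)
        = fun x => 2 * flat n k γ x - flat n k γ (x - 1) := by
      funext x; have := hflat x; omega
    have hN : ((2 ^ n - 1 : ℕ) : ℤ) = 2 ^ n - 1 := by
      rw [Nat.cast_sub Nat.one_le_two_pow]; simp
    have h5 : (1 : ZMod n).val = 1 := by
      have := ZMod.val_cast_of_lt (n := n) (a := 1) (by omega)
      simpa using this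
    rw [h4, ← hN, ← ZMod.intCast_zmod_eq_zero_iff_dvd, ev_cast, ev_sub, ev_mul,
      ev_shift two_pow_N, h5]
    push_cast; ring
  · intro j hj hjd hw
    have hj' : j < 2 ^ n := by omega
    obtain ⟨G, g0, g1⟩ := carry _ ((hdiv j hj').1 hjd) (fun x => by
      have b := isBit_bits (n := n) j
      rcases b (x - (k * p.val : ℕ)) with h | h <;> rcases b (x - (k * q.val : ℕ)) with h | h <;>
        rcases b (x - (k * r.val : ℕ)) with h | h <;> rcases hTb x with h | h <;> omega)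
      ⟨io n k c0 y0, by
        have b := isBit_bits (n := n) j
        have h6 := congrFun hS (io n k c0 y0)
        rcases b (io n k c0 y0 - (k * p.val : ℕ)) with h | h <;>
          rcases b (io n k c0 y0 - (k * q.val : ℕ)) with h | h <;>
          rcases b (io n k c0 y0 - (k * r.val : ℕ)) with h | h <;> omega⟩
    have h7 := hsum _ _ g1
    rw [sum_bits] at h7
    have h8 := hu (fun c y => bits n j (io n k c y)) (fun c y => G (io n k c y))
      ⟨fun c y => isBit_bits j _, fun c y => g0 _, fun c hc y => by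
        rw [tau_io hn hk]
        have h9 := g1 (io n k c y)
        rw [hT, flat_io hn _ hc] at h9
        omega, by
        rw [sum_io hn, ← sum_flat hn, h1, h7, hA, sum_bits]; omega⟩
    have h10 : bits n j = bits n j0 := by
      funext x
      rw [← hA, ← io_surj hn x, flat_io hn _ (Nat.mod_lt _ hk)]
      exact congrFun (h8 _ (Nat.mod_lt _ hk)) _
    have h5 := congrArg (ev (2 : ℤ)) h10
    rw [ev_bits hj', ev_bits hj0] at h5
    exact_mod_cast h5

end

end Pool.Agent.Lib.MP_0287c7_lc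
end

-- part Pool.Agent.Lib.MP_0287c7_lc.Seq
section

set_option autoImplicit false
open Finset

namespace Pool.Agent.Lib.MP_0287c7_lc

variable {h : ℕ} [NeZero h]

/-- injectivity of the tile convolution, relative to a set of columns -/
def Inj (p q r : ZMod h) (Zc : ZMod h → Prop) : Prop :=
  ∀ Δ : ZMod h → ℤ, (∀ y, mul3 p q r Δ y = 0) → (∀ y, Zc y → 0 ≤ Δ y) → ∀ y, Δ y = 0

lemma ker_facts {i j : ZMod h} {Δ : ZMod h → ℤ} (h0 : ∀ y, mul3 0 i j Δ y = 0) :
    (∀ y, Δ y + Δ (y - i) + Δ (y - i - i) = 0) ∧ ∀ y, Δ (y - j) = Δ (y - i - i) := by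
  simp only [mul3, sub_zero] at h0
  have sh : ∀ (s t u : ZMod h), ∑ y, Δ (y + s) * Δ (y + t) = ∑ y, Δ (y + s - u) * Δ (y + t - u) := by
    intro s t u
    rw [← sum_shift (fun y => Δ (y + s) * Δ (y + t)) u]
    refine sum_congr rfl fun y _ => ?_
    congr 2 <;> ring
  have e1 := sh i i i
  have e2 := sh j j j
  have e3 := sh 0 i i
  have e4 := sh 0 j j
  have e5 := sh i j (i + j)
  have e6 := sh 0 0 i
  have e7 := sh 0 0 j
  simp only [add_sub_cancel_right, add_zero, add_sub_add_left_eq_sub, add_sub_assoc, sub_add_cancel_left,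
    sub_add_cancel_right, ← sub_eq_add_neg, zero_sub] at e1 e2 e3 e4 e5 e6 e7
  have h1 : ∑ y, (Δ y + Δ (y + i) + Δ (y + j)) ^ 2 = ∑ y, (Δ y + Δ (y - i) + Δ (y - j)) ^ 2 := by
    have a1 : ∀ y, (Δ y + Δ (y + i) + Δ (y + j)) ^ 2 = Δ y * Δ y + Δ (y + i) * Δ (y + i)
        + Δ (y + j) * Δ (y + j) + 2 * (Δ y * Δ (y + i)) + 2 * (Δ y * Δ (y + j))
        + 2 * (Δ (y + i) * Δ (y + j)) := fun y => by ring
    have a2 : ∀ y, (Δ y + Δ (y - i) + Δ (y - j)) ^ 2 = Δ y * Δ y + Δ (y - i) * Δ (y - i)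
        + Δ (y - j) * Δ (y - j) + 2 * (Δ (y - i) * Δ y) + 2 * (Δ (y - j) * Δ y)
        + 2 * (Δ (y - j) * Δ (y - i)) := fun y => by ring
    simp only [a1, a2, sum_add_distrib, ← mul_sum]
    omega
  simp only [h0, ne_eq, OfNat.ofNat_ne_zero, not_false_eq_true, zero_pow, sum_const_zero] at h1
  have h2 : ∀ y, Δ y + Δ (y + i) + Δ (y + j) = 0 := fun y =>
    pow_eq_zero_iff (n := 2) (by norm_num) |>.1
      ((sum_eq_zero_iff_of_nonneg fun _ _ => sq_nonneg _).1 h1 y (mem_univ _))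
  have h3 : ∀ y, Δ y + Δ (y - i) + Δ (y - i - i) = 0 := by
    intro y
    have b1 := h0 (y - i + j)
    have b2 := h2 (y - i)
    have b3 := h2 (y - i - i)
    rw [add_sub_cancel_right, show y - i + j - i = y - i - i + j by ring] at b1
    rw [sub_add_cancel] at b2 b3
    omega
  exact ⟨h3, fun y => by have := h0 y; have := h3 y; omega⟩

lemma ker_mul {i j : ZMod h} {Δ : ZMod h → ℤ} (h0 : ∀ y, mul3 0 i j Δ y = 0) (α β : ℕ) (y : ZMod h) :
    Δ (y - (α * i + β * j)) = Δ (y - (((α + 2 * β) % 3 : ℕ) : ZMod h) * i) := by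
  obtain ⟨k1, k2⟩ := ker_facts h0
  have k3 : ∀ y, Δ (y - 3 * i) = Δ y := by
    intro y
    have := k1 y
    have := k1 (y - i)
    rw [show y - 3 * i = y - i - i - i by ring]; omega
  have k4 : ∀ (c : ℕ) y, Δ (y - 3 * c * i) = Δ y := by
    intro c
    induction c with
    | zero => simp
    | succ c ih =>
      intro y
      rw [← ih y, ← k3 (y - 3 * c * i)]; congr 1; push_cast; ring
  have k5 : ∀ (c : ℕ) y, Δ (y - c * j) = Δ (y - 2 * c * i) := by
    intro c
    induction c with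
    | zero => simp
    | succ c ih =>
      intro y
      have b1 := k2 (y - c * j)
      have b2 := ih (y - i - i)
      rw [show y - c * j - i - i = y - i - i - c * j by ring, b2] at b1
      push_cast
      rw [show y - (c + 1) * j = y - c * j - j by ring, b1]; congr 1; ring
  rw [← sub_sub, k5, ← k4 ((α + 2 * β) / 3) (y - (((α + 2 * β) % 3 : ℕ) : ZMod h) * i)]
  congr 1
  have : ((α + 2 * β : ℕ) : ZMod h) = ((3 * ((α + 2 * β) / 3) + (α + 2 * β) % 3 : ℕ) : ZMod h) := by
    rw [Nat.div_add_mod]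
  push_cast at this
  linear_combination (-i) * this

lemma inj_of_rel {i j : ZMod h} (α β : ℕ) (hr : α * i + β * j = 0) (h3 : (α + 2 * β) % 3 ≠ 0)
    (Zc : ZMod h → Prop) : Inj 0 i j Zc := by
  intro Δ h0 _ y
  obtain ⟨k1, _⟩ := ker_facts h0
  have k := ker_mul h0 α β
  simp only [hr, sub_zero] at k
  have h4 : (α + 2 * β) % 3 = 1 ∨ (α + 2 * β) % 3 = 2 := by omega
  rcases h4 with h4 | h4 <;> rw [h4] at k
  · have b1 := k y
    have b2 := k (y - i)
    have := k1 y
    simp only [Nat.cast_one, one_mul] at b1 b2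
    omega
  · have b1 := k y
    have b2 := k (y + i)
    have b3 := k1 y
    have b4 := k1 (y + i)
    rw [show y - ((2 : ℕ) : ZMod h) * i = y - i - i by push_cast; ring] at b1
    rw [show y + i - ((2 : ℕ) : ZMod h) * i = y - i by push_cast; ring] at b2
    rw [add_sub_cancel_right] at b4
    omega

lemma inj_of_not_tie {i j : ZMod h} (ht : ¬ (3 ∣ h ∧ 3 ∣ i.val + j.val)) (Zc : ZMod h → Prop) :
    Inj 0 i j Zc := by
  by_cases h3 : 3 ∣ h
  · have := ZMod.val_lt i
    refine inj_of_rel j.val (h - i.val) ?_ (by omega) Zc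
    rw [Nat.cast_sub this.le]; simp; ring
  · exact inj_of_rel h 0 (by simp) (by omega) Zc

lemma inj_of_cols {i j α β : ZMod h} (hg : α * i + β * j = 1) {Zc : ZMod h → Prop}
    (hz : ∀ y, ∃ z, ∃ t : ℕ, Zc z ∧ z = y - 3 * t) : Inj 0 i j Zc := by
  intro Δ h0 hz0
  have k1 : ∀ y, Δ (y - 3) = Δ y := by
    intro y
    have := ker_mul h0 (3 * α.val) (3 * β.val) y
    rw [show (3 * α.val + 2 * (3 * β.val)) % 3 = 0 by omega] at this
    push_cast at this
    simp only [ZMod.natCast_val, ZMod.cast_id', id, zero_mul, sub_zero] at this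
    rwa [show 3 * α * i + 3 * β * j = 3 by linear_combination 3 * hg] at this
  have k2 : ∀ (t : ℕ) y, Δ (y - 3 * t) = Δ y := by
    intro t
    induction t with
    | zero => simp
    | succ t ih => intro y; rw [← ih y, ← k1 (y - 3 * t)]; congr 1; push_cast; ring
  have k3 : ∀ y, 0 ≤ Δ y := by
    intro y
    obtain ⟨z, t, h1, rfl⟩ := hz y
    rw [← k2 t y]; exact hz0 _ h1
  intro y
  have := h0 y
  simp only [mul3, sub_zero] at this
  have := k3 y
  have := k3 (y - i)
  have := k3 (y - j)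
  omega

omit [NeZero h] in
lemma Inj.shift {p q r : ZMod h} {Zc : ZMod h → Prop} (hi : Inj p q r Zc) (t : ZMod h) :
    Inj (p + t) (q + t) (r + t) Zc := by
  intro Δ h0
  refine hi Δ fun y => ?_
  have := h0 (y + t)
  simpa [mul3] using this

omit [NeZero h] in
lemma Inj.swap12 {p q r : ZMod h} {Zc : ZMod h → Prop} (hi : Inj p q r Zc) : Inj q p r Zc :=
  fun Δ h0 => hi Δ fun y => by have := h0 y; simp only [mul3] at this ⊢; omega

omit [NeZero h] in
lemma Inj.swap23 {p q r : ZMod h} {Zc : ZMod h → Prop} (hi : Inj p q r Zc) : Inj p r q Zc :=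
  fun Δ h0 => hi Δ fun y => by have := h0 y; simp only [mul3] at this ⊢; omega

variable {k : ℕ} {σ p q r : ZMod h} {a γ a' γ' : ℕ → ZMod h → ℤ}

/-- uniqueness once the last carries vanish -/
lemma cut (hb : ∀ c, IsBit (a c)) (hA : Alt k σ p q r a γ a' γ') (h1 : ∀ y, γ (k - 1) y = 0)
    (h2 : ∀ y, γ' (k - 1) y = 0) {Zc : ZMod h → Prop} (hi : Inj p q r Zc)
    (hz : ∀ c < k, ∀ y, Zc y → a c y = 0) : ∀ c < k, a' c = a c := by
  have key : ∀ l, l < k → ∀ y, ∑ c ∈ range (l + 1), mul3 p q r (fun y => a' c y - a c y) y * 2 ^ c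
      = (γ' l y - γ l y) * 2 ^ (l + 1) := by
    intro l
    induction l with
    | zero =>
      intro hl y
      have := hA.eq 0 hl y
      simp only [tau, cin, if_true, h1, h2, mul3] at this
      simp only [mul3, zero_add, range_one, sum_singleton]
      omega
    | succ l ih =>
      intro hl y
      have := hA.eq (l + 1) hl y
      simp only [tau, cin, Nat.add_one_ne_zero, if_false, mul3, Nat.add_sub_cancel] at this
      rw [sum_range_succ, ih (by omega)]
      simp only [mul3]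
      linear_combination 2 ^ (l + 1) * this
  intro c hc
  have h3 := hi (fun y => ∑ c ∈ range k, (a' c y - a c y) * 2 ^ c) (fun y => by
    have := key (k - 1) (by omega) y
    rw [h1, h2, Nat.sub_add_cancel (by omega)] at this
    simp only [mul3, add_mul, sum_add_distrib] at this ⊢
    omega) (fun y hy => sum_nonneg fun c hc => by
      rw [hz c (mem_range.1 hc) y hy]
      rcases hA.bit c y with h | h <;> simp [h])
  funext y
  have := signed_zero (fun c => a' c y - a c y) (fun c => by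
    rcases hA.bit c y with h | h <;> rcases hb c y with h' | h' <;> simp [h, h']) k (h3 y) c hc
  omega

/-- carry mass of a level -/
def oo (γ : ℕ → ZMod h → ℤ) (c : ℕ) : ℤ := ∑ y, γ c y

/-- first lower bound -/
def lb1 (o : ℤ) (c : ℕ) : ℤ :=
  if c % 2 = 0 then (if o = 2 then -2 else 1) else (if o = 0 then 2 else -1)

/-- second lower bound -/
def lb2 (o : ℤ) (c : ℕ) : ℤ :=
  if c % 2 = 0 then (if o = 0 then 2 else -1) else (if o = 2 then -2 else 1)

lemma sum_tau (k : ℕ) (σ p q r : ZMod h) (a γ : ℕ → ZMod h → ℤ) (c : ℕ) :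
    ∑ y, tau k σ p q r a γ c y
      = 3 * oo a c + oo γ (if c = 0 then k - 1 else c - 1) - 2 * oo γ c := by
  simp only [tau, mul3, cin, sum_sub_distrib, sum_add_distrib, sum_shift, ← mul_sum, oo]
  split_ifs
  · rw [sum_shift]; ring
  · ring

lemma eq_of_sum_le {k : ℕ} {f g : ℕ → ℤ} (h1 : ∀ c < k, f c ≤ g c)
    (h2 : ∑ c ∈ range k, g c ≤ ∑ c ∈ range k, f c) : ∀ c < k, g c = f c := by
  intro c hc
  by_contra hne
  have := sum_lt_sum (s := range k) (fun c hc => h1 c (mem_range.1 hc))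
    ⟨c, mem_range.2 hc, lt_of_le_of_ne (h1 c hc) (Ne.symm hne)⟩
  omega

lemma profile (hk : 0 < k) (hn : ∀ c y, 0 ≤ γ c y) (ho : ∀ c < k, oo γ c ≤ 2)
    (hA : Alt k σ p q r a γ a' γ') :
    (∀ c < k, oo γ' c = oo γ c) ∨ (k % 2 = 0 ∧
      ((∑ c ∈ range k, lb1 (oo γ c) c ≤ 0 ∧ (0 ≤ ∑ c ∈ range k, lb1 (oo γ c) c →
        ∀ c < k, oo γ' c = oo γ c + lb1 (oo γ c) c)) ∨
      (∑ c ∈ range k, lb2 (oo γ c) c ≤ 0 ∧ (0 ≤ ∑ c ∈ range k, lb2 (oo γ c) c →
        ∀ c < k, oo γ' c = oo γ c + lb2 (oo γ c) c)))) := by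
  have hs : ∀ c < k, 3 * oo a' c + oo γ' (if c = 0 then k - 1 else c - 1) - 2 * oo γ' c
      = 3 * oo a c + oo γ (if c = 0 then k - 1 else c - 1) - 2 * oo γ c := by
    intro c hc
    rw [← sum_tau k σ p q r, ← sum_tau k σ p q r]
    exact sum_congr rfl fun y _ => hA.eq c hc y
  have n1 : ∀ c, 0 ≤ oo γ c := fun c => sum_nonneg fun y _ => hn c y
  have n2 : ∀ c, 0 ≤ oo γ' c := fun c => sum_nonneg fun y _ => hA.nn c y
  have hle : ∑ c ∈ range k, oo γ' c ≤ ∑ c ∈ range k, oo γ c := hA.le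
  have hm : ∀ c < k, (oo γ' c - oo γ c) % 3
      = (if c % 2 = 0 then oo γ' 0 - oo γ 0 else -(oo γ' 0 - oo γ 0)) % 3 := by
    intro c
    induction c with
    | zero => simp
    | succ c ih =>
      intro hc
      have b1 := ih (by omega)
      have b2 := hs (c + 1) hc
      simp only [Nat.add_one_ne_zero, if_false, Nat.add_sub_cancel] at b2
      split_ifs at b1 ⊢ <;> omega
  have hw := hs 0 hk
  have hl := hm (k - 1) (by omega)
  simp only [if_true] at hw
  have h3 : (oo γ' 0 - oo γ 0) % 3 = 0 ∨ (oo γ' 0 - oo γ 0) % 3 = 1 ∨ (oo γ' 0 - oo γ 0) % 3 = 2 := by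
    omega
  rcases h3 with h3 | h3 | h3
  · left
    refine eq_of_sum_le (fun c hc => ?_) hle
    have := hm c hc
    have := ho c hc
    have := n2 c
    split_ifs at * <;> omega
  · right
    refine ⟨by split_ifs at hl <;> omega, Or.inl ?_⟩
    have b : ∀ c < k, oo γ c + lb1 (oo γ c) c ≤ oo γ' c := by
      intro c hc
      have := hm c hc
      have := ho c hc
      have := n1 c
      have := n2 c
      unfold lb1
      split_ifs at * <;> omega
    have b2 := sum_le_sum (s := range k) fun c hc => b c (mem_range.1 hc)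
    rw [sum_add_distrib] at b2
    refine ⟨by omega, fun h0 => eq_of_sum_le b ?_⟩
    rw [sum_add_distrib]; omega
  · right
    refine ⟨by split_ifs at hl <;> omega, Or.inr ?_⟩
    have b : ∀ c < k, oo γ c + lb2 (oo γ c) c ≤ oo γ' c := by
      intro c hc
      have := hm c hc
      have := ho c hc
      have := n1 c
      have := n2 c
      unfold lb2
      split_ifs at * <;> omega
    have b2 := sum_le_sum (s := range k) fun c hc => b c (mem_range.1 hc)
    rw [sum_add_distrib] at b2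
    refine ⟨by omega, fun h0 => eq_of_sum_le b ?_⟩
    rw [sum_add_distrib]; omega

lemma zero_of_sum {f : ZMod h → ℤ} (hn : ∀ y, 0 ≤ f y) (h0 : ∑ y, f y = 0) (y : ZMod h) : f y = 0 :=
  (sum_eq_zero_iff_of_nonneg fun y _ => hn y).1 h0 y (mem_univ _)

/-- a point mass -/
def sgl (z y : ZMod h) : ℤ := if y = z then 1 else 0

lemma sum_sgl (z : ZMod h) : ∑ y, sgl z y = 1 := by simp [sgl]

omit [NeZero h] in
lemma sgl_nn (z y : ZMod h) : 0 ≤ sgl z y := by unfold sgl; split_ifs <;> omega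

lemma peel {f : ZMod h → ℤ} (hn : ∀ y, 0 ≤ f y) (h0 : 0 < ∑ y, f y) :
    ∃ z, ∀ y, 0 ≤ f y - sgl z y := by
  obtain ⟨z, hz⟩ : ∃ z, f z ≠ 0 := by
    by_contra h1
    push Not at h1
    simp [h1] at h0
  refine ⟨z, fun y => ?_⟩
  have := hn y
  unfold sgl
  split_ifs with h1
  · subst h1; omega
  · omega

lemma single_of_sum {f : ZMod h → ℤ} (hn : ∀ y, 0 ≤ f y) (h0 : ∑ y, f y = 1) :
    ∃ z, f = sgl z := by
  obtain ⟨z, hz⟩ := peel hn (by omega)
  refine ⟨z, funext fun y => ?_⟩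
  have := zero_of_sum hz (by rw [sum_sub_distrib, sum_sgl]; omega) y
  omega

lemma pair_of_sum {f : ZMod h → ℤ} (hn : ∀ y, 0 ≤ f y) (h0 : ∑ y, f y = 2) :
    ∃ z z', f = fun y => sgl z y + sgl z' y := by
  obtain ⟨z, hz⟩ := peel hn (by omega)
  obtain ⟨z', hz'⟩ := single_of_sum hz (by rw [sum_sub_distrib, sum_sgl]; omega)
  refine ⟨z, z', funext fun y => ?_⟩
  have := congrFun hz' y
  omega

/-- carry-free witnesses -/
lemma wit_free (hk : 0 < k) {S : ZMod h → ℤ} (hb : IsBit S) (ht : IsBit (mul3 p q r S))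
    (hh : ∃ y, mul3 p q r S y = 0) (hv : (h : ℤ) ≤ 4 * ∑ y, S y) {Zc : ZMod h → Prop}
    (hi : Inj p q r Zc) (hz : ∀ y, Zc y → S y = 0) : Wit k σ p q r := by
  have e : ∀ c, tau k σ p q r (fun _ => S) (fun _ _ => 0) c = mul3 p q r S := by
    intro c; funext y; simp [tau, cin]
  refine ⟨fun _ => S, fun _ _ => 0, ⟨fun _ => hb, fun _ _ => le_rfl, fun c _ => by rw [e]; exact ht,
    ⟨0, hk, by rw [e]; exact hh⟩, ?_⟩, fun a' γ' hA => ?_⟩
  · simp only [tot, sum_const, card_range, nsmul_eq_mul, smul_zero, mul_zero, sub_zero]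
    nlinarith
  · refine cut (fun _ => hb) hA (fun _ => rfl) (fun y => ?_) hi (fun _ _ => hz)
    have h1 := hA.le
    simp only [tot, sum_const_zero] at h1
    have h2 := (sum_eq_zero_iff_of_nonneg fun c _ => sum_nonneg fun y _ => hA.nn c y).1
      (le_antisymm h1 (sum_nonneg fun c _ => sum_nonneg fun y _ => hA.nn c y)) (k - 1)
      (mem_range.2 (by omega))
    exact zero_of_sum (hA.nn _) h2 y

/-- output digit of a block started without carry -/
def tau0 (p q r : ZMod h) (a γ : ℕ → ZMod h → ℤ) (c : ℕ) (y : ZMod h) : ℤ :=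
  mul3 p q r (a c) y + (if c = 0 then 0 else γ (c - 1) y) - 2 * γ c y

/-- a block of levels from zero carry to zero carry -/
structure Blk (p q r : ZMod h) (Zc : ZMod h → Prop) (l : ℕ) (h1 h2 : ℤ)
    (a γ : ℕ → ZMod h → ℤ) : Prop where
  pos : 0 < l
  bit : ∀ c, IsBit (a c)
  nn : ∀ c y, 0 ≤ γ c y
  tb : ∀ c < l, IsBit (tau0 p q r a γ c)
  last : ∀ y, γ (l - 1) y = 0
  o2 : ∀ c < l, oo γ c ≤ 2
  zc : ∀ c < l, ∀ y, Zc y → a c y = 0
  val : 0 ≤ ∑ c ∈ range l, (4 * oo a c - 2 * oo γ c - h)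
  s1 : h1 ≤ ∑ c ∈ range l, lb1 (oo γ c) c
  s2 : h2 ≤ ∑ c ∈ range l, lb2 (oo γ c) c

lemma Blk.extend {Zc : ZMod h → Prop} {l : ℕ} {h1 h2 e1 e2 : ℤ} {b δ : ℕ → ZMod h → ℤ}
    (hB : Blk p q r Zc l h1 h2 a γ) (hR : Blk p q r Zc 2 e1 e2 b δ) :
    ∃ a2 γ2, Blk p q r Zc (l + 2) h1 h2 a2 γ2 ∧ ∀ c < l, a2 c = a c ∧ γ2 c = γ c := by
  have hl := hB.pos
  have o1 : oo δ 1 = 0 := sum_eq_zero fun y _ => hR.last y
  have o0 := hR.o2 0 (by omega)
  have o0' : 0 ≤ oo δ 0 := sum_nonneg fun y _ => hR.nn 0 y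
  have e : ∀ f g : ℕ → ZMod h → ℤ, ∀ c, oo (fun c => if c < l then f c else g (c - l)) c
      = if c < l then oo f c else oo g (c - l) := by
    intro f g c
    simp only [oo]
    split_ifs <;> rfl
  refine ⟨fun c => if c < l then a c else b (c - l), fun c => if c < l then γ c else δ (c - l),
    ⟨by omega, fun c => ?_, fun c y => ?_, fun c hc y => ?_, fun y => ?_, fun c hc => ?_,
      fun c hc y hy => ?_, ?_, ?_, ?_⟩, fun c hc => by simp [hc]⟩
  · split_ifs
    · exact hB.bit c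
    · exact hR.bit _
  · split_ifs
    · exact hB.nn c y
    · exact hR.nn _ y
  · by_cases c1 : c < l
    · have := hB.tb c c1 y
      simp only [tau0, c1, if_true, show c - 1 < l by omega] at this ⊢
      exact this
    by_cases c2 : c = l
    · subst c2
      have := hR.tb 0 (by omega) y
      simp only [tau0, lt_irrefl, if_false, if_true, show c - 1 < c by omega, hB.last,
        Nat.sub_self, ite_self] at this ⊢
      exact this
    · have c3 : c = l + 1 := by omega
      subst c3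
      have := hR.tb 1 (by omega) y
      simpa [tau0] using this
  · simpa using hR.last y
  · rw [e]
    split_ifs with c1
    · exact hB.o2 c c1
    · exact hR.o2 _ (by omega)
  · split_ifs with c1
    · exact hB.zc c c1 y hy
    · exact hR.zc _ (by omega) y hy
  · have b1 := hB.val
    have b2 := hR.val
    simp only [e]
    rw [sum_range_add, sum_congr rfl fun c hc => by rw [if_pos (mem_range.1 hc),
      if_pos (mem_range.1 hc)]]
    simp only [add_lt_iff_neg_left, not_lt_zero, if_false, Nat.add_sub_cancel_left]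
    omega
  · have b1 := hB.s1
    simp only [e]
    rw [sum_range_add, sum_congr rfl fun c hc => by rw [if_pos (mem_range.1 hc)]]
    simp only [add_lt_iff_neg_left, not_lt_zero, if_false, Nat.add_sub_cancel_left,
      sum_range_succ, range_zero, sum_empty, o1, lb1] at b1 ⊢
    split_ifs <;> omega
  · have b1 := hB.s2
    simp only [e]
    rw [sum_range_add, sum_congr rfl fun c hc => by rw [if_pos (mem_range.1 hc)]]
    simp only [add_lt_iff_neg_left, not_lt_zero, if_false, Nat.add_sub_cancel_left,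
      sum_range_succ, range_zero, sum_empty, o1, lb2] at b1 ⊢
    split_ifs <;> omega

lemma Blk.extend_many {Zc : ZMod h → Prop} {l : ℕ} {h1 h2 e1 e2 : ℤ} {b δ : ℕ → ZMod h → ℤ}
    (hB : Blk p q r Zc l h1 h2 a γ) (hR : Blk p q r Zc 2 e1 e2 b δ) (t : ℕ) :
    ∃ a2 γ2, Blk p q r Zc (l + 2 * t) h1 h2 a2 γ2 ∧ ∀ c < l, a2 c = a c ∧ γ2 c = γ c := by
  induction t with
  | zero => exact ⟨a, γ, hB, fun _ _ => ⟨rfl, rfl⟩⟩
  | succ t ih =>
    obtain ⟨a2, γ2, b1, b2⟩ := ih
    obtain ⟨a3, γ3, b3, b4⟩ := b1.extend hR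
    refine ⟨a3, γ3, b3, fun c hc => ?_⟩
    rw [(b4 c (by omega)).1, (b4 c (by omega)).2]
    exact b2 c hc

lemma Blk.tau_eq {Zc : ZMod h → Prop} {h1 h2 : ℤ} (hB : Blk p q r Zc k h1 h2 a γ) (c : ℕ) :
    tau k σ p q r a γ c = tau0 p q r a γ c := by
  funext y
  simp only [tau, tau0, cin, hB.last]

theorem Blk.wit {Zc : ZMod h → Prop} {h1 h2 : ℤ} (hB : Blk p q r Zc k h1 h2 a γ)
    (hi : Inj p q r Zc) (hh : ∃ c < k, ∃ y, tau0 p q r a γ c y = 0)
    (o1 : k % 2 = 0 → 0 < h1 ∨ (h1 = 0 ∧ ∀ a' γ', Alt k σ p q r a γ a' γ' →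
      (∀ c < k, oo γ' c = oo γ c + lb1 (oo γ c) c) → False))
    (o2 : k % 2 = 0 → 0 < h2 ∨ (h2 = 0 ∧ ∀ a' γ', Alt k σ p q r a γ a' γ' →
      (∀ c < k, oo γ' c = oo γ c + lb2 (oo γ c) c) → False)) : Wit k σ p q r := by
  refine ⟨a, γ, ⟨hB.bit, hB.nn, fun c hc => by rw [hB.tau_eq]; exact hB.tb c hc, ?_, ?_⟩,
    fun a' γ' hA => ?_⟩
  · simpa only [hB.tau_eq] using hh
  · have := hB.val
    simp only [sum_sub_distrib, ← mul_sum, sum_const, card_range, nsmul_eq_mul] at this
    have e1 : tot k a = ∑ c ∈ range k, oo a c := rfl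
    have e2 : tot k γ = ∑ c ∈ range k, oo γ c := rfl
    rw [e1, e2, mul_comm]; omega
  · have s1 := hB.s1
    have s2 := hB.s2
    rcases profile hB.pos hB.nn hB.o2 hA with b | ⟨hk, ⟨b1, b2⟩ | ⟨b1, b2⟩⟩
    · refine cut hB.bit hA hB.last (zero_of_sum (hA.nn _) ?_) hi hB.zc
      have := b (k - 1) (by have := hB.pos; omega)
      exact this.trans (sum_eq_zero fun y _ => hB.last y)
    · rcases o1 hk with b3 | ⟨b3, b4⟩
      · omega
      · exact (b4 a' γ' hA (b2 (by omega))).elim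
    · rcases o2 hk with b3 | ⟨b3, b4⟩
      · omega
      · exact (b4 a' γ' hA (b2 (by omega))).elim

end Pool.Agent.Lib.MP_0287c7_lc
end

-- part Pool.Agent.Lib.MP_0287c7_lc.Lat
section

set_option autoImplicit false
open Finset

namespace Pool.Agent.Lib.MP_0287c7_lc

variable {h : ℕ} [NeZero h]

lemma val_sub' (y s : ZMod h) :
    (y - s).val = if s.val ≤ y.val then y.val - s.val else y.val + h - s.val := by
  have h1 := ZMod.val_add (y - s) s
  rw [sub_add_cancel] at h1
  have h2 := ZMod.val_lt (y - s)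
  have h3 := ZMod.val_lt s
  by_cases h4 : (y - s).val + s.val < h
  · rw [Nat.mod_eq_of_lt h4] at h1
    split_ifs <;> omega
  · rw [Nat.mod_eq_sub_mod (not_lt.1 h4), Nat.mod_eq_of_lt (by omega)] at h1
    split_ifs <;> omega

lemma wit_indep {k : ℕ} {σ p q r : ZMod h} (hk : 0 < k) {S : ZMod h → ℤ} (hb : IsBit S)
    (ht : IsBit (mul3 p q r S)) (hv : (h : ℤ) ≤ 4 * ∑ y, S y) {Zc : ZMod h → Prop}
    (hi : Inj p q r Zc) (hz : ∀ y, Zc y → S y = 0) : Wit k σ p q r := by
  refine wit_free hk hb ht ?_ hv hi hz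
  by_contra h0
  push Not at h0
  have := hi (fun y => 1 - 3 * S y) (fun y => by
    have := (ht y).resolve_left (h0 y)
    simp only [mul3] at this ⊢
    omega) (fun y hy => by rw [hz y hy]; omega) 0
  omega

/-- far from zero -/
def far (x : ZMod h) : Prop := h ≤ 4 * x.val ∧ 4 * x.val ≤ 3 * h

lemma far_neg {x : ZMod h} (hx : far x) : far (-x) := by
  have h0 := NeZero.ne h
  have := val_sub' 0 x
  have h2 := ZMod.val_lt x
  rw [zero_sub, ZMod.val_zero] at this
  unfold far at hx ⊢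
  split_ifs at this <;> omega

/-- a character separating the three differences from zero -/
def Bohr (p q r : ZMod h) : Prop := ∃ ρ, far (ρ * (p - q)) ∧ far (ρ * (p - r)) ∧ far (ρ * (q - r))

lemma wit_bohr {k : ℕ} {σ p q r : ZMod h} (hk : 0 < k) (hB : Bohr p q r)
    (hi : Inj p q r fun _ => False) : Wit k σ p q r := by
  obtain ⟨ρ, f1, f2, f3⟩ := hB
  have h0 := NeZero.ne h
  set L := (h + 3) / 4 with hL
  set S : ZMod h → ZMod h → ℤ := fun t y => if (ρ * y - t).val < L then 1 else 0 with hS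
  have h1 : ∀ y, ∑ t, S t y = L := by
    intro y
    have := Equiv.sum_comp (Equiv.subLeft (ρ * y)) (fun z : ZMod h => if z.val < L then (1 : ℤ) else 0)
    simp only [Equiv.subLeft_apply] at this
    rw [hS, this, sum_zmod (fun i => if i < L then (1 : ℤ) else 0), sum_boole]
    congr 1
    rw [show filter (fun i => i < L) (range h) = range L by ext i; simp; omega, card_range]
  obtain ⟨t, -, ht⟩ := exists_le_of_sum_le (s := (univ : Finset (ZMod h))) univ_nonempty
    (f := fun _ => (L : ℤ)) (g := fun t => ∑ y, S t y) (by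
      rw [sum_comm]; simp only [h1]; exact le_rfl)
  have key : ∀ x z : ZMod h, far (x - z) → ¬ (x.val < L ∧ z.val < L) := by
    intro x z hf
    have := val_sub' x z
    unfold far at hf
    split_ifs at this <;> omega
  refine wit_indep hk (S := S t) (fun y => ?_) (fun y => ?_) (by omega) hi (fun _ h => h.elim)
  · simp only [hS]; split_ifs <;> simp
  · have k1 := key (ρ * (y - q) - t) (ρ * (y - p) - t) (by convert f1 using 1; ring)
    have k2 := key (ρ * (y - r) - t) (ρ * (y - p) - t) (by convert f2 using 1; ring)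
    have k3 := key (ρ * (y - r) - t) (ρ * (y - q) - t) (by convert f3 using 1; ring)
    simp only [mul3, hS]
    split_ifs <;> omega

omit [NeZero h] in
lemma far_of_int {x : ZMod h} {U : ℤ} (hx : x = U) (h1 : (h : ℤ) ≤ 4 * U) (h2 : 4 * U ≤ 3 * h)
    (h0 : 0 < h) : far x := by
  obtain ⟨u, rfl⟩ := Int.eq_ofNat_of_zero_le (a := U) (by omega)
  rw [hx, Int.cast_natCast]
  unfold far
  rw [ZMod.val_cast_of_lt (by omega)]
  omega

lemma lattice_core {i j α β : ZMod h} (hg : α * i + β * j = 1) {a b w x y c z : ℤ}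
    (ha : 0 ≤ a) (hb : 0 < b) (hw : a * i.val + b * j.val = h * w) (hp : a * x + b * y + w * c = 1)
    (hz : 4 * z ≤ a + 3 * b) (hh : 4 * b * (a + b) ≤ h * (4 * z - a - 2 * b)) :
    ∃ ρ : ZMod h, far (ρ * i) ∧ far (ρ * j) ∧ far (ρ * (j - i)) := by
  have h0 : (0 : ℤ) < h := by have := NeZero.ne h; omega
  have hrel : (a : ZMod h) * i + b * j = 0 := by
    have := congrArg (Int.cast : ℤ → ZMod h) hw
    simpa using this
  set U0 : ℤ := c * i.val + h * x with hU0
  set V0 : ℤ := c * j.val + h * y with hV0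
  have e0 : a * U0 + b * V0 = h := by
    rw [hU0, hV0]; linear_combination c * hw + h * hp
  obtain ⟨s, s1, s2⟩ : ∃ s : ℤ, h ≤ 4 * (z * U0 + s * b) ∧ 4 * (z * U0 + s * b) < h + 4 * b := by
    refine ⟨-((4 * (z * U0) - h) / (4 * b)), ?_, ?_⟩
    · have := Int.emod_nonneg (4 * (z * U0) - h) (show 4 * b ≠ 0 by omega)
      have := Int.mul_ediv_add_emod (4 * (z * U0) - h) (4 * b)
      linarith
    · have := Int.emod_lt_of_pos (4 * (z * U0) - h) (show 0 < 4 * b by omega)
      have := Int.mul_ediv_add_emod (4 * (z * U0) - h) (4 * b)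
      linarith
  set U := z * U0 + s * b with hU
  set V := z * V0 - s * a with hV
  have e1 : a * U + b * V = z * h := by rw [hU, hV]; linear_combination z * e0
  have b1 : 4 * V ≤ 3 * h := by
    apply le_of_mul_le_mul_left _ hb
    nlinarith
  have b2 : h ≤ 4 * (V - U) := by
    apply le_of_mul_le_mul_left _ hb
    nlinarith
  have cU : ((z * c + s * (α * b - β * a) : ZMod h)) * i = (U : ZMod h) := by
    rw [hU, hU0]; push_cast
    simp only [ZMod.natCast_val, ZMod.cast_id', id, ZMod.natCast_self]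
    linear_combination (s * b : ZMod h) * hg - (s * β) * hrel
  have cV : ((z * c + s * (α * b - β * a) : ZMod h)) * j = (V : ZMod h) := by
    rw [hV, hV0]; push_cast
    simp only [ZMod.natCast_val, ZMod.cast_id', id, ZMod.natCast_self]
    linear_combination (-s * a : ZMod h) * hg + (s * α) * hrel
  have hh0 : 0 < h := by omega
  refine ⟨z * c + s * (α * b - β * a), far_of_int cU s1 (by omega) hh0,
    far_of_int cV (by omega) b1 hh0, far_of_int (U := V - U) ?_ b2 (by omega) hh0⟩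
  rw [mul_sub, cU, cV]; push_cast; ring

lemma lattice_prim {i j : ZMod h} {a b : ℕ} (h0 : 0 < b) (hr : (a : ZMod h) * i + b * j = 0) :
    ∃ a' b' : ℕ, ∃ w x y c : ℤ, a' ≤ a ∧ b' ≤ b ∧ 0 < b' ∧ (a ≤ b → a' ≤ b') ∧
      (a' : ℤ) * i.val + b' * j.val = h * w ∧ a' * x + b' * y + w * c = 1 := by
  have h1 : h ∣ a * i.val + b * j.val := by
    rw [← ZMod.natCast_eq_zero_iff]; simpa using hr
  obtain ⟨w, hw⟩ := h1
  set g := Nat.gcd (Nat.gcd a b) w with hg
  have hg0 : 0 < g := Nat.gcd_pos_of_pos_left _ (Nat.gcd_pos_of_pos_right _ h0)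
  obtain ⟨a', ha⟩ : g ∣ a := (Nat.gcd_dvd_left _ _).trans (Nat.gcd_dvd_left _ _)
  obtain ⟨b', hb⟩ : g ∣ b := (Nat.gcd_dvd_left _ _).trans (Nat.gcd_dvd_right _ _)
  obtain ⟨w', hw'⟩ : g ∣ w := Nat.gcd_dvd_right _ _
  have e1 := Nat.gcd_eq_gcd_ab (Nat.gcd a b) w
  have e2 := Nat.gcd_eq_gcd_ab a b
  rw [← hg] at e1
  generalize Nat.gcdA (Nat.gcd a b) w = s at e1
  generalize Nat.gcdB (Nat.gcd a b) w = t at e1
  rw [e2] at e1
  generalize Nat.gcdA a b = s' at e1
  generalize Nat.gcdB a b = t' at e1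
  have hgz : (g : ℤ) ≠ 0 := by omega
  refine ⟨a', b', w', s' * s, t' * s, t, ?_, ?_, ?_, fun hab => ?_, ?_, ?_⟩
  · rw [ha]; exact Nat.le_mul_of_pos_left _ hg0
  · rw [hb]; exact Nat.le_mul_of_pos_left _ hg0
  · rw [hb] at h0; exact Nat.pos_of_mul_pos_left h0
  · rw [ha, hb] at hab; exact Nat.le_of_mul_le_mul_left hab hg0
  · apply mul_left_cancel₀ hgz
    have : ((a * i.val + b * j.val : ℕ) : ℤ) = (h * w : ℕ) := by rw [hw]
    rw [ha, hb, hw'] at this
    push_cast at this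
    linear_combination this
  · apply mul_left_cancel₀ hgz
    have a1 : (a : ℤ) = g * a' := by exact_mod_cast ha
    have a2 : (b : ℤ) = g * b' := by exact_mod_cast hb
    have a3 : (w : ℤ) = g * w' := by exact_mod_cast hw'
    rw [a1, a2, a3] at e1
    linear_combination -e1

lemma small_table : ∀ b : ℕ, b ≤ 10 → ∀ a : ℕ, a ≤ b → 0 < b → (a = 0 ∧ b = 1) ∨ (a = 0 ∧ b = 2) ∨ (a = 1 ∧ b = 2) ∨
    (a + 2 * b < 4 * ((a + 3 * b) / 4) ∧
      4 * b * (a + b) + 90 * (a + 2 * b) ≤ 90 * (4 * ((a + 3 * b) / 4))) ∨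
    (0 < a ∧ b + 2 * a < 4 * ((b + 3 * a) / 4) ∧
      4 * a * (b + a) + 90 * (b + 2 * a) ≤ 90 * (4 * ((b + 3 * a) / 4))) := by
  intro b hb a ha h0
  interval_cases b <;> interval_cases a <;> omega

/-- the lattice lemma -/
lemma lattice {i j α β : ZMod h} (hh : 90 ≤ h) (hg : α * i + β * j = 1) {a b : ℕ} (hab : a ≤ b)
    (h0 : 0 < b) (hb : b * b ≤ h) (hr : (a : ZMod h) * i + b * j = 0) :
    (∃ ρ : ZMod h, far (ρ * i) ∧ far (ρ * j) ∧ far (ρ * (j - i))) ∨ j = 0 ∨ 2 * j = 0 ∨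
      i + 2 * j = 0 := by
  obtain ⟨a', b', w, x, y, c, p1, p2, p3, p4, p5, p6⟩ := lattice_prim h0 hr
  have p7 := p4 hab
  have hrel : (a' : ZMod h) * i + b' * j = 0 := by
    have := congrArg (Int.cast : ℤ → ZMod h) p5
    simpa using this
  by_cases hb' : b' ≤ 10
  · rcases small_table b' hb' a' p7 p3 with ⟨rfl, rfl⟩ | ⟨rfl, rfl⟩ | ⟨rfl, rfl⟩ | ⟨t1, t2⟩ |
      ⟨t0, t1, t2⟩
    · right; left; simpa using hrel
    · right; right; left; simpa using hrel
    · right; right; right; simpa using hrel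
    · left
      refine lattice_core hg (z := ((a' + 3 * b') / 4 : ℕ)) (by positivity) (by omega) p5 p6
        (by omega) ?_
      generalize (a' + 3 * b') / 4 = z at t1 t2
      zify at t1 t2 hh
      nlinarith
    · left
      obtain ⟨ρ, f1, f2, f3⟩ := lattice_core (i := j) (j := i) (α := β) (β := α) (a := b') (b := a')
        (w := w) (x := y) (y := x) (c := c) (z := ((b' + 3 * a') / 4 : ℕ))
        (by linear_combination hg) (by positivity) (by omega) (by linear_combination p5)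
        (by linear_combination p6) (by omega) (by
          generalize (b' + 3 * a') / 4 = z at t1 t2
          zify at t1 t2 hh
          nlinarith)
      exact ⟨ρ, f2, f1, by convert far_neg f3 using 1; ring⟩
  · left
    refine lattice_core hg (z := ((a' + 3 * b') / 4 : ℕ)) (by positivity) (by omega) p5 p6
      (by omega) ?_
    have t1 : 8 + a' + 2 * b' ≤ 4 * ((a' + 3 * b') / 4) := by omega
    generalize (a' + 3 * b') / 4 = z at t1
    have t2 : b' * b' ≤ h := (Nat.mul_le_mul p2 p2).trans hb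
    zify at t1 t2 p7 p3
    nlinarith

lemma short_rel (i j : ZMod h) : ∃ a b : ℤ, (a ≠ 0 ∨ b ≠ 0) ∧ a.natAbs * a.natAbs ≤ h ∧
    b.natAbs * b.natAbs ≤ h ∧ (a : ZMod h) * i + b * j = 0 := by
  set t := Nat.sqrt h with ht
  obtain ⟨x, hx, y, hy, hne, he⟩ := exists_ne_map_eq_of_card_lt_of_maps_to
    (s := range (t + 1) ×ˢ range (t + 1)) (t := (univ : Finset (ZMod h)))
    (f := fun z => (z.1 : ZMod h) * i + z.2 * j) (by
      rw [card_product, card_range, card_univ, ZMod.card]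
      exact Nat.lt_succ_sqrt h) (fun _ _ => mem_coe.2 (mem_univ _))
  simp only [mem_product, mem_range] at hx hy
  have h1 : t * t ≤ h := Nat.sqrt_le h
  refine ⟨x.1 - y.1, x.2 - y.2, ?_, ?_, ?_, ?_⟩
  · by_contra h2
    push Not at h2
    exact hne (Prod.ext (by omega) (by omega))
  · exact (Nat.mul_le_mul (by omega) (by omega)).trans h1
  · exact (Nat.mul_le_mul (by omega) (by omega)).trans h1
  · push_cast; linear_combination he

end Pool.Agent.Lib.MP_0287c7_lc
end

-- part Pool.Agent.Lib.MP_0287c7_lc.Pat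
section

set_option autoImplicit false
open Finset

namespace Pool.Agent.Lib.MP_0287c7_lc

variable {h : ℕ} [NeZero h]

/-- a finite set followed by an arithmetic progression -/
def pat (C : Finset ℕ) (y0 d t : ℕ) (v : ℕ) : Prop :=
  v ∈ C ∨ (y0 ≤ v ∧ v < y0 + d * t ∧ (v - y0) % d = 0)

instance (C : Finset ℕ) (y0 d t : ℕ) : DecidablePred (pat C y0 d t) := fun v => by
  unfold pat; infer_instance

/-- indicator of a pattern, translated -/
def ind (C : Finset ℕ) (y0 d t : ℕ) (π y : ZMod h) : ℤ := if pat C y0 d t (y + π).val then 1 else 0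

omit [NeZero h] in
lemma isBit_ind (C : Finset ℕ) (y0 d t : ℕ) (π : ZMod h) : IsBit (ind C y0 d t π) := by
  intro y; unfold ind; split_ifs <;> simp

lemma ind_sub (C : Finset ℕ) (y0 d t : ℕ) (π y : ZMod h) {s : ℕ} (hs : s < h) :
    ind C y0 d t π (y - s) = if pat C y0 d t (if s ≤ (y + π).val then (y + π).val - s
      else (y + π).val + h - s) then 1 else 0 := by
  unfold ind
  rw [show y - s + π = y + π - s by ring, val_sub', ZMod.val_cast_of_lt hs]

lemma sum_ind {C : Finset ℕ} {y0 d t : ℕ} (π : ZMod h) (hd : 0 < d) (h1 : ∀ c ∈ C, c < y0 ∧ c < h)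
    (h2 : y0 + d * t < h + d) : ∑ y, ind C y0 d t π y = C.card + t := by
  have : ∑ y, ind C y0 d t π y = _ := Equiv.sum_comp (Equiv.addRight π)
    (fun z : ZMod h => if pat C y0 d t z.val then (1 : ℤ) else 0)
  rw [this, sum_zmod (fun i => if pat C y0 d t i then (1 : ℤ) else 0), sum_boole]
  have e : filter (fun i => pat C y0 d t i) (range h) = C ∪ (range t).image (fun i => y0 + d * i) := by
    ext v
    simp only [mem_filter, mem_range, mem_union, mem_image, pat]
    constructor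
    · rintro ⟨_, b | ⟨b1, b2, b3⟩⟩
      · exact Or.inl b
      · refine Or.inr ⟨(v - y0) / d, ?_, ?_⟩
        · rw [Nat.div_lt_iff_lt_mul hd, mul_comm]; omega
        · have := Nat.div_add_mod (v - y0) d
          omega
    · rintro (b | ⟨i, b1, rfl⟩)
      · exact ⟨(h1 v b).2, Or.inl b⟩
      · have := Nat.mul_le_mul_left d (Nat.succ_le_of_lt b1)
        rw [Nat.mul_succ] at this
        exact ⟨by omega, Or.inr ⟨by omega, by omega, by simp⟩⟩
  rw [e, card_union_of_disjoint, card_image_of_injective, card_range]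
  · push_cast; rfl
  · intro i j hij
    simp only [add_right_inj] at hij
    exact Nat.eq_of_mul_eq_mul_left hd hij
  · rw [disjoint_left]
    intro v b1 b2
    obtain ⟨i, _, rfl⟩ := mem_image.1 b2
    have := (h1 _ b1).1
    omega

lemma sgl_eq {z π : ZMod h} {c : ℕ} (hc : c < h) (hz : z + π = c) (y : ZMod h) :
    sgl z y = if (y + π).val = c then 1 else 0 := by
  unfold sgl
  congr 1
  apply propext
  constructor
  · rintro rfl; rw [hz, ZMod.val_cast_of_lt hc]
  · intro h1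
    have : y + π = z + π := by rw [hz, ← h1]; simp
    exact add_right_cancel this

/-- one level -/
structure Lv (p q r : ZMod h) (gi a go : ZMod h → ℤ) : Prop where
  bit : IsBit a
  nn : ∀ y, 0 ≤ go y
  tb : IsBit fun y => mul3 p q r a y + gi y - 2 * go y
  o2 : ∑ y, go y ≤ 2

variable {p q r : ZMod h}

lemma blk2 {X0 X1 g0 : ZMod h → ℤ} (l0 : Lv p q r 0 X0 g0) (l1 : Lv p q r g0 X1 0)
    (hv : 2 * h + 2 * ∑ y, g0 y ≤ 4 * (∑ y, X0 y + ∑ y, X1 y)) :
    Blk p q r (fun _ => False) 2 (lb1 (∑ y, g0 y) 0 + lb1 0 1) (lb2 (∑ y, g0 y) 0 + lb2 0 1)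
      (fun c => [X0, X1].getD c 0) (fun c => [g0].getD c 0) := by
  refine ⟨by omega, fun c => ?_, fun c => ?_, fun c hc => ?_, by simp, fun c hc => ?_,
    fun _ _ _ h => h.elim, ?_, ?_, ?_⟩
  · rcases c with _ | _ | c
    · exact l0.bit
    · exact l1.bit
    · exact fun _ => Or.inl rfl
  · rcases c with _ | c
    · exact l0.nn
    · exact fun _ => le_rfl
  · interval_cases c
    · exact l0.tb
    · exact l1.tb
  · interval_cases c
    · exact l0.o2
    · exact l1.o2
  · simp [sum_range_succ, oo]; omega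
  · simp [sum_range_succ, oo]
  · simp [sum_range_succ, oo]

lemma blk3 {X0 X1 X2 g0 g1 : ZMod h → ℤ} (l0 : Lv p q r 0 X0 g0) (l1 : Lv p q r g0 X1 g1)
    (l2 : Lv p q r g1 X2 0)
    (hv : 3 * h + 2 * (∑ y, g0 y + ∑ y, g1 y) ≤ 4 * (∑ y, X0 y + ∑ y, X1 y + ∑ y, X2 y)) :
    Blk p q r (fun _ => False) 3 (-9) (-9)
      (fun c => [X0, X1, X2].getD c 0) (fun c => [g0, g1].getD c 0) := by
  refine ⟨by omega, fun c => ?_, fun c => ?_, fun c hc => ?_, by simp, fun c hc => ?_,
    fun _ _ _ h => h.elim, ?_, ?_, ?_⟩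
  · rcases c with _ | _ | _ | c
    · exact l0.bit
    · exact l1.bit
    · exact l2.bit
    · exact fun _ => Or.inl rfl
  · rcases c with _ | _ | c
    · exact l0.nn
    · exact l1.nn
    · exact fun _ => le_rfl
  · interval_cases c
    · exact l0.tb
    · exact l1.tb
    · exact l2.tb
  · interval_cases c
    · exact l0.o2
    · exact l1.o2
    · exact l2.o2
  · simp [sum_range_succ, oo]; omega
  · simp only [sum_range_succ, lb1, range_zero, sum_empty]; split_ifs <;> omega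
  · simp only [sum_range_succ, lb2, range_zero, sum_empty]; split_ifs <;> omega

lemma blk4 {X0 X1 X2 X3 g0 g1 g2 : ZMod h → ℤ} (l0 : Lv p q r 0 X0 g0) (l1 : Lv p q r g0 X1 g1)
    (l2 : Lv p q r g1 X2 g2) (l3 : Lv p q r g2 X3 0)
    (hv : 4 * h + 2 * (∑ y, g0 y + ∑ y, g1 y + ∑ y, g2 y)
      ≤ 4 * (∑ y, X0 y + ∑ y, X1 y + ∑ y, X2 y + ∑ y, X3 y)) :
    Blk p q r (fun _ => False) 4
      (lb1 (∑ y, g0 y) 0 + lb1 (∑ y, g1 y) 1 + lb1 (∑ y, g2 y) 2 + lb1 0 3)
      (lb2 (∑ y, g0 y) 0 + lb2 (∑ y, g1 y) 1 + lb2 (∑ y, g2 y) 2 + lb2 0 3)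
      (fun c => [X0, X1, X2, X3].getD c 0) (fun c => [g0, g1, g2].getD c 0) := by
  refine ⟨by omega, fun c => ?_, fun c => ?_, fun c hc => ?_, by simp, fun c hc => ?_,
    fun _ _ _ h => h.elim, ?_, ?_, ?_⟩
  · rcases c with _ | _ | _ | _ | c
    · exact l0.bit
    · exact l1.bit
    · exact l2.bit
    · exact l3.bit
    · exact fun _ => Or.inl rfl
  · rcases c with _ | _ | _ | c
    · exact l0.nn
    · exact l1.nn
    · exact l2.nn
    · exact fun _ => le_rfl
  · interval_cases c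
    · exact l0.tb
    · exact l1.tb
    · exact l2.tb
    · exact l3.tb
  · interval_cases c
    · exact l0.o2
    · exact l1.o2
    · exact l2.o2
    · exact l3.o2
  · simp [sum_range_succ, oo]; omega
  · simp [sum_range_succ, oo]
  · simp [sum_range_succ, oo]

/-- a hole exists at a level whose output is not full -/
lemma hole_of_count {f : ZMod h → ℤ} (hb : IsBit f) (hc : ∑ y, f y < h) : ∃ y, f y = 0 := by
  by_contra h0
  push Not at h0
  have : ∑ y, f y = ∑ _y : ZMod h, (1 : ℤ) := sum_congr rfl fun y _ => (hb y).resolve_left (h0 y)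
  simp only [sum_const, card_univ, ZMod.card, nsmul_eq_mul, mul_one] at this
  omega

lemma sum_mul3 (a : ZMod h → ℤ) : ∑ y, mul3 p q r a y = 3 * ∑ y, a y := by
  simp only [mul3, sum_add_distrib, sum_shift]; ring

/-- a hole at level zero -/
lemma Blk.hole0 {Zc : ZMod h → Prop} {l : ℕ} {h1 h2 : ℤ} {a γ : ℕ → ZMod h → ℤ}
    (hB : Blk p q r Zc l h1 h2 a γ) (hc : 3 * oo a 0 - 2 * oo γ 0 < h) :
    ∃ c < l, ∃ y, tau0 p q r a γ c y = 0 := by
  refine ⟨0, hB.pos, hole_of_count (hB.tb 0 hB.pos) ?_⟩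
  simp only [tau0, sum_sub_distrib, sum_mul3, ← mul_sum, if_true, add_zero]
  exact hc

omit [NeZero h] in
lemma hole_ext {l k : ℕ} {a γ a2 γ2 : ℕ → ZMod h → ℤ} (hk : l ≤ k)
    (b2 : ∀ c < l, a2 c = a c ∧ γ2 c = γ c) (hh : ∃ c < l, ∃ y, tau0 p q r a γ c y = 0) :
    ∃ c < k, ∃ y, tau0 p q r a2 γ2 c y = 0 := by
  obtain ⟨c, hc, y, hy⟩ := hh
  refine ⟨c, by omega, y, ?_⟩
  simp only [tau0, (b2 c hc).1, (b2 c hc).2, (b2 (c - 1) (by omega)).2] at hy ⊢
  exact hy

/-- witnesses from a head block and a repeated block, without ties -/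
theorem wit_head {Zc : ZMod h → Prop} {l : ℕ} {h1 h2 e1 e2 : ℤ} {a γ b δ : ℕ → ZMod h → ℤ}
    (hB : Blk p q r Zc l h1 h2 a γ) (hR : Blk p q r Zc 2 e1 e2 b δ) (hi : Inj p q r Zc)
    (hh : ∃ c < l, ∃ y, tau0 p q r a γ c y = 0) (hp : l % 2 = 0 → 0 < h1 ∧ 0 < h2)
    {k : ℕ} (hk : l ≤ k) (hpar : k % 2 = l % 2) (σ : ZMod h) : Wit k σ p q r := by
  obtain ⟨t, rfl⟩ : ∃ t, k = l + 2 * t := ⟨(k - l) / 2, by omega⟩
  obtain ⟨a2, γ2, b1, b2⟩ := hB.extend_many hR t
  exact b1.wit hi (hole_ext hk b2 hh) (fun h => Or.inl (hp (by omega)).1)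
    (fun h => Or.inl (hp (by omega)).2)

/-- level equation for the difference of two configurations -/
lemma Alt.diff {k : ℕ} {σ : ZMod h} {a γ a' γ' : ℕ → ZMod h → ℤ} (hA : Alt k σ p q r a γ a' γ')
    {c : ℕ} (hc : c < k) (y : ZMod h) :
    mul3 p q r (fun y => a' c y - a c y) y
      = 2 * (γ' c y - γ c y) - (cin k σ γ' c y - cin k σ γ c y) := by
  have := hA.eq c hc y
  simp only [tau, mul3] at this ⊢
  omega

omit [NeZero h] in
lemma abs_diff {f g : ZMod h → ℤ} (hf : IsBit f) (hg : IsBit g) (y : ZMod h) : |f y - g y| ≤ 1 := by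
  rcases hf y with h | h <;> rcases hg y with h' | h' <;> simp [h, h']

end Pool.Agent.Lib.MP_0287c7_lc
end
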