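import Pool.Agent.Lib.MP_0287c7_lc.QR1

/-! Tilings of one cycle of even length and their winding number. -/

set_option autoImplicit false
open Classical Finset

namespace Pool.Agent.Lib.MP_0287c7_lc

variable {ν : ℕ} [NeZero ν] {lam p : ℕ} {J J' I : ZMod ν → ℤ} {w : ℤ}

/-- The sign of a vertex. -/
def sgn (i : ZMod ν) : ℤ := (-1) ^ i.val

/-- The indicator of the even vertices. -/
def Ev (i : ZMod ν) : ℤ := if Even i.val then 1 else 0

omit [NeZero ν] in
lemma sgn_eq (i : ZMod ν) : sgn i = 2 * Ev i - 1 := by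
  unfold sgn Ev
  split_ifs with h
  · rw [h.neg_one_pow]; rfl
  · rw [(Nat.not_even_iff_odd.1 h).neg_one_pow]; rfl

omit [NeZero ν] in
lemma isBit_Ev : IsBit (Ev (ν := ν)) := fun i => by unfold Ev; split_ifs <;> simp

omit [NeZero ν] in
lemma sgn_cases (i : ZMod ν) : sgn i = 1 ∧ Ev i = 1 ∨ sgn i = -1 ∧ Ev i = 0 := by
  have := sgn_eq i
  have := isBit_Ev i
  omega

omit [NeZero ν] in
lemma Ev_zero : Ev (0 : ZMod ν) = 1 := by simp [Ev]

lemma sgn_sub (hν : Even ν) (i : ZMod ν) (h : ℕ) : sgn (i - (h : ZMod ν)) = (-1) ^ h * sgn i := by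
  have e := pow_val_add hν.neg_one_pow (i - h) (h : ZMod ν) (R := ℤ)
  rw [sub_add_cancel, pow_val_cast hν.neg_one_pow] at e
  rw [sgn, sgn, e, mul_left_comm, ← mul_pow]
  simp

lemma sgn_odd (hν : Even ν) (hl : Odd lam) (i : ZMod ν) :
    sgn (i - (lam : ZMod ν)) = -sgn i := by
  rw [sgn_sub hν, hl.neg_one_pow, neg_one_mul]

lemma sgn_one (hν : Even ν) (i : ZMod ν) : sgn (i - 1) = -sgn i := by
  simpa using sgn_odd hν odd_one i

lemma Ev_odd (hν : Even ν) (hl : Odd lam) (i : ZMod ν) :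
    Ev i + Ev (i - (lam : ZMod ν)) = 1 := by
  have := sgn_odd hν hl i
  rw [sgn_eq, sgn_eq] at this
  omega

lemma Ev_one (hν : Even ν) (i : ZMod ν) : Ev i + Ev (i - 1) = 1 := by
  simpa using Ev_odd hν odd_one i

/-- Signed sums over windows. -/
def Vw (lam : ℕ) (J : ZMod ν → ℤ) (i : ZMod ν) : ℤ :=
  ∑ h ∈ range lam, sgn (i - (h : ZMod ν)) * J (i - h)

/-- The short edges that complete `J` with winding number `w`. -/
def Io (lam : ℕ) (J : ZMod ν → ℤ) (w : ℤ) (i : ZMod ν) : ℤ := Ev i + sgn i * (w - Vw lam J i)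

omit [NeZero ν] in
lemma Vw_step (lam : ℕ) (J : ZMod ν → ℤ) (i : ZMod ν) :
    Vw lam J (i - 1) = Vw lam J i - sgn i * J i + sgn (i - (lam : ZMod ν)) * J (i - lam) := by
  have e := (sum_range_succ' (fun h : ℕ => sgn (i - (h : ZMod ν)) * J (i - h)) lam).symm.trans
    (sum_range_succ _ lam)
  simp only [Nat.cast_zero, sub_zero, Nat.cast_succ, ← sub_sub, sub_right_comm i _ 1] at e
  unfold Vw
  linear_combination e

lemma til_Io (hν : Even ν) (hl : Odd lam) (J : ZMod ν → ℤ) (w : ℤ) :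
    Til 1 (lam : ZMod ν) J (Io lam J w) := fun i => by
  rw [Io, Io, Vw_step, sgn_odd hν hl, sgn_one hν]
  have := Ev_one hν i
  rcases sgn_cases i with h | h <;> rw [h.1] <;> omega

lemma alt_eq (hν : Even ν) {f : ZMod ν → ℤ} (h : ∀ i, f i + f (i - 1) = 0) (i : ZMod ν) :
    f i = sgn i * f 0 := by
  have : ∀ c : ℕ, f c = sgn (c : ZMod ν) * f 0 := fun c => by
    induction c with
    | zero => simp [sgn]
    | succ c ih =>
      have e1 := h (c + 1 : ℕ)
      have e2 := sgn_one hν (c + 1 : ℕ)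
      rw [Nat.cast_succ, add_sub_cancel_right] at e1 e2
      rw [Nat.cast_succ]
      linear_combination e1 - ih - f 0 * e2
  simpa using this i.val

lemma Til.exists_w (hν : Even ν) (hl : Odd lam) (h : Til 1 (lam : ZMod ν) J I) :
    ∃ w, I = Io lam J w := by
  refine ⟨I 0 - Io lam J 0 0, funext fun i => ?_⟩
  have := alt_eq hν (f := fun i => I i - Io lam J 0 i)
    (fun i => by linear_combination h i - til_Io hν hl J 0 i) i
  simp only [Io] at this ⊢
  linear_combination this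

lemma sum_Vw (lam : ℕ) (J : ZMod ν → ℤ) : ∑ i, Vw lam J i = lam * ∑ i, sgn i * J i := by
  unfold Vw
  rw [sum_comm, sum_congr rfl fun (h : ℕ) _ => sum_shift (fun i => sgn i * J i) (h : ZMod ν)]
  simp

section Ring
variable {R : Type} [CommRing R] {σ : R}

/-- The quotient of `σ ^ lam + 1` by `σ + 1`. -/
def D0 (σ : R) (lam : ℕ) : R := ∑ h ∈ range lam, (-σ) ^ h

variable (ν) in
/-- The generator of the annihilator of `σ + 1`. -/
def eta (σ : R) : R := -ev σ (sgn (ν := ν))

lemma D0_mul (σ : R) (hl : Odd lam) : D0 σ lam * (1 + σ) = 1 + σ ^ lam := by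
  have := mul_neg_geom_sum (-σ) lam
  rw [hl.neg_pow] at this
  unfold D0
  linear_combination this

lemma ev_sub_nat (hσ : σ ^ ν = 1) (f : ZMod ν → ℤ) (h : ℕ) :
    ev σ (fun x : ZMod ν => f (x - h)) = σ ^ h * ev σ f := by
  rw [ev_shift hσ, pow_val_cast hσ]

lemma ev_sub_one (hσ : σ ^ ν = 1) (f : ZMod ν → ℤ) : ev σ (fun x => f (x - 1)) = σ * ev σ f := by
  simpa using ev_sub_nat hσ f 1

lemma eta_eq (σ : R) : eta ν σ = -D0 σ ν := by
  rw [eta, D0, ← sum_zmod fun h => (-σ) ^ h, ev]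
  exact congrArg _ (sum_congr rfl fun i _ => by rw [sgn, neg_pow σ]; simp)

lemma ev_Io (hν : Even ν) (hσ : σ ^ ν = 1) (lam : ℕ) (J : ZMod ν → ℤ) (w : ℤ) :
    D0 σ lam * ev σ J + ev σ (Io lam J w) = ev σ (Ev (ν := ν)) - w * eta ν σ := by
  have e : ev σ (fun i => sgn i * Vw lam J i) = D0 σ lam * ev σ J := by
    rw [D0, sum_mul, sum_congr rfl fun (h : ℕ) _ => show (-σ) ^ h * ev σ J =
      ev σ (fun x : ZMod ν => (-1) ^ h * J (x - h)) by
        rw [ev_mul, ev_sub_nat hσ, neg_pow σ]; push_cast; ring]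
    simp only [ev, Vw]
    rw [sum_comm, ← sub_eq_zero, ← sum_sub_distrib]
    refine sum_eq_zero fun i _ => ?_
    rw [← sum_mul, ← sub_mul, ← Int.cast_sum, ← Int.cast_sub, mul_sum, ← sum_sub_distrib,
      sum_eq_zero fun h _ => ?_, Int.cast_zero, zero_mul]
    rw [sgn_sub hν]
    rcases sgn_cases i with h | h <;> rw [h.1] <;> ring
  rw [show Io lam J w = fun i => Ev i + (w * sgn i - sgn i * Vw lam J i) from
    funext fun i => by rw [Io]; ring, ev_add, ev_sub, ev_mul, e, eta]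
  ring

lemma mul_eta (hν : Even ν) (hσ : σ ^ ν = 1) : σ * eta ν σ = -eta ν σ := by
  rw [eta, mul_neg, ← ev_sub_one hσ, funext (sgn_one hν), neg_neg]
  simp [ev]

lemma mul_Ev (hν : Even ν) (hσ : σ ^ ν = 1) :
    σ * ev σ (Ev (ν := ν)) = ev σ (Ev (ν := ν)) + eta ν σ := by
  rw [← ev_sub_one hσ, eta, ← sub_eq_add_neg, ← ev_sub]
  exact congrArg _ (funext fun i => by have := Ev_one hν i; have := sgn_eq i; omega)

lemma ann_pow {x : R} (h : σ * x = -x) (i : ℕ) : σ ^ i * x = (-1) ^ i * x := by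
  induction i with
  | zero => simp
  | succ i ih => rw [pow_succ', mul_assoc, ih, mul_left_comm, h]; ring

lemma ann_ev {x : R} (h : σ * x = -x) (J : ZMod ν → ℤ) :
    x * ev σ J = (∑ i, sgn i * J i : ℤ) * x := by
  rw [ev, mul_sum, Int.cast_sum, sum_mul]
  refine sum_congr rfl fun i _ => ?_
  rw [sgn]
  push_cast
  linear_combination (J i : R) * ann_pow h i.val

end Ring

/-- The indicator of a set of vertices. -/
noncomputable def ind (Q : ZMod ν → Prop) (i : ZMod ν) : ℤ := if Q i then 1 else 0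

omit [NeZero ν] in
lemma isBit_ind (Q : ZMod ν → Prop) : IsBit (ind Q) := fun i => by unfold ind; split_ifs <;> simp

omit [NeZero ν] in
lemma Vw_ind {Q : ZMod ν → Prop} (h : ∀ i, Q i → Even i.val) (lam : ℕ) (i : ZMod ν) :
    Vw lam (ind Q) i = ((range lam).filter fun h : ℕ => Q (i - h)).card := by
  rw [card_filter, Nat.cast_sum, Vw]
  refine sum_congr rfl fun c _ => ?_
  unfold ind
  split_ifs with k
  · simp [sgn, (h _ k).neg_one_pow]
  · simp

omit [NeZero ν] in
lemma isBit_Io (h : ∀ i, Vw lam J i = w ∨ Vw lam J i = w + 1) : IsBit (Io lam J w) := fun i => by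
  unfold Io
  rcases sgn_cases i with e | e <;> rcases h i with k | k <;> simp [e.1, e.2, k]

lemma val_sub_nat (i : ZMod ν) {h : ℕ} (hh : h < ν) :
    h ≤ i.val ∧ (i - (h : ZMod ν)).val + h = i.val ∨
      i.val < h ∧ (i - (h : ZMod ν)).val + h = i.val + ν := by
  have e := ZMod.val_add (i - (h : ZMod ν)) (h : ZMod ν)
  rw [sub_add_cancel, ZMod.val_cast_of_lt hh] at e
  have := ZMod.val_lt (i - (h : ZMod ν))
  by_cases k : (i - (h : ZMod ν)).val + h < ν
  · rw [Nat.mod_eq_of_lt k] at e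
    omega
  · rw [Nat.mod_eq_sub_mod (by omega), Nat.mod_eq_of_lt (by omega)] at e
    omega

lemma bit_T1 (hl : lam < ν) : IsBit (Io lam (ind fun i : ZMod ν => i = 0) 0) := by
  refine isBit_Io fun i => ?_
  rw [Vw_ind fun i h => by simp [h]]
  have : ((range lam).filter fun h : ℕ => i - h = 0).card ≤ 1 := card_le_one.2 fun a ha b hb => by
    obtain ⟨a1, a2⟩ := mem_filter.1 ha
    obtain ⟨b1, b2⟩ := mem_filter.1 hb
    have h1 := val_sub_nat i ((mem_range.1 a1).trans hl)
    have h2 := val_sub_nat i ((mem_range.1 b1).trans hl)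
    have := ZMod.val_lt i
    have := mem_range.1 a1
    have := mem_range.1 b1
    rw [a2, ZMod.val_zero] at h1
    rw [b2, ZMod.val_zero] at h2
    omega
  convert (by omega : (((range lam).filter fun h : ℕ => i - h = 0).card : ℤ) = 0 ∨
    (((range lam).filter fun h : ℕ => i - h = 0).card : ℤ) = 0 + 1)

/-- Sets of even vertices that meet every window in one or two points. -/
structure Win (lam : ℕ) (Q : ZMod ν → Prop) : Prop where
  even : ∀ i, Q i → Even i.val
  ex : ∀ i, ∃ h < lam, Q (i - h)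
  two : ∀ i, ∀ a b c : ℕ, a < b → b < c → c < lam → Q (i - a) → Q (i - b) → Q (i - c) → False

omit [NeZero ν] in
lemma Win.V {Q : ZMod ν → Prop} (h : Win lam Q) (i : ZMod ν) :
    Vw lam (ind Q) i = 1 ∨ Vw lam (ind Q) i = 1 + 1 := by
  rw [Vw_ind h.even]
  have h1 : 0 < ((range lam).filter fun c : ℕ => Q (i - c)).card := by
    obtain ⟨c, h1, h2⟩ := h.ex i
    exact card_pos.2 ⟨c, mem_filter.2 ⟨mem_range.2 h1, h2⟩⟩
  have h2 : ¬ 2 < ((range lam).filter fun c : ℕ => Q (i - c)).card := fun k => by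
    obtain ⟨a, b, c, ha, hb, hc, h3, h4, h5⟩ := two_lt_card_iff.1 k
    simp only [mem_filter, mem_range] at ha hb hc
    rcases lt_or_gt_of_ne h3 with k1 | k1 <;> rcases lt_or_gt_of_ne h4 with k2 | k2 <;>
      rcases lt_or_gt_of_ne h5 with k3 | k3
    exacts [h.two i a b c k1 k3 hc.1 ha.2 hb.2 hc.2, h.two i a c b k2 k3 hb.1 ha.2 hc.2 hb.2,
      by omega, h.two i c a b k2 k1 hb.1 hc.2 ha.2 hb.2, h.two i b a c k1 k2 hc.1 hb.2 ha.2 hc.2,
      by omega, h.two i b c a k3 k2 ha.1 hb.2 hc.2 ha.2, h.two i c b a k3 k1 ha.1 hc.2 hb.2 ha.2]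
  omega

lemma win_mul (hp : 1 ≤ p) (hl : 2 * p + 1 < ν) :
    Win (2 * p + 1) fun i : ZMod ν => 2 * p ∣ i.val := by
  refine ⟨fun i h => (even_iff_two_dvd.2 ((dvd_mul_right 2 p).trans h)), fun i => ?_,
    fun i a b c h1 h2 h3 ⟨x, hx⟩ ⟨y, hy⟩ ⟨z, hz⟩ => ?_⟩
  · have h1 := Nat.mod_lt i.val (show 0 < 2 * p by omega)
    have h2 := Nat.mod_le i.val (2 * p)
    have h3 := Nat.mod_add_div i.val (2 * p)
    have := val_sub_nat i (h := i.val % (2 * p)) (by omega)
    exact ⟨i.val % (2 * p), by omega, i.val / (2 * p), by omega⟩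
  · have key : ∀ x y : ℕ, 2 * p * x < 2 * p * y → 2 * p * x + 2 * p ≤ 2 * p * y := fun x y h =>
      Nat.mul_le_mul_left (2 * p) (Nat.lt_of_mul_lt_mul_left h)
    have := val_sub_nat i (h := a) (by omega)
    have := val_sub_nat i (h := b) (by omega)
    have := val_sub_nat i (h := c) (by omega)
    have := key y x
    have := key z y
    omega

lemma win_three (hp : 2 ≤ p) (hν : ν = 4 * p + 2) {c : ℕ} (hc : c ≤ 1) :
    Win (2 * p + 1) fun i : ZMod ν => i.val = 0 ∨ i.val = 2 * p ∨ i.val = 4 * p - 2 * c := by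
  refine ⟨fun i h => Nat.even_iff.2 (by omega), fun i => ?_, fun i a b c h1 h2 h3 k1 k2 k3 => ?_⟩
  · have := ZMod.val_lt i
    have key : ∀ v, v ≤ i.val → (i - (i.val - v : ℕ)).val = v := fun v hv => by
      have := val_sub_nat i (h := i.val - v) (by omega)
      omega
    by_cases h1 : i.val < 2 * p
    · exact ⟨i.val - 0, by omega, .inl (key _ (by omega))⟩
    by_cases h2 : i.val < 4 * p - 2 * c
    · exact ⟨i.val - 2 * p, by omega, .inr (.inl (key _ (by omega)))⟩
    · exact ⟨i.val - (4 * p - 2 * c), by omega, .inr (.inr (key _ (by omega)))⟩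
  · have := val_sub_nat i (h := a) (by omega)
    have := val_sub_nat i (h := b) (by omega)
    have := val_sub_nat i (h := c) (by omega)
    omega

/-- Comparison of two tilings with the same short edges. -/
lemma cmp (hν : Even ν) (hl : Odd lam) {Q : ZMod ν → Prop} (hQ : ∀ i, Q i → Even i.val)
    (h : Til 1 (lam : ZMod ν) (ind Q) I) (hJ : IsBit J)
    (h' : Til 1 (lam : ZMod ν) J I) : ∃ z : ZMod ν → ℤ, (∀ i, J i = ind Q i - sgn i * z i) ∧
      (∀ i, z (i - lam) = z i) ∧ (∀ i, 0 ≤ z i) ∧ (∀ i, z i ≤ ind Q i + ind Q (i - lam)) ∧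
      ∀ i, Vw lam J i = Vw lam (ind Q) i - ∑ h ∈ range lam, z (i - h) := by
  have ho : ∀ i, sgn i = -1 → ind Q i = 0 := fun i e => if_neg fun k => by
    rw [sgn, (hQ i k).neg_one_pow] at e
    omega
  refine ⟨fun i => sgn i * (ind Q i - J i), fun i => ?_, fun i => ?_, fun i => ?_, fun i => ?_,
    fun i => ?_⟩
  · rcases sgn_cases i with e | e <;> simp [e.1]
  · beta_reduce
    rw [sgn_odd hν hl]
    linear_combination sgn i * (h' i - h i)
  · have := h i; have := h' i; have := hJ i; have := hJ (i - lam); have := ho i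
    have := ho (i - lam); have := sgn_odd hν hl i
    rcases sgn_cases i with e | e <;> (beta_reduce; rw [e.1]) <;> omega
  · have := h i; have := h' i; have := hJ i; have := hJ (i - lam); have := ho i
    have := isBit_ind Q i; have := isBit_ind Q (i - lam)
    rcases sgn_cases i with e | e <;> (beta_reduce; rw [e.1]) <;> omega
  · simp only [Vw, mul_sub, sum_sub_distrib]
    ring

end Pool.Agent.Lib.MP_0287c7_lc
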