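import Pool.Agent.Lib.MP_0287c7_lc.QR3

/-! The first step: the exponent is an alternating sum, or a Gold exponent. -/

set_option autoImplicit false
open Classical Finset

namespace Pool.Agent.Lib.MP_0287c7_lc

variable {n e ν lam : ℕ} [NeZero n] [NeZero ν] {k : ZMod n}

/-- At most one long edge. -/
noncomputable def Jc (a0 a1 : ℤ) (i : ZMod ν) : ℤ :=
  a0 * ind (· = 0) i + a1 * ind (· = 0) (i - 1)

/-- The short edges that go with it. -/
noncomputable def Ic (lam : ℕ) (a0 a1 b0 b1 : ℤ) (i : ZMod ν) : ℤ :=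
  a0 * Io lam (ind (· = 0)) 0 i + a1 * Io lam (ind (· = 0)) 0 (i - 1) + b0 * Ev i + b1 * Ev (i - 1)

/-- Exactly one of four numbers is one. -/
def One (a0 a1 b0 b1 : ℤ) : Prop :=
  a0 = 1 ∧ a1 = 0 ∧ b0 = 0 ∧ b1 = 0 ∨ a0 = 0 ∧ a1 = 1 ∧ b0 = 0 ∧ b1 = 0 ∨
    a0 = 0 ∧ a1 = 0 ∧ b0 = 1 ∧ b1 = 0 ∨ a0 = 0 ∧ a1 = 0 ∧ b0 = 0 ∧ b1 = 1

variable {a0 a1 b0 b1 : ℤ}

lemma One.til (o : One a0 a1 b0 b1) (hν : Even ν) (hl : Odd lam) (hlν : lam < ν) :
    IsBit (Ic (ν := ν) lam a0 a1 b0 b1) ∧ IsBit (Jc (ν := ν) a0 a1) ∧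
      Til 1 (lam : ZMod ν) (Jc a0 a1) (Ic lam a0 a1 b0 b1) := by
  have t := til_Io hν hl (ind (· = 0)) 0
  refine ⟨fun i => ?_, fun i => ?_, fun i => ?_⟩
  · have := bit_T1 hlν i; have := bit_T1 hlν (i - 1); have := isBit_Ev i
    have := isBit_Ev (i - 1)
    rcases o with ⟨rfl, rfl, rfl, rfl⟩ | ⟨rfl, rfl, rfl, rfl⟩ | ⟨rfl, rfl, rfl, rfl⟩ |
      ⟨rfl, rfl, rfl, rfl⟩ <;> unfold Ic <;> omega
  · have := isBit_ind (· = 0) i; have := isBit_ind (· = 0) (i - 1)
    rcases o with ⟨rfl, rfl, -⟩ | ⟨rfl, rfl, -⟩ | ⟨rfl, rfl, -⟩ | ⟨rfl, rfl, -⟩ <;> unfold Jc <;>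
      omega
  · have s : a0 + a1 + b0 + b1 = 1 := by unfold One at o; omega
    simp only [Jc, Ic, sub_right_comm i (lam : ZMod ν) 1]
    linear_combination a0 * t i + a1 * t (i - 1) + b0 * Ev_one hν i + b1 * Ev_one hν (i - 1) + s

omit [NeZero ν] in
lemma single {K : ZMod ν → ℤ} (hK : IsBit K) (y l : ZMod ν)
    (h : ∀ i, K i + K (i - l) = ind (· = 0) (i - y) + ind (· = 0) (i - y - l)) :
    (∀ i, K i = ind (· = 0) (i - y)) ∨ l + l = 0 ∧ ∀ i, K i = ind (· = 0) (i - y - l) := by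
  have h1 := h y
  have h2 := h (y + l)
  have h3 := h (y - l)
  have := hK y; have := hK (y - l); have := hK (y + l); have := hK (y - l - l)
  simp only [ind, sub_self, add_sub_cancel_left, add_sub_cancel_right, sub_sub_cancel_left,
    if_true, zero_sub, neg_eq_zero, ← neg_add'] at h1 h2 h3
  have h4 : ∀ i, i - y ≠ 0 → i - y - l ≠ 0 → K i = 0 := fun i a b => by
    have := h i; have := hK i; have := hK (i - l)
    simp only [ind, if_neg a, if_neg b] at *
    omega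
  by_cases k : K (y - l) = 0
  · refine .inl fun i => ?_
    by_cases a : i - y = 0
    · rw [a, sub_eq_zero.1 a, ind, if_pos rfl]
      split_ifs at h1 <;> omega
    by_cases b : i - y - l = 0
    · rw [ind, if_neg a, show i = y + l by linear_combination b]
      rw [if_neg fun e => a (by linear_combination b + e)] at h1 h2
      omega
    · rw [h4 i a b, ind, if_neg a]
  · have hl : l + l = 0 := by
      by_contra a
      rw [if_neg a, if_neg fun e => a (by simp [e])] at h3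
      omega
    refine .inr ⟨hl, fun i => ?_⟩
    by_cases b : i - y - l = 0
    · rw [ind, if_pos b, show i = y - l by linear_combination b + hl]
      omega
    by_cases a : i - y = 0
    · rw [ind, if_neg b, sub_eq_zero.1 a]
      rw [if_neg fun e => b (by linear_combination a - e)] at h1
      omega
    · rw [h4 i a b, ind, if_neg b]

lemma One.cases (o : One a0 a1 b0 b1) (hν : Even ν) (hl : Odd lam) (hlν : lam < ν)
    {K : ZMod ν → ℤ} (hK : IsBit K) (t : Til 1 (lam : ZMod ν) K (Ic lam a0 a1 b0 b1)) :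
    K = Jc a0 a1 ∨ ν = lam + lam ∧ K = fun i => Jc a0 a1 (i - (lam : ZMod ν)) := by
  have h : ∀ i, K i + K (i - lam) = Jc a0 a1 i + Jc a0 a1 (i - (lam : ZMod ν)) := fun i => by
    linear_combination t i - (o.til hν hl hlν).2.2 i
  have key : ∀ y, (∀ i : ZMod ν, Jc a0 a1 i = ind (· = 0) (i - y)) →
      K = Jc a0 a1 ∨ ν = lam + lam ∧ K = fun i => Jc a0 a1 (i - (lam : ZMod ν)) := fun y hy => by
    simp only [hy, funext_iff, sub_right_comm _ (lam : ZMod ν) y] at h ⊢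
    refine (single hK y lam h).imp_right fun a => ⟨?_, a.2⟩
    obtain ⟨c, hc⟩ := (ZMod.natCast_eq_zero_iff (lam + lam) ν).1 (by rw [Nat.cast_add, a.1])
    have := hl.pos
    rcases c with _ | _ | c
    · omega
    · omega
    · nlinarith
  rcases o with ⟨rfl, rfl, -⟩ | ⟨rfl, rfl, -⟩ | ⟨rfl, rfl, -⟩ | ⟨rfl, rfl, -⟩
  · exact key 0 fun i => by simp [Jc]
  · exact key 1 fun i => by simp [Jc]
  all_goals
    refine .inl (funext fun i => ?_)
    have := h i; have := hK i; have := hK (i - lam)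
    simp only [Jc, zero_mul, add_zero] at *
    omega

section Ring
variable {R : Type} [CommRing R] {σ δ : R}

lemma ev_Jc (hσ : σ ^ ν = 1) (a0 a1 : ℤ) : ev σ (Jc (ν := ν) a0 a1) = a0 + a1 * σ := by
  have e : ev σ (ind (· = (0 : ZMod ν))) = 1 := by simp [ev, ind]
  unfold Jc
  rw [ev_add, ev_mul, ev_mul, ev_sub_one hσ, e, mul_one, mul_one]

lemma One.val (o : One a0 a1 b0 b1) (hν : Even ν) (hσ : σ ^ ν = 1) (hδ : σ * δ = -δ) :
    2 * ((D0 σ lam + δ) * ev σ (Jc (ν := ν) a0 a1) + ev σ (Ic (ν := ν) lam a0 a1 b0 b1)) =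
      2 * ev σ (Ev (ν := ν)) + eta ν σ - ((a0 - a1) * (eta ν σ - 2 * δ) + (b0 - b1) * eta ν σ) := by
  have e := ev_Io hν hσ lam (ind (· = 0)) 0
  have s : ((a0 + a1 + b0 + b1 : ℤ) : R) = (1 : ℤ) := congrArg _ (by unfold One at o; omega)
  rw [show ev σ (ind (· = (0 : ZMod ν))) = 1 by simp [ev, ind]] at e
  unfold Ic
  rw [ev_Jc hσ, ev_add, ev_add, ev_add, ev_mul, ev_mul, ev_mul, ev_mul, ev_sub_one hσ,
    ev_sub_one hσ]
  push_cast at e s
  linear_combination 2 * (a0 + a1 * σ) * e + 2 * (a1 + b1) * mul_Ev hν hσ + 2 * a1 * hδ +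
    (2 * ev σ (Ev (ν := ν)) + eta ν σ) * s

lemma half (hl : Odd lam) (hν : ν = lam + lam) (hδ : σ * δ = -δ) :
    (D0 σ lam + δ) * σ ^ lam = D0 σ lam + δ + (eta ν σ - 2 * δ) := by
  have e := ann_pow hδ lam
  rw [eta_eq, D0, D0, hν, sum_range_add]
  simp only [pow_add, ← mul_sum]
  rw [hl.neg_pow] at e ⊢
  simp only [one_pow] at e
  linear_combination e

end Ring

lemma ev_half [NeZero (2 * e)] (a : ZMod (2 * e) → ℤ) :
    ev (2 : ZMod (2 ^ e + 1)) a =
      ((∑ ρ : Fin e, 2 ^ ρ.val * (a ρ.val - a (ρ.val - (e : ZMod (2 * e)))) : ℤ)) := by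
  have e1 : ev (2 : ZMod (2 ^ e + 1)) a = ∑ i ∈ range (e + e), (a i : ZMod (2 ^ e + 1)) * 2 ^ i := by
    rw [← two_mul, ← sum_zmod fun i => (a i : ZMod (2 ^ e + 1)) * 2 ^ i]
    simp [ev]
  rw [e1, sum_range_add, ← sum_add_distrib,
    Fin.sum_univ_eq_sum_range fun i => (2 : ℤ) ^ i * (a i - a (i - (e : ZMod (2 * e))))]
  push_cast
  refine sum_congr rfl fun i _ => ?_
  rw [pow_add, two_pow_m, show (e : ZMod (2 * e)) + i = i - e by linear_combination mm_add rfl]
  ring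

namespace Co

variable (h : Co e ν k)
include h

lemma zt (z : ℤ) : (z : ZMod (2 ^ e + 1)) = 0 ↔ z * eta ν ((2 : RN n) ^ k.val) = 0 := by
  rw [h.eta_dvd, ZMod.intCast_zmod_eq_zero_iff_dvd]
  simp

lemma tot [NeZero (2 * e)] (a b : ZMod (2 * e) → ℤ) (φ : Fin e → RN n) (c : ℤ)
    (hφ : ∀ ρ, 2 * φ ρ = 2 * ev (2 ^ k.val) (Ev (ν := ν)) + eta ν (2 ^ k.val) -
      (((a ρ.val : ℤ) - (a (ρ.val - (e : ZMod (2 * e))) : ℤ)) *
        (eta ν (2 ^ k.val) - 2 * (c * eta ν (2 ^ k.val))) +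
      ((b ρ.val : ℤ) - (b (ρ.val - (e : ZMod (2 * e))) : ℤ)) * eta ν (2 ^ k.val))) :
    ∑ ρ, 2 ^ ρ.val * φ ρ = 0 ↔ ((1 - 2 * c : ℤ) : ZMod (2 ^ e + 1)) * ev 2 a + ev 2 b = 0 := by
  rw [ev_half, ev_half, ← Int.cast_mul, ← Int.cast_add, h.zt, ← neg_eq_zero]
  refine ⟨fun t => ?_, fun t => two_cancel ?_⟩ <;>
  · have s := sum_congr (rfl (a := univ)) fun (ρ : Fin e) _ => congrArg (2 ^ ρ.val * ·) (hφ ρ)
    simp only [mul_sub (2 ^ _ : RN n) (_ + _), mul_add (2 ^ _ : RN n), sum_sub_distrib,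
      sum_add_distrib, mul_left_comm (2 ^ _ : RN n) 2, ← mul_assoc (2 ^ _ : RN n), ← sum_mul,
      ← mul_sum] at s
    have := h.sum_Ev
    have := h.sum_eta
    simp only [← sum_mul] at *
    push_cast at *
    grind

variable {F : Type} [Field F] [CharP F 2] {D : RN n} {χ : AddChar (RN n) F}
  (c : Cr D k (lam * k) χ) (hl : Odd lam) (hlν : lam < ν)
include c hl hlν

lemma generic {z : ℤ} (hD : D = D0 (2 ^ k.val) lam + z * eta ν (2 ^ k.val))
    (h0 : ((1 - 2 * z : ℤ) : ZMod (2 ^ e + 1)) ≠ 0) (h1 : ((1 - 2 * z : ℤ) : ZMod (2 ^ e + 1)) ≠ 1)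
    (h2 : ((1 - 2 * z : ℤ) : ZMod (2 ^ e + 1)) ≠ -1) : False := by
  have he := h.e_pos
  have : NeZero (2 * e) := ⟨by omega⟩
  have hδ : 2 ^ k.val * (z * eta ν ((2 : RN n) ^ k.val)) = -(z * eta ν (2 ^ k.val)) := by
    linear_combination z * mul_eta h.hν h.pow_nu
  generalize hτ : ((1 - 2 * z : ℤ) : ZMod (2 ^ e + 1)) = τ at h0 h1 h2
  have he2 : 2 ≤ e := by
    by_contra h3
    obtain rfl : e = 1 := by omega
    have : ∀ ε : ZMod (2 ^ 1 + 1), ε ≠ 0 → ε ≠ 1 → ε ≠ -1 → False := by decide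
    exact this τ h0 h1 h2
  obtain ⟨β, ⟨a, b, hv, hr, hb0, rfl⟩, hmax⟩ := Int.exists_greatest_of_bdd
    (P := fun β => ∃ a b : ZMod (2 * e) → ℤ, Valid e a b ∧ τ * ev 2 a + ev 2 b = 0 ∧
      ev (2 : ZMod (2 ^ e + 1)) b ≠ 0 ∧ ∑ x, b x = β)
    ⟨e, by
      rintro z ⟨a, b, hv, _, _, rfl⟩
      have := hv.sum rfl
      have h1 : 0 ≤ ∑ x, a x := sum_nonneg fun x _ => by rcases hv.ha x with h | h <;> omega
      omega⟩
    (by
      obtain ⟨a, b, h1, h2, h3⟩ := exists_valid (n := 2 * e) rfl h0 h1 h2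
      exact ⟨_, a, b, h1, h2, h3, rfl⟩)
  have o : ∀ x, One (a x) (a (x - e)) (b x) (b (x - e)) := fun x => by
    have := hv.eq x; have := hv.ha x; have := hv.ha (x - e); have := hv.hb x
    have := hv.hb (x - e)
    unfold One col at *
    omega
  let J : Fin e → ZMod ν → ℤ := fun ρ => Jc (a ρ.val) (a (ρ.val - e))
  let I : Fin e → ZMod ν → ℤ := fun ρ => Ic lam (a ρ.val) (a (ρ.val - e)) (b ρ.val) (b (ρ.val - e))
  let r : ZMod (2 * e) → Fin e := fun x => ⟨x.val % e, Nat.mod_lt _ he⟩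
  have r1 : ∀ ρ : Fin e, r ρ.val = ρ := fun ρ => Fin.ext (by
    simp only [r]
    rw [ZMod.val_cast_of_lt (by omega), Nat.mod_eq_of_lt ρ.2])
  have r2 : ∀ x, r (x - e) = r x := fun x => Fin.ext (by
    simp only [r]
    rw [← Nat.add_mod_right]
    rcases val_sub_nat x (h := e) (by omega) with a | a <;> rw [a.2]
    simp)
  refine (h.pair c (J := J) (J' := J) (I := I) (fun ρ => ((o _).til h.hν hl hlν).1) ?_
    ⟨fun ρ => ((o _).til h.hν hl hlν).2, ?_⟩ fun K hK => .inl (funext fun ρ => ?_)).1 rfl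
  · by_contra a0
    refine hb0 ?_
    rw [ev_half, sum_eq_zero, Int.cast_zero]
    intro ρ _
    have t : ∀ i, I ρ i = 0 := fun i => (((o _).til h.hν hl hlν).1 i).resolve_right fun e =>
      a0 ⟨ρ, i, e⟩
    have t0 := t 0
    have t1 := t 1
    simp only [I, Ic, sub_self, Ev_zero] at t0 t1
    rcases o ρ.val with u | u | u | u <;> simp only [u.1, u.2.1, u.2.2.1, u.2.2.2] at t0 t1 ⊢ <;>
      omega
  · rw [h.tot a b _ z fun ρ => hD ▸ (o _).val h.hν h.pow_nu hδ, hτ, hr]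
  · let a' : ZMod (2 * e) → ℤ := fun x => if K (r x) = J (r x) then a x else a (x - e)
    have hc := fun ρ => (o (ρ : Fin e).val).cases h.hν hl hlν (hK.1 ρ).1 (hK.1 ρ).2
    have e1 : a' = a := niho_unique rfl he2 τ hv hr hb0
      (fun a' b' v r e => hmax _ ⟨a', b', v, r, e, rfl⟩)
      ⟨fun x => by simp only [a']; split_ifs <;> apply hv.ha, hv.hb, fun x => by
        have := hv.eq x
        simp only [col, a', r2, sub_mm rfl] at this ⊢
        split_ifs <;> omega⟩ (by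
      rw [← hτ, ← h.tot a' b _ z fun ρ => ?_]
      · exact hK.2
      have v := (o ρ.val).val (lam := lam) h.hν h.pow_nu hδ
      simp only [a', r1, r2, sub_mm rfl]
      split_ifs with u
      · rw [u, hD, v]
      · obtain ⟨u1, u2⟩ := (hc ρ).resolve_left u
        have w := half hl u1 hδ
        rw [u2, ev_sub_nat h.pow_nu, hD]
        rw [ev_Jc h.pow_nu] at v ⊢
        linear_combination v + 2 * (a ρ.val + a (ρ.val - e) * 2 ^ k.val) * w +
          2 * a (ρ.val - e) * (1 - 2 * z) * mul_eta h.hν h.pow_nu)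
    by_contra u
    have e2 := congrFun e1 ρ.val
    simp only [a', r1, if_neg u] at e2
    have := o ρ.val
    have e3 : a ρ.val = 0 := by unfold One at this; omega
    refine u (((hc ρ).resolve_left u).2.trans (funext fun i => ?_))
    simp [J, Jc, e2, e3]

theorem step1 : D = D0 (2 ^ k.val) lam ∨ D = D0 (2 ^ k.val) lam + eta ν (2 ^ k.val) ∨
    2 * D = 1 + 2 ^ ((lam : ZMod n) * k).val := by
  have H := c.H
  rw [pow_mul_val] at H ⊢
  obtain ⟨z, hz⟩ := h.ann (x := D - D0 (2 ^ k.val) lam) (by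
    linear_combination H - D0_mul ((2 : RN n) ^ k.val) hl)
  have hD : D = D0 (2 ^ k.val) lam + z * eta ν (2 ^ k.val) := by linear_combination hz
  have hδ : 2 ^ k.val * (z * eta ν ((2 : RN n) ^ k.val)) = -(z * eta ν (2 ^ k.val)) := by
    linear_combination z * mul_eta h.hν h.pow_nu
  by_cases h1 : ((1 - 2 * z : ℤ) : ZMod (2 ^ e + 1)) = 1
  · have := (h.zt (2 * z)).1 (by push_cast at h1 ⊢; linear_combination -h1)
    push_cast at this
    exact .inl (sub_eq_zero.1 (two_cancel (by linear_combination this + 2 * hD)))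
  by_cases h2 : ((1 - 2 * z : ℤ) : ZMod (2 ^ e + 1)) = -1
  · have := (h.zt (2 * z - 2)).1 (by push_cast at h2 ⊢; linear_combination -h2)
    push_cast at this
    exact .inr (.inl (sub_eq_zero.1 (two_cancel (by linear_combination this + 2 * hD))))
  have h0 := (h.zt _).1 (by_contra fun h0 => h.generic c hl hlν hD h0 h1 h2)
  push_cast at h0
  refine .inr (.inr (by_contra fun hG => ?_))
  by_cases h3 : ν = lam + lam
  · have h4 : D * (2 ^ k.val) ^ lam = D := by
      rw [hD]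
      linear_combination half hl h3 hδ + h0
    have h5 : (lam : ZMod n) * k + lam * k = 0 := by rw [← add_mul, ← Nat.cast_add, ← h3, h.nu_k]
    refine c.caseA (fun Δ hΔ => two_cancel ?_) (fun a => c.odd_ne odd_one (by simp [a]))
      fun i ⟨j, hj⟩ a => hG ?_
    · have := congrArg (ev (2 : RN n)) (funext hΔ)
      rw [ev_add, ev_shift two_n, pow_mul_val, show (fun _ => 0) = (0 : ZMod n → ℤ) from rfl,
        ev_zero] at this
      linear_combination D * this - ev 2 Δ * h4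
    · have e1 : (lam : ZMod n) * k = k := by
        rw [hj] at a
        push_cast at a
        linear_combination -a - j * h5
      rw [← pow_mul_val, e1] at h4 H ⊢
      linear_combination H - h4
  · have o : One 1 0 0 0 := .inl ⟨rfl, rfl, rfl, rfl⟩
    have t := o.til h.hν hl hlν
    refine (h.pair c (J := fun _ => Jc 1 0) (J' := fun _ => Jc 1 0) (I := fun _ => Ic lam 1 0 0 0)
      (fun _ => t.1) ⟨⟨0, h.e_pos⟩, by_contra fun a => ?_⟩ ⟨fun _ => t.2, two_cancel ?_⟩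
      fun K hK => .inl (funext fun ρ =>
        (o.cases h.hν hl hlν (hK.1 ρ).1 (hK.1 ρ).2).resolve_right fun a => h3 a.1)).1 rfl
    · have s := t.2.2.sum
      rw [sum_eq_zero (f := Ic lam 1 0 0 0) fun i _ => (t.1 i).resolve_right fun e => a ⟨i, e⟩] at s
      simp [Jc, ind] at s
      have := hl.pos
      omega
    · have v := o.val (lam := lam) h.hν h.pow_nu hδ
      have s1 := h.sum_Ev
      have s2 := h.sum_eta
      rw [← hD] at v
      rw [← sum_mul] at s1 s2 ⊢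
      push_cast at v
      linear_combination (∑ i : Fin e, 2 ^ i.val) * (v - h0) + 2 * s1 + s2

end Co

end Pool.Agent.Lib.MP_0287c7_lc
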