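import Pool.Agent.Lib.MP_0287c7_lc.QR4

/-! The second step: alternating sums are bent only in the Kasami case. -/

set_option autoImplicit false
open Classical Finset

namespace Pool.Agent.Lib.MP_0287c7_lc

variable {n e ν lam p : ℕ} [NeZero n] [NeZero ν] {k : ZMod n} {Q : ZMod ν → Prop}

omit [NeZero ν] in
lemma Win.sum_le (h : Win lam Q) (i : ZMod ν) : ∑ c ∈ range lam, ind Q (i - (c : ZMod ν)) ≤ 2 := by
  have := h.V i
  rw [Vw_ind h.even, card_filter] at this
  push_cast at this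
  unfold ind
  omega

omit [NeZero ν] in
lemma zero_of_sum {z : ZMod ν → ℤ} (hl : 0 < lam) (h0 : ∀ i, 0 ≤ z i) (i : ZMod ν)
    (h : ∑ c ∈ range lam, z (i - (c : ZMod ν)) ≤ 0) : z i = 0 := by
  have := single_le_sum (f := fun c : ℕ => z (i - (c : ZMod ν))) (fun c _ => h0 _) (mem_range.2 hl)
  have := h0 i
  simp only [Nat.cast_zero, sub_zero] at *
  omega

lemma rigid (hν : Even ν) (hp : 2 ≤ p) (hl : 2 * p + 1 < ν) (h2 : ν ≠ 4 * p + 2) {z : ZMod ν → ℤ}
    (z1 : ∀ i, z (i - (2 * p + 1 : ℕ)) = z i) (z2 : ∀ i, 0 ≤ z i)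
    (z3 : ∀ i, z i ≤ ind (fun i : ZMod ν => 2 * p ∣ i.val) i +
      ind (fun i : ZMod ν => 2 * p ∣ i.val) (i - (2 * p + 1 : ℕ))) (i : ZMod ν) : z i = 0 := by
  have so := sgn_odd hν (odd_two_mul_add_one p)
  have hQ : ∀ i, z i ≠ 0 ∧ sgn i = 1 → 2 * p ∣ i.val := fun i a => by
    have := z2 i; have b := z3 i
    by_contra c
    rw [ind, if_neg c, ind, if_neg fun d => ?_] at b
    · omega
    · have := so i
      rw [sgn, ((win_mul (by omega) hl).even _ d).neg_one_pow] at this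
      omega
  by_contra a
  obtain ⟨j, hj, hm⟩ := exists_min_image (univ.filter fun i => z i ≠ 0 ∧ sgn i = 1) ZMod.val (by
    rcases sgn_cases i with b | b
    · exact ⟨i, mem_filter.2 ⟨mem_univ _, a, b.1⟩⟩
    · exact ⟨_, mem_filter.2 ⟨mem_univ _, z1 i ▸ a, by rw [so, b.1]; rfl⟩⟩)
  simp only [mem_filter, mem_univ, true_and] at hj hm
  have key : ∀ s < ν, 0 < s → z (j - s) ≠ 0 ∧ sgn (j - (s : ZMod ν)) = 1 → 2 * p ∣ ν - s :=
    fun s s1 s2 b => by
      have := hm _ b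
      have := val_sub_nat j s1
      exact (Nat.dvd_add_right (hQ j hj)).1
        ((by omega : (j - (s : ZMod ν)).val = j.val + (ν - s)) ▸ hQ _ b)
  obtain ⟨s, s1, s2, s3, s4⟩ : ∃ s < ν, 0 < s ∧ (s = 4 * p + 2 ∨ s + ν = 4 * p + 2) ∧
      (s : ZMod ν) = (2 * p + 1 : ℕ) + (2 * p + 1 : ℕ) := by
    by_cases b : 4 * p + 2 < ν
    · exact ⟨_, b, by omega, .inl rfl, by push_cast; ring⟩
    · refine ⟨4 * p + 2 - ν, by omega, by omega, by omega, ?_⟩
      rw [Nat.cast_sub (by omega), ZMod.natCast_self]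
      push_cast
      ring
  obtain ⟨x, hx⟩ := key s s1 s2 (by rw [s4, ← sub_sub, z1, z1, so, so, neg_neg]; exact hj)
  obtain ⟨y, hy⟩ := key (ν - s) (by omega) (by omega) (by
    rw [← z1, ← z1, ← neg_neg (sgn _), ← so, ← so, sub_sub, sub_sub, ← s4, ← Nat.cast_add,
      Nat.sub_add_cancel s1.le, ZMod.natCast_self, sub_zero]
    exact hj)
  have : 2 * p ∣ 2 := by
    rcases s3 with b | b
    · exact (Nat.dvd_add_right (b := 4 * p) ⟨2, by ring⟩).1 ⟨y, by omega⟩
    · exact (Nat.dvd_add_right (b := 4 * p) ⟨2, by ring⟩).1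
        ⟨x + y + y, by rw [mul_add, mul_add]; omega⟩
  have := Nat.le_of_dvd two_pos this
  omega

lemma ev_three {R : Type} [CommRing R] (β : R) (hp : 2 ≤ p) (hν : ν = 4 * p + 2) {c : ℕ}
    (hc : c ≤ 1) : ev β (ind fun i : ZMod ν => i.val = 0 ∨ i.val = 2 * p ∨ i.val = 4 * p - 2 * c) =
      1 + β ^ (2 * p) + β ^ (4 * p - 2 * c) := by
  have key : ∀ v < ν, ev β (fun x : ZMod ν => if x.val = v then 1 else 0) = β ^ v := fun v hv => by
    rw [← ZMod.val_cast_of_lt hv, ← ev_single]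
    simp only [ZMod.val_injective ν |>.eq_iff]
  rw [← pow_zero β, ← key 0 (by omega), ← key _ (by omega), ← key _ (by omega), ← ev_add, ← ev_add]
  refine congrArg _ (funext fun x => ?_)
  unfold ind
  split_ifs <;> omega

lemma sum_sgn (hν : Even ν) (h2 : ν = lam + lam) {J : ZMod ν → ℤ} {w : ℤ} (h : 0 = Io lam J w) :
    ∑ i, sgn i * J i = 2 * w + 1 := by
  have e1 := Til.sum (k := 1) (l := 0) (J := 0) (I := Ev (ν := ν)) fun i => by
    simpa using Ev_one hν i
  have e2 : ∑ i, Vw lam J i = ∑ i : ZMod ν, (w + Ev i) := sum_congr rfl fun i _ => by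
    have := congrFun h i
    rcases sgn_cases i with a | a <;> simp only [Io, a.1, a.2, Pi.zero_apply] at this ⊢ <;> omega
  rw [sum_Vw, sum_add_distrib] at e2
  simp only [sum_const, card_univ, ZMod.card, nsmul_eq_mul, Pi.zero_apply, mul_zero] at e1 e2
  have e3 : (ν : ℤ) = lam + lam := by exact_mod_cast h2
  have := NeZero.ne ν
  exact mul_left_cancel₀ (show (2 * lam : ℤ) ≠ 0 by omega) (by
    linear_combination 2 * e2 + e1 + (2 * w + 1) * e3)

namespace Co

variable (h : Co e ν k)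
include h

lemma phi (ρ0 : Fin e) (h0 : ρ0.val = 0) (K : ZMod ν → ℤ) (w : ℤ) :
    ∑ ρ : Fin e, 2 ^ ρ.val * (D0 (2 ^ k.val) lam * ev (2 ^ k.val) (if ρ = ρ0 then K else 0) +
      ev ((2 : RN n) ^ k.val) (if ρ = ρ0 then Io lam K w else Ev)) = 0 ↔ (2 ^ e + 1) ∣ 1 - w := by
  rw [← h.eta_dvd, Fintype.sum_congr _ (fun ρ : Fin e => 2 ^ ρ.val * ev (2 ^ k.val) (Ev (ν := ν)) -
    if ρ = ρ0 then w * eta ν ((2 : RN n) ^ k.val) else 0) fun ρ => ?_, sum_sub_distrib, h.sum_Ev]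
  · simp [sub_mul]
  · split_ifs with a
    · rw [ev_Io h.hν h.pow_nu, a, h0]
      ring
    · simp [ev_zero]

variable {F : Type} [Field F] [CharP F 2] {χ : AddChar (RN n) F}

lemma win (c : Cr (D0 (2 ^ k.val) lam) k (lam * k) χ) (hl : Odd lam) (hQ : Win lam Q)
    (h0 : 2 ≤ e ∨ ∃ i, ¬ Q i ∧ ¬ Q (i - lam)) (J' : ZMod ν → ℤ)
    (hu : ∀ (z : ZMod ν → ℤ) (Z : ℤ), (∀ i, z (i - lam) = z i) → (∀ i, 0 ≤ z i) →
      (∀ i, z i ≤ ind Q i + ind Q (i - lam)) → (∀ i, ∑ c ∈ range lam, z (i - (c : ZMod ν)) = Z) →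
      (2 ^ e + 1) ∣ Z → (∀ i, z i = 0) ∨ ∀ i, ind Q i - sgn i * z i = J' i) :
    J' ≠ ind Q ∧ χ (ev (2 ^ k.val) (ind Q)) = χ (ev (2 ^ k.val) J') := by
  let ρ0 : Fin e := ⟨0, h.e_pos⟩
  have t := til_Io h.hν hl (ind Q) 1
  have b := isBit_Io hQ.V
  have e1 : ∀ K : ZMod ν → ℤ, evF ((2 : RN n) ^ k.val) (fun ρ => if ρ = ρ0 then K else 0) =
      ev (2 ^ k.val) K := fun K => by
    rw [evF, sum_eq_single ρ0 (fun ρ _ a => by simp [a, ev_zero]) (by simp)]
    simp [ρ0]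
  have := h.pair c (J := fun ρ => if ρ = ρ0 then ind Q else 0)
    (J' := fun ρ => if ρ = ρ0 then J' else 0)
    (I := fun ρ => if ρ = ρ0 then Io lam (ind Q) 1 else Ev)
    (fun ρ => by split_ifs; exacts [b, isBit_Ev]) ?_
    ⟨fun ρ => ?_, (h.phi ρ0 rfl _ _).2 (by simp)⟩ fun K hK => ?_
  · exact ⟨fun a => this.1 (by rw [a]), by simpa only [e1] using this.2⟩
  · rcases h0 with a | ⟨i, a1, a2⟩
    · exact ⟨⟨1, a⟩, 0, by simp [ρ0, Ev_zero]⟩
    · have := t i
      rw [ind, if_neg a1, ind, if_neg a2] at this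
      rcases b i with a | a
      · exact ⟨ρ0, i - 1, by simp only [if_true]; omega⟩
      · exact ⟨ρ0, i, by simpa using a⟩
  · beta_reduce
    split_ifs
    · exact ⟨isBit_ind Q, t⟩
    · exact ⟨fun _ => .inl rfl, fun i => by simpa using Ev_one h.hν i⟩
  · have eK : K = fun ρ => if ρ = ρ0 then K ρ0 else 0 := funext fun ρ => by
      split_ifs with a
      · rw [a]
      · refine funext fun i => ?_
        have := (hK.1 ρ).2 i; have := (hK.1 ρ).1 i; have := (hK.1 ρ).1 (i - lam)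
        have := Ev_one h.hν i
        simp only [if_neg a, Pi.zero_apply] at *
        omega
    have t' : Til 1 (lam : ZMod ν) (K ρ0) (Io lam (ind Q) 1) := by simpa using (hK.1 ρ0).2
    obtain ⟨w, hw⟩ := t'.exists_w h.hν hl
    obtain ⟨z, z0, z1, z2, z3, z4⟩ := cmp h.hν hl hQ.even t (hK.1 ρ0).1 t'
    have s := hK.2
    rw [eK] at s
    simp only [hw] at s
    refine (hu z (1 - w) z1 z2 z3 (fun i => ?_) ((h.phi ρ0 rfl _ _).1 s)).imp (fun a => ?_)
      fun a => ?_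
    · have := congrFun hw i
      have := z4 i
      rcases sgn_cases i with a | a <;> simp only [Io, a.1] at * <;> omega
    · rw [eK, show K ρ0 = ind Q from funext fun i => by rw [z0, a, mul_zero, sub_zero]]
    · rw [eK, show K ρ0 = J' from funext fun i => by rw [z0, a]]

end Co

/-- The kernel of an additive character of the ring of exponents. -/
def kerI {F : Type} [Field F] (χ : AddChar (RN n) F) : Ideal (RN n) where
  carrier := {x | χ x = 1}
  add_mem' {x y} hx hy := by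
    rw [Set.mem_ofPred_eq] at *
    rw [AddChar.map_add_eq_mul, hx, hy, mul_one]
  zero_mem' := χ.map_zero_eq_one
  smul_mem' a x hx := by
    obtain ⟨z, rfl⟩ := ZMod.intCast_surjective a
    rw [Set.mem_ofPred_eq] at *
    rw [smul_eq_mul, ← zsmul_eq_mul, AddChar.map_zsmul_eq_zpow, hx, one_zpow]

omit [NeZero n] in
lemma kerI_iff {F : Type} [Field F] (χ : AddChar (RN n) F) (x y : RN n) :
    Ideal.Quotient.mk (kerI χ) x = Ideal.Quotient.mk (kerI χ) y ↔ χ x = χ y := by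
  rw [Ideal.Quotient.eq, ← div_eq_one_iff_eq (Cr.chi_ne χ y), ← AddChar.map_sub_eq_div]
  rfl

namespace Co

variable {F : Type} [Field F] [CharP F 2] {χ : AddChar (RN n) F}

lemma last (h : Co 1 ν k) (c : Cr (D0 (2 ^ k.val) (2 * p + 1)) k ((2 * p + 1 : ℕ) * k) χ)
    (hp : 2 ≤ p) (hν : ν = 4 * p + 2) : False := by
  have hl := odd_two_mul_add_one p
  have h2 : ν = 2 * p + 1 + (2 * p + 1) := by omega
  let π := Ideal.Quotient.mk (kerI χ)
  have key : ∀ c ≤ 1, (π (2 ^ k.val) ^ (2 * p + 1) - 1) *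
      (1 + π (2 ^ k.val) ^ (2 * p) + π (2 ^ k.val) ^ (4 * p - 2 * c)) = 0 := fun c' hc => by
    have hQ := win_three hp hν hc
    have e3 := ev_three (1 : ℤ) hp hν hc
    have e5 := ev_three ((2 : RN n) ^ k.val) hp hν hc
    have e6 := val_sub_nat (2 : ℕ) (ν := ν) (h := 2 * p + 1) (by omega)
    have e7 := ZMod.val_cast_of_lt (show 2 < ν by omega)
    have e8 := h.win c hl hQ (.inr ⟨(2 : ℕ), by omega, by omega⟩)
    generalize (fun i : ZMod ν => i.val = 0 ∨ i.val = 2 * p ∨ i.val = 4 * p - 2 * c') = Q at *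
    refine (fun this => ?_) (e8 (fun i => ind Q (i - ((2 * p + 1 : ℕ) : ZMod ν)))
      fun z Z z1 z2 z3 z4 z5 => ?_).2
    · rw [ev_sub_nat h.pow_nu, e5, ← kerI_iff] at this
      simp only [map_add, map_mul, map_pow (Ideal.Quotient.mk (kerI χ)) (2 ^ k.val), map_one] at this
      linear_combination -this
    · have e4 : ∀ i : ZMod ν, ∑ c ∈ range (2 * p + 1), (ind Q (i - (c : ZMod ν)) +
          ind Q (i - c - (2 * p + 1 : ℕ)) - z (i - c)) = 3 - Z := fun i => by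
        have := Equiv.sum_comp (Equiv.subLeft i) (ind Q)
        rw [sum_zmod', congrArg range h2, sum_range_add] at this
        simp only [ev, one_pow, mul_one, Int.cast_id] at e3
        simp only [Equiv.subLeft_apply, add_comm (2 * p + 1), Nat.cast_add _ (2 * p + 1),
          ← sub_sub] at this
        rw [sum_sub_distrib, sum_add_distrib, z4, this, e3]
        rfl
      have z6 : 0 ≤ Z := z4 0 ▸ sum_nonneg fun _ _ => z2 _
      have z7 : 0 ≤ 3 - Z := e4 0 ▸ sum_nonneg fun _ _ => sub_nonneg.2 (z3 _)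
      by_cases a : Z = 0
      · exact .inl fun i => zero_of_sum hl.pos z2 i (by rw [z4, a])
      refine .inr fun i => ?_
      have := zero_of_sum (z := fun i => ind Q i + ind Q (i - (2 * p + 1 : ℕ)) - z i) hl.pos
        (fun i => sub_nonneg.2 (z3 i)) i (by rw [e4]; omega)
      have ho : ∀ i, sgn i = -1 → ind Q i = 0 := fun i e => if_neg fun k => by
        rw [sgn, (hQ.even i k).neg_one_pow] at e
        omega
      have := ho i; have := ho (i - (2 * p + 1 : ℕ)); have := sgn_odd h.hν hl i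
      rcases sgn_cases i with e | e <;> rw [e.1] <;> omega
  have k0 := key 0 zero_le_one
  have k1 := key 1 le_rfl
  have k2 : π (2 ^ k.val) ^ (4 * p + 2) = 1 := by rw [← map_pow, ← hν, h.pow_nu, map_one]
  have k3 : ∀ J : ZMod ν → ℤ, π (ev (2 ^ k.val) J) = ev (π (2 ^ k.val)) J := fun J => by
    simp only [ev, map_sum, map_mul, map_intCast, map_pow π (2 ^ k.val)]
  have k4 : ∀ x, π (2 ^ ((2 * p + 1 : ℕ) * k).val * x) = π (2 ^ k.val) ^ (2 * p + 1) * π x :=
    fun x => by rw [pow_mul_val, map_mul, map_pow]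
  generalize π (2 ^ k.val) = s at k0 k1 k2 k3 k4
  obtain ⟨q, rfl⟩ : ∃ q, p = q + 1 := ⟨p - 1, by omega⟩
  rw [show 4 * (q + 1) - 2 * 1 = 4 * q + 2 by omega] at k1
  rw [mul_zero, Nat.sub_zero] at k0
  generalize hx : s ^ (2 * (q + 1) + 1) - 1 = x at k0 k1
  have k5 : ∀ i, s ^ (2 * i) * x = x := fun i => by
    induction i with
    | zero => simp
    | succ i ih => linear_combination s ^ 2 * ih + s ^ 4 * (k0 - k1) - (s ^ 2 - 1) * x * k2
  have k6 : 3 * x = 0 := by linear_combination k0 - k5 (q + 1) - k5 (2 * (q + 1))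
  have k7 : s * x = -x := by
    linear_combination k2 - s * k5 (q + 1) - (s ^ (2 * (q + 1) + 1) + 1) * hx
  have hll : ((2 * (q + 1) + 1 : ℕ) : ZMod n) * k + (2 * (q + 1) + 1 : ℕ) * k = 0 := by
    rw [← add_mul, ← Nat.cast_add, ← h2, h.nu_k]
  refine one_ne_zero (c.s0.symm.trans (sum_involution (fun J _ x => J (x - (2 * (q + 1) + 1 : ℕ) * k))
    (fun J hJ => ?_) (fun J hJ _ a => ?_) (fun J hJ => ?_) fun J _ => funext fun y => ?_))
  · obtain ⟨t, u⟩ := h.mem_TS_iff.1 hJ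
    obtain ⟨w, hw⟩ := (t 0).2.exists_w h.hν hl
    have e1 := sum_sgn h.hν h2 hw
    obtain ⟨m, hm⟩ := (h.phi (lam := 2 * (q + 1) + 1) 0 rfl (cl 1 ν k J 0) w).1 (by
      simpa [← hw] using u)
    have e2 := ann_ev k7 (cl 1 ν k J 0)
    rw [CharTwo.add_eq_zero, ← kerI_iff, ev_shift two_n, k4, h.ev_cl]
    rw [e1, show w = 1 - 3 * m by omega, ← k3] at e2
    simp only [evF, Fin.sum_univ_one, Fin.val_zero, pow_zero, one_mul]
    push_cast at e2
    linear_combination (2 * m - 1) * k6 - e2 - π (ev (2 ^ k.val) (cl 1 ν k J 0)) * hx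
  · have := (mem_TS.1 hJ).2.1 0
    rw [congrFun a 0] at this
    simp only [Pi.zero_apply] at this
    omega
  · obtain ⟨t1, t2, t3⟩ := mem_TS.1 hJ
    refine mem_TS.2 ⟨fun _ => t1 _, fun _ => t2 _, ?_⟩
    rw [ev_zero, add_zero] at t3 ⊢
    rw [ev_shift two_n, mul_left_comm, t3, mul_zero]
  · beta_reduce
    rw [sub_sub, hll, sub_zero]

theorem step2 (h : Co e ν k) (c : Cr (D0 (2 ^ k.val) lam) k (lam * k) χ) (hl : Odd lam)
    (hlν : lam < ν) : lam = 1 ∨ lam = 3 ∧ e = 1 := by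
  obtain ⟨p, rfl⟩ := hl
  by_contra a
  have he := h.e_pos
  have hQ := win_mul (show 1 ≤ p by omega) hlν
  by_cases h1 : e = 1 ∧ ν = 4 * p + 2
  · obtain ⟨rfl, h1⟩ := h1
    exact h.last c (by omega) h1
  refine (h.win c (odd_two_mul_add_one p) hQ ?_ _ fun z Z z1 z2 z3 z4 z5 => .inl fun i => ?_).1 rfl
  · refine or_iff_not_imp_left.2 fun b => ⟨(2 : ℕ), fun d => ?_, fun d => ?_⟩
    · rw [ZMod.val_cast_of_lt (by omega)] at d
      have := Nat.le_of_dvd two_pos d
      omega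
    · have := sgn_odd h.hν (odd_two_mul_add_one p) (2 : ℕ)
      rw [sgn, (hQ.even _ d).neg_one_pow, sgn, ZMod.val_cast_of_lt (by omega)] at this
      omega
  · by_cases b : e = 1
    · exact rigid h.hν (by omega) hlν (fun d => h1 ⟨b, d⟩) z1 z2 z3 i
    have z6 : 0 ≤ Z := z4 0 ▸ sum_nonneg fun _ _ => z2 _
    have z7 := sum_le_sum (s := range (2 * p + 1)) fun (c : ℕ) _ => z3 (i - c)
    have := hQ.sum_le i
    have := hQ.sum_le (i - (2 * p + 1 : ℕ))
    have : (2 : ℤ) ^ 2 ≤ 2 ^ e := pow_le_pow_right₀ one_le_two (by omega)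
    simp only [sum_add_distrib, z4, sub_right_comm i _ ((2 * p + 1 : ℕ) : ZMod ν)] at z7
    exact zero_of_sum (lam := 2 * p + 1) (by omega) z2 i (by
      rw [z4, Int.eq_zero_of_dvd_of_nonneg_of_lt z6 (by omega) z5])

lemma kasami [Fintype F] (h : Co e ν k) (hF : Fintype.card F = 2 ^ n) (he : Even n) {a : F}
    (ha : a ≠ 0) {d : ℕ} (hd : 0 < d) (hb : Bent n d a) (hl : Odd lam) (hlν : lam < ν)
    (hD : (d : RN n) = D0 (2 ^ k.val) lam) :
    e = 1 ∧ (2 ^ k.val) ^ 2 - 2 ^ k.val + 1 = (d : RN n) := by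
  obtain ⟨χ, c⟩ := cr_of_bent hF he ha hd hb (k := k) (l := lam * k)
    (by rw [hD, pow_mul_val, D0_mul _ hl])
  rcases h.step2 (hD ▸ c) hl hlν with rfl | ⟨rfl, h1⟩
  · have := NeZero.ne n
    have := Nat.even_iff.1 he
    refine (crit_coprime hF (by omega) ha hd hb ((ZMod.isUnit_iff_coprime _ _).1 ?_).symm).elim
    simp [hD, D0]
  · refine ⟨h1, ?_⟩
    simp only [hD, D0, sum_range_succ, sum_range_zero]
    ring

end Co

theorem ratio {F : Type} [Field F] [CharP F 2] [Fintype F] (hF : Fintype.card F = 2 ^ n)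
    (he : Even n) {a : F} (ha : a ≠ 0) {d : ℕ} (hd : 0 < d) (hb : Bent n d a) {k l : ZMod n}
    (H : (d : RN n) * (1 + 2 ^ k.val) = 1 + 2 ^ l.val) :
    (∀ i : ℕ, Odd i → (i : ZMod n) * l ≠ 0) ∧ 1 + 2 ^ l.val = 2 * (d : RN n) ∨
      k.val.gcd n = 1 ∧ ∃ i : ℕ, (2 ^ k.val) ^ 2 - 2 ^ k.val + 1 = 2 ^ i * (d : RN n) := by
  obtain ⟨χ, c⟩ := cr_of_bent hF he ha hd hb H
  have hg : 0 < k.val.gcd n := Nat.gcd_pos_of_pos_right _ (NeZero.pos n)
  have hn := (Nat.mul_div_cancel' (Nat.gcd_dvd_right k.val n)).symm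
  have hk := (Nat.mul_div_cancel' (Nat.gcd_dvd_left k.val n)).symm
  have hc := Nat.coprime_div_gcd_div_gcd hg
  generalize n / k.val.gcd n = ν at hn hc
  generalize k.val / k.val.gcd n = κ at hk hc
  generalize k.val.gcd n = e at hn hk hg
  have : NeZero ν := ⟨fun h => NeZero.ne n (by rw [hn, h, mul_zero])⟩
  refine or_iff_not_imp_left.2 fun hG => ?_
  replace hG : 2 * (d : RN n) ≠ 1 + 2 ^ l.val := fun h => hG ⟨fun _ => c.odd_ne, h.symm⟩
  rcases Nat.even_or_odd ν with hν | hν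
  · have h : Co e ν k := ⟨hn, hν, κ, hk, hc⟩
    obtain ⟨lam, hl, hlν, rfl⟩ := h.exists_lam H
    rcases h.step1 c hl hlν with h1 | h1 | h1
    · exact (h.kasami hF he ha hd hb hl hlν h1).imp_right fun h2 => ⟨0, by rw [h2]; simp⟩
    · obtain ⟨m, rfl⟩ := Nat.exists_eq_add_of_le hlν.le
      have hm : Odd m := by rwa [Nat.even_add', iff_true_left hl] at hν
      have hp : 0 < 2 ^ (k.val * m) * d := by positivity
      refine (h.kasami hF he (pow_ne_zero _ ha) hp (hb.equiv hF hd hp .rfl) hm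
        (by have := hl.pos; omega) ?_).imp_right fun h2 => ⟨k.val * m, by rw [h2]; simp⟩
      have := h.pow_nu
      push_cast
      rw [h1, eta_eq, D0, D0, D0, sum_range_add, pow_mul]
      simp only [pow_add, ← mul_sum] at this ⊢
      rw [hl.neg_pow]
      linear_combination (∑ i ∈ range m, (-2 ^ k.val) ^ i) * this
    · exact absurd h1 hG
  · have h0 : (ν : ZMod n) * k = 0 := by
      rw [← ZMod.natCast_zmod_val k, hk, ← Nat.cast_mul, ZMod.natCast_eq_zero_iff]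
      exact ⟨κ, by rw [← mul_assoc, mul_comm ν, ← hn]⟩
    refine (c.caseA (fun Δ hΔ => two_cancel ?_) (fun h => hG ?_) fun i hi h =>
      c.odd_ne (hν.mul hi) (by rw [Nat.cast_mul, mul_assoc, ← h, h0])).elim
    · have := congrArg (ev (2 : RN n)) (funext hΔ)
      rw [ev_add, ev_shift two_n, show (fun _ => 0) = (0 : ZMod n → ℤ) from rfl, ev_zero] at this
      have e1 := ann_pow (σ := (2 : RN n) ^ k.val) (x := d * ev 2 Δ)
        (by linear_combination this + ev 2 Δ * H) ν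
      rw [← pow_mul_val, h0, hν.neg_one_pow, ZMod.val_zero] at e1
      linear_combination e1
    · rw [h, ZMod.val_zero] at H
      linear_combination H

end Pool.Agent.Lib.MP_0287c7_lc
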