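import Pool.Agent.Lib.MP_0287c7_lc.Tab

set_option autoImplicit false
open Finset

namespace Pool.Agent.Lib.MP_0287c7_lc

variable {h : ℕ} [NeZero h] {k : ℕ}

/-- the differences generate -/
def Gen (p q r : ZMod h) : Prop := ∃ α β : ZMod h, α * (q - p) + β * (r - p) = 1

omit [NeZero h] in
lemma Gen.swap12 {p q r : ZMod h} (hg : Gen p q r) : Gen q p r := by
  obtain ⟨α, β, e⟩ := hg
  exact ⟨-α - β, β, by linear_combination e⟩

omit [NeZero h] in
lemma Gen.swap23 {p q r : ZMod h} (hg : Gen p q r) : Gen p r q := by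
  obtain ⟨α, β, e⟩ := hg
  exact ⟨β, α, by linear_combination e⟩

lemma all_canon (hk : 0 < k) {j p q r : ZMod h} (ha : All k 0 1 j) (hg : Gen p q r)
    (hr : r - p = j * (q - p)) : All k p q r := by
  obtain ⟨α, β, e⟩ := hg
  exact ha.of_canon hk (v := α + β * j) (by linear_combination e - β * hr) hr

lemma two_tors {e : ZMod h} (he : 2 * e = 0) (x : ZMod h) : x * e = 0 ∨ x * e = e := by
  rw [← ZMod.natCast_zmod_val x, ← Nat.div_add_mod x.val 2]
  rcases Nat.mod_two_eq_zero_or_one x.val with h1 | h1 <;> rw [h1] <;> push_cast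
  · left; linear_combination ((x.val / 2 : ℕ) : ZMod h) * he
  · right; linear_combination ((x.val / 2 : ℕ) : ZMod h) * he

lemma all_relB (hk : 0 < k) (h3 : 3 ≤ h) {p q r : ZMod h} (hg : Gen p q r) (hne : r ≠ p)
    (hr : 2 * (r - p) = 0) : All k p q r := by
  obtain ⟨α, β, e⟩ := hg
  have h0 : (r - p).val ≠ 0 := by rwa [ZMod.val_ne_zero, sub_ne_zero]
  have h1 : h ∣ 2 * (r - p).val := by
    rw [← ZMod.natCast_eq_zero_iff]; simpa using hr
  have h2 := ZMod.val_lt (r - p)
  have hh : h = 2 * (r - p).val := by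
    obtain ⟨c, hc⟩ := h1
    have : c = 1 := by
      rcases c with _ | _ | c
      · omega
      · rfl
      · nlinarith
    rw [hc, this, mul_one]
  have ha := allB hh (by omega) hk
  have key : ∀ {p' q' r' v : ZMod h}, v * (q' - p') = 1 → r' - p' = r - p → All k p' q' r' := by
    intro p' q' r' v hv he
    refine ha.of_canon hk hv ?_
    rw [mul_comm, (unit_mul_H hh hv).1, he, ZMod.natCast_zmod_val]
  rcases two_tors hr β with b | b
  · exact key (v := α) (by linear_combination e - b) rfl
  rcases two_tors hr (q - p) with c | c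
  · refine (key (p' := r) (q' := q) (r' := p) (v := α + (1 - α) * (r - p)) ?_
      (by linear_combination -hr)).swap12.swap23.swap12
    have e2 : (r - p) * (r - p) = r - p := by
      linear_combination (-(r - p)) * b - α * c + (r - p) * e
    linear_combination e - b + (1 - α) * c - (1 - α) * e2 - hr
  · exact key (v := α + (r - p)) (by linear_combination e - b + c) rfl

lemma not_three {i j : ZMod h} (hg : Gen 0 i j) (h3 : 3 ∣ h) (hi : 3 ∣ i.val) (hj : 3 ∣ j.val) :
    False := by
  obtain ⟨α, β, e⟩ := hg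
  have := congrArg (ZMod.castHom h3 (ZMod 3)) e
  simp only [sub_zero, map_add, map_mul, map_one, ZMod.castHom_apply] at this
  rw [ZMod.cast_eq_val i, ZMod.cast_eq_val j, (ZMod.natCast_eq_zero_iff _ _).2 hi,
    (ZMod.natCast_eq_zero_iff _ _).2 hj] at this
  simp at this

lemma all_tie (hk : 0 < k) (he : Even (h * k)) (h12 : 12 ≤ h) {i j : ZMod h} (hg : Gen 0 i j)
    (h3 : 3 ∣ h) (ht : 3 ∣ i.val + j.val) : All k 0 i j := by
  have hn : ¬ 3 ∣ i.val := fun h1 => not_three hg h3 h1 ((Nat.dvd_add_right h1).1 ht)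
  obtain ⟨α, β, e⟩ := hg
  refine All.of_wit hk he fun σ => wit_indep hk (isBit_ind ∅ 3 3 (h / 3 - 1) 0) (fun y => ?_) ?_
    (Zc := fun y => y.val < 3) (inj_of_cols (α := α) (β := β) (by simpa using e) fun y => ?_)
    fun y hy => ?_
  · have a1 := val_sub' y i
    have a2 := val_sub' y j
    have := ZMod.val_lt i
    have := ZMod.val_lt j
    simp only [mul3, ind, pat, sub_zero, add_zero, notMem_empty, false_or]
    split_ifs at a1 a2 ⊢ <;> omega
  · rw [sum_ind 0 (by omega) (by simp) (by omega)]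
    simp only [card_empty]
    omega
  · refine ⟨(y.val % 3 : ℕ), y.val / 3, ?_, ?_⟩
    · rw [ZMod.val_cast_of_lt (by omega)]; omega
    · have := congrArg (Nat.cast : ℕ → ZMod h) (Nat.div_add_mod y.val 3)
      rw [ZMod.natCast_zmod_val] at this
      push_cast at this
      linear_combination this
  · simp only [ind, pat, add_zero, notMem_empty, false_or]
    split_ifs <;> omega

/-- numeric farness -/
def farN (h x : ℕ) : Bool := Nat.ble h (4 * (x % h)) && Nat.ble (4 * (x % h)) (3 * h)

/-- numeric canonical form -/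
def canN (h j0 p q r : ℕ) : Bool := (j0 * (q + h - p) + p) % h == r

/-- the check for one tile -/
def chkPair (h i j : ℕ) : Bool :=
  2 * i % h == 0 || 2 * j % h == 0 || 2 * (j + h - i) % h == 0 ||
  ((3 :: (tab.filter fun x => x.1 == h).map Prod.snd).any fun j0 => (j0 != 3 || Nat.ble 4 h) &&
    (canN h j0 0 i j || canN h j0 0 j i || canN h j0 i 0 j || canN h j0 i j 0 || canN h j0 j 0 i ||
      canN h j0 j i 0)) ||
  (if h % 3 == 0 && (i + j) % 3 == 0 then Nat.ble 12 h else
    (List.range (h / 2 + 1)).any fun ρ => farN h (ρ * i) && farN h (ρ * j) && farN h (ρ * (j + h - i)))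

/-- the check for one modulus -/
def chkH (h : ℕ) : Bool :=
  (List.range h).all fun i => i == 0 || h % i != 0 || (List.range h).all fun j =>
    j == 0 || j == i || Nat.gcd (Nat.gcd i j) h != 1 || chkPair h i j

lemma chk_small : (List.range 90).all chkH = true := by decide +kernel

omit [NeZero h] in
lemma farN_sound {x : ℕ} (hx : farN h x = true) : far (x : ZMod h) := by
  simp only [farN, Bool.and_eq_true, Nat.ble_eq] at hx
  unfold far
  rwa [ZMod.val_natCast]

lemma canN_sound (hk : 0 < k) {j0 : ℕ} {p q r : ZMod h} (ha : All k (0 : ZMod h) 1 j0)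
    (hg : Gen p q r) (hc : canN h j0 p.val q.val r.val = true) : All k p q r := by
  refine all_canon hk ha hg ?_
  simp only [canN, beq_iff_eq] at hc
  have := congrArg (Nat.cast : ℕ → ZMod h) hc
  have hp := ZMod.val_lt p
  rw [ZMod.natCast_mod] at this
  push_cast [show p.val ≤ q.val + h by omega] at this
  simp only [ZMod.natCast_val, ZMod.cast_id', id, ZMod.natCast_self] at this
  linear_combination -this

lemma chkPair_sound (hk : 0 < k) (he : Even (h * k)) (h3 : 3 ≤ h) {i j : ZMod h} (hg : Gen 0 i j)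
    (hi : i ≠ 0) (hj : j ≠ 0) (hij : j ≠ i) (hc : chkPair h i.val j.val = true) : All k 0 i j := by
  have hl := ZMod.val_lt i
  have c0 : ∀ x : ℕ, x % h = 0 → (x : ZMod h) = 0 := fun x hx =>
    (ZMod.natCast_eq_zero_iff _ _).2 (Nat.dvd_of_mod_eq_zero hx)
  have cs : ((j.val + h - i.val : ℕ) : ZMod h) = j - i := by
    push_cast [show i.val ≤ j.val + h by omega]
    simp
  simp only [chkPair, Bool.or_eq_true, beq_iff_eq, List.any_eq_true, Bool.and_eq_true,
    List.mem_cons, List.mem_map, List.mem_filter, bne_iff_ne, Nat.ble_eq] at hc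
  rcases hc with (((b | b) | b) | ⟨j0, b1, b2, b3⟩) | b
  · exact (all_relB hk h3 hg.swap23 hi (by simpa using c0 _ b)).swap23
  · exact all_relB hk h3 hg hj (by simpa using c0 _ b)
  · refine (all_relB hk h3 hg.swap12 hij ?_).swap12
    have := c0 _ b
    rwa [Nat.cast_mul, cs, Nat.cast_ofNat] at this
  · have ha : All k (0 : ZMod h) 1 j0 := by
      rcases b1 with rfl | ⟨⟨x, y⟩, ⟨a1, a2⟩, rfl⟩
      · simpa using allA (b2.resolve_left (by simp)) hk he
      · simp only at a2
        subst a2
        exact all_tab a1 hk he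
    rw [← ZMod.val_zero (n := h)] at b3
    rcases b3 with ((((b | b) | b) | b) | b) | b
    · exact canN_sound hk ha hg b
    · exact (canN_sound hk ha hg.swap23 b).swap23
    · exact (canN_sound hk ha hg.swap12 b).swap12
    · exact (canN_sound hk ha hg.swap12.swap23 b).swap23.swap12
    · exact (canN_sound hk ha hg.swap23.swap12 b).swap12.swap23
    · exact (canN_sound hk ha hg.swap12.swap23.swap12 b).swap12.swap23.swap12
  · split_ifs at b with ht
    · exact all_tie hk he (Nat.ble_eq.mp b) hg (Nat.dvd_of_mod_eq_zero ht.1) (Nat.dvd_of_mod_eq_zero ht.2)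
    · simp only [List.any_eq_true, Bool.and_eq_true] at b
      obtain ⟨ρ, -, ⟨f1, f2⟩, f3⟩ := b
      refine All.of_wit hk he fun σ => wit_bohr hk ⟨-ρ, ?_, ?_, ?_⟩ (inj_of_not_tie (by omega) _)
      · simpa using farN_sound f1
      · simpa using farN_sound f2
      · have := farN_sound f3
        rw [Nat.cast_mul, cs] at this
        convert this using 1; ring

lemma gen_gcd {i j : ZMod h} (hg : Gen 0 i j) : Nat.gcd (Nat.gcd i.val j.val) h = 1 := by
  obtain ⟨α, β, e⟩ := hg
  set g := Nat.gcd (Nat.gcd i.val j.val) h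
  have h3 : g ∣ h := Nat.gcd_dvd_right _ _
  have hi : g ∣ i.val := (Nat.gcd_dvd_left _ _).trans (Nat.gcd_dvd_left _ _)
  have hj : g ∣ j.val := (Nat.gcd_dvd_left _ _).trans (Nat.gcd_dvd_right _ _)
  have := congrArg (ZMod.castHom h3 (ZMod g)) e
  simp only [sub_zero, map_add, map_mul, map_one, ZMod.castHom_apply] at this
  rw [ZMod.cast_eq_val i, ZMod.cast_eq_val j, (ZMod.natCast_eq_zero_iff _ _).2 hi,
    (ZMod.natCast_eq_zero_iff _ _).2 hj, mul_zero, mul_zero, add_zero, ← Nat.cast_one, eq_comm,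
    ZMod.natCast_eq_zero_iff] at this
  exact Nat.dvd_one.1 this

lemma all_small (hk : 0 < k) (he : Even (h * k)) (h3 : 3 ≤ h) (h90 : h < 90) {i j : ZMod h}
    (hg : Gen 0 i j) (hi : i ≠ 0) (hj : j ≠ 0) (hij : j ≠ i) : All k 0 i j := by
  obtain ⟨d, hd, u, hu, rfl⟩ := ZMod.eq_unit_mul_divisor i
  obtain ⟨v, hv⟩ := hu.exists_left_inv
  have hd0 : (d : ZMod h) ≠ 0 := fun h0 => hi (by rw [h0, mul_zero])
  have hdh : d < h := by
    refine lt_of_le_of_ne (Nat.le_of_dvd (by omega) hd) ?_
    rintro rfl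
    exact hd0 (ZMod.natCast_self _)
  have hg' : Gen 0 (d : ZMod h) (v * j) := by
    obtain ⟨α, β, e⟩ := hg
    exact ⟨α * u, β * u, by linear_combination e + β * j * hv⟩
  have hj' : v * j ≠ 0 := fun h0 => hj (by linear_combination u * h0 - j * hv)
  have hij' : v * j ≠ d := fun h0 => hij (by linear_combination u * h0 - j * hv)
  have hc := chk_small
  simp only [chkH, List.all_eq_true, List.mem_range, Bool.or_eq_true, beq_iff_eq, bne_iff_ne] at hc
  have h1 : chkPair h (d : ZMod h).val (v * j).val = true := by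
    rcases hc h h90 _ (ZMod.val_lt (d : ZMod h)) with (b | b) | b
    · exact absurd ((ZMod.val_eq_zero _).1 b) hd0
    · rw [ZMod.val_cast_of_lt hdh] at b
      exact absurd (Nat.mod_eq_zero_of_dvd hd) b
    · rcases b _ (ZMod.val_lt (v * j)) with ((b | b) | b) | b
      · exact absurd ((ZMod.val_eq_zero _).1 b) hj'
      · exact absurd (ZMod.val_injective _ b) hij'
      · exact absurd (gen_gcd hg') b
      · exact b
  have := (chkPair_sound hk he h3 hg' hd0 hj' hij' h1).mul hv
  rwa [mul_zero, ← mul_assoc, mul_comm u v, hv, one_mul] at this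

end Pool.Agent.Lib.MP_0287c7_lc
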