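import Pool.Agent.Lib.MP_0287c7_lc.Data

set_option autoImplicit false
open Finset

namespace Pool.Agent.Lib.MP_0287c7_lc

open Classical in
lemma gcd_le {F : Type} [Field F] [Fintype F] {n d : ℕ} (hF : Fintype.card F = 2 ^ n) (hn : 2 ≤ n)
    (hd : 0 < d) {b : F} (hb : Bent n d b) : Nat.gcd (2 ^ n - 1) d ≤ 2 ^ (n / 2) + 1 := by
  set g := Nat.gcd (2 ^ n - 1) d with hg
  have h1 : ∑ c : F, sg n (b * c ^ d) * sg n (0 * c) = 1 + ∑ c : Fˣ, sg n (b * ((c ^ d : Fˣ) : F)) := by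
    rw [← add_sum_erase univ _ (mem_univ (0 : F))]
    simp only [zero_pow hd.ne', mul_zero, zero_mul, sg_zero, mul_one]
    congr 1
    refine (sum_bij (fun (c : Fˣ) _ => (c : F)) (fun c _ => by simp) (fun _ _ _ _ h => Units.ext h)
      (fun x hx => ⟨Units.mk0 x (ne_of_mem_erase hx), mem_univ _, rfl⟩) (fun c _ => by simp)).symm
  have h2 : (g : ℤ) ∣ ∑ c : Fˣ, sg n (b * ((c ^ d : Fˣ) : F)) := by
    rw [sum_comp (fun y : Fˣ => sg n (b * (y : F))) (fun c : Fˣ => c ^ d)]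
    refine dvd_sum fun y hy => ?_
    obtain ⟨c, _, rfl⟩ := mem_image.1 hy
    have h3 := MonoidHom.card_fiber_eq_of_mem_range (powMonoidHom d : Fˣ →* Fˣ)
      (x := c ^ d) (y := 1) ⟨c, rfl⟩ ⟨1, map_one _⟩
    have h4 := IsCyclic.card_powMonoidHom_ker Fˣ d
    rw [Nat.card_eq_fintype_card, Nat.card_eq_fintype_card, Fintype.card_units, hF, ← hg,
      Fintype.card_subtype] at h4
    simp only [powMonoidHom_apply, MonoidHom.mem_ker] at h3 h4
    rw [h3, h4, nsmul_eq_mul]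
    exact dvd_mul_right _ _
  have h5 := hb 0
  rw [h1] at h5
  have h6 : (2 : ℤ) ≤ 2 ^ (n / 2) := by
    calc (2 : ℤ) = 2 ^ 1 := rfl
      _ ≤ 2 ^ (n / 2) := pow_le_pow_right₀ (by norm_num) (by omega)
  have h7 : (g : ℤ) ≤ 2 ^ (n / 2) + 1 := by
    rcases (abs_eq (by positivity)).1 h5 with h | h
    · have := Int.le_of_dvd (by omega) h2
      omega
    · have := Int.le_of_dvd (by omega) ((dvd_neg).2 h2)
      omega
  exact_mod_cast h7

lemma tab_3 {k : ℕ} (hk : 0 < k) : All k (0 : ZMod 3) 1 ((2 : ℕ) : ZMod 3) := by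
  intro u v huv F _ _ _ hF b _ hb
  exfalso
  have hu : ∀ u v : ZMod 3, v * u = 1 → ((u * 1).val = 1 ∧ (u * ((2 : ℕ) : ZMod 3)).val = 2) ∨
      ((u * 1).val = 2 ∧ (u * ((2 : ℕ) : ZMod 3)).val = 1) := by decide
  have hd : dd k (u * 0) (u * 1) (u * ((2 : ℕ) : ZMod 3)) = 1 + 2 ^ k + 2 ^ (2 * k) := by
    unfold dd
    rcases hu u v huv with ⟨h1, h2⟩ | ⟨h1, h2⟩ <;> rw [h1, h2] <;> simp <;> ring
  have h1 := gcd_le hF (by omega) (dd_pos _ _ _) hb
  rw [hd, Nat.gcd_eq_right] at h1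
  · have : 2 ^ (3 * k / 2) ≤ 2 ^ (2 * k) := Nat.pow_le_pow_right (by norm_num) (by omega)
    have : 0 < 2 ^ k := by positivity
    omega
  · refine ⟨2 ^ k - 1, ?_⟩
    zify [Nat.one_le_two_pow]
    ring

lemma tab_6 {k : ℕ} : All k (0 : ZMod 6) 1 ((2 : ℕ) : ZMod 6) := by
  intro u v huv F _ _ _ _ _ _ _
  have hu : ∀ u v : ZMod 6, v * u = 1 → ((u * 1).val = 1 ∧ (u * ((2 : ℕ) : ZMod 6)).val = 2) ∨
      ((u * 1).val = 5 ∧ (u * ((2 : ℕ) : ZMod 6)).val = 4) := by decide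
  refine ⟨_, Or.inr ⟨k, rfl, rfl⟩, ?_⟩
  unfold dd
  rcases hu u v huv with ⟨h1, h2⟩ | ⟨h1, h2⟩ <;> rw [h1, h2, mul_zero, ZMod.val_zero]
  · refine ⟨0, ?_⟩
    rw [show 2 ^ 0 * (2 ^ (k * 0) + 2 ^ (k * 1) + 2 ^ (k * 2)) = 2 ^ (2 * k) + 2 ^ k + 1 by ring]
  · refine ⟨2 * k, ?_⟩
    rw [← ZMod.natCast_eq_natCast_iff]
    have e := two_pow_N (n := 6 * k)
    push_cast
    linear_combination (-(2 ^ k) - 1) * e

variable {h : ℕ} [NeZero h] {k : ℕ}

lemma all_odd {j : ℕ} {zc As Bs cs : List ℕ} {Gs Ds : List (List ℕ)} (ho : h % 2 = 1)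
    (hi : Inj (0 : ZMod h) 1 j fun y => y.val ∈ zc)
    (se : chkSeq (0 : ZMod h) 1 j zc 4 As Gs Bs Ds = true) (n2 : numAll h 2 j cs = true)
    (hk : 0 < k) (he : Even (h * k)) : All k (0 : ZMod h) 1 j := by
  have hk2 : k % 2 = 0 := by
    rcases Nat.even_mul.1 he with h1 | h1
    · rw [Nat.even_iff] at h1; omega
    · exact Nat.even_iff.1 h1
  by_cases h2 : k = 2
  · subst h2; exact numAll_sound (by omega) n2
  · exact All.of_wit hk he (chkSeq_sound se hi (by omega) (by omega))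

lemma all_even {j : ℕ} {zc As Bs As' Bs' cs cs' : List ℕ} {Gs Ds Gs' Ds' : List (List ℕ)}
    (h2 : 2 ≤ h) (hi : Inj (0 : ZMod h) 1 j fun y => y.val ∈ zc)
    (se : chkSeq (0 : ZMod h) 1 j zc 4 As Gs Bs Ds = true)
    (so : chkSeq (0 : ZMod h) 1 j zc 3 As' Gs' Bs' Ds' = true) (n1 : numAll h 1 j cs' = true)
    (n2 : numAll h 2 j cs = true) (hk : 0 < k) (he : Even (h * k)) : All k (0 : ZMod h) 1 j := by
  by_cases h1 : k = 1
  · subst h1; exact numAll_sound (by omega) n1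
  by_cases h2 : k = 2
  · subst h2; exact numAll_sound (by omega) n2
  by_cases h3 : k % 2 = 0
  · exact All.of_wit hk he (chkSeq_sound se hi (by omega) (by omega))
  · exact All.of_wit hk he (chkSeq_sound so hi (by omega) (by omega))

lemma allB {H : ℕ} (hh : h = 2 * H) (h2 : 2 ≤ H) (hk : 0 < k) : All k (0 : ZMod h) 1 H := by
  have he : Even (h * k) := ⟨H * k, by rw [hh]; ring⟩
  by_cases h0 : H % 2 = 0
  · exact All.of_wit hk he (witB0 hk hh (w := H / 2) (by omega))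
  obtain ⟨w, hw⟩ : ∃ w, H = 2 * w + 3 := ⟨(H - 3) / 2, by omega⟩
  by_cases h1 : k % 2 = 1
  · exact resB_odd hh hw h1
  by_cases h3 : k = 2
  · subst h3; exact resB_two hh hw
  by_cases h7 : 7 ≤ H
  · exact All.of_wit hk he (witB_big hh hw h7 (by omega) (by omega))
  have : H = 3 ∨ H = 5 := by omega
  rcases this with rfl | rfl
  · obtain rfl : h = 6 := hh
    exact All.of_wit hk he fun σ => chkExact_sound ex_6_3 (injB (H := 3) rfl _) (by omega) σ (by omega)
  · obtain rfl : h = 10 := hh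
    exact All.of_wit hk he fun σ => chkExact_sound ex_10_5 (injB (H := 5) rfl _) (by omega) σ (by omega)

lemma allA (h4 : 4 ≤ h) (hk : 0 < k) (he : Even (h * k)) : All k (0 : ZMod h) 1 3 := by
  have c3 : ((3 : ℕ) : ZMod h) = 3 := by simp
  have hpar : h % 2 = 1 → k % 2 = 0 := by
    intro ho
    rcases Nat.even_mul.1 he with h1 | h1
    · rw [Nat.even_iff] at h1; omega
    · exact Nat.even_iff.1 h1
  by_cases h0 : h % 4 = 0
  · exact All.of_wit hk he (witA0 hk (w := h / 4) (by omega))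
  by_cases h6 : h = 6
  · subst h6; rw [← c3]; exact allB rfl (by omega) hk
  by_cases k1 : k = 1
  · subst k1
    by_cases h74 : h < 74
    · rw [← c3]; exact numAll_sound (by omega) (numA1 h h74 (by omega) (by omega))
    intro u v huv
    by_cases hv : v = -1 ∨ v = 3
    · refine ResN.of_coprime (by omega) (dd_pos _ _ _) ?_
      rw [mul_one h]
      exact coprimeA h4 (by omega) huv hv
    · push Not at hv
      refine resN_of_wit hk he huv (witA_one (by omega) (by omega) ?_ hv.1 hv.2)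
      exact (unit_mul_H (H := h / 2) (by omega) (u := v) (v := u) (by rw [mul_comm, huv])).2
  by_cases k2 : k = 2
  · subst k2
    by_cases h49 : h < 49
    · rw [← c3]; exact numAll_sound (by omega) (numA2 h h49 h0 (by omega) h6)
    · exact All.of_wit hk he (witA_two (by omega) h0)
  by_cases h1 : h % 4 = 1
  · exact All.of_wit hk he (witA1 (w := (h - 5) / 4) (by omega) (by omega) (by omega))
  by_cases h7 : h = 7
  · subst h7
    rw [← c3]
    by_cases k4 : k = 4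
    · subst k4; exact numAll_sound (by omega) (numS (7, 4, 3) (by simp))
    by_cases k6 : k = 6
    · subst k6; exact numAll_sound (by omega) (numS (7, 6, 3) (by simp))
    exact All.of_wit hk he (chkSeq_sound se_7_3 (injA h4 _) (by omega) (by omega))
  by_cases h3 : h % 4 = 3
  · exact All.of_wit hk he (witA3 (w := (h - 7) / 4) (by omega) (by omega) (by omega) (by omega))
  by_cases h18 : 18 ≤ h
  · exact All.of_wit hk he (witA2 (w := (h - 18) / 4) (by omega) (by omega))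
  have : h = 10 ∨ h = 14 := by omega
  rcases this with rfl | rfl
  · rw [← c3]
    by_cases k3 : k % 2 = 0
    · exact All.of_wit hk he fun σ => chkExact_sound ex_10_3 (injA h4 _) (by omega) σ k3
    · exact All.of_wit hk he (chkSeq_sound so_10_3 (injA h4 _) (by omega) (by omega))
  · rw [← c3]
    by_cases k3 : k % 2 = 0
    · exact All.of_wit hk he (chkSeq_sound se_14_3 (injA h4 _) (by omega) (by omega))
    · exact All.of_wit hk he (chkSeq_sound so_14_3 (injA h4 _) (by omega) (by omega))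

/-- the exceptional tiles -/
def tab : List (ℕ × ℕ) := [(3, 2), (6, 2), (9, 2), (13, 4), (15, 4), (17, 4), (18, 4), (19, 8),
  (20, 4), (22, 4), (25, 4), (25, 10), (26, 8), (27, 4), (29, 4), (30, 7), (33, 7), (34, 4), (35, 7),
  (37, 11), (38, 7), (41, 4), (43, 7), (45, 19), (49, 19)]

lemma all_tab {j : ℕ} (hm : (h, j) ∈ tab) (hk : 0 < k) (he : Even (h * k)) :
    All k (0 : ZMod h) 1 j := by
  simp only [tab, List.mem_cons, Prod.mk.injEq, List.not_mem_nil, or_false] at hm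
  rcases hm with ⟨rfl, rfl⟩ | ⟨rfl, rfl⟩ | ⟨rfl, rfl⟩ | ⟨rfl, rfl⟩ | ⟨rfl, rfl⟩ | ⟨rfl, rfl⟩ |
    ⟨rfl, rfl⟩ | ⟨rfl, rfl⟩ | ⟨rfl, rfl⟩ | ⟨rfl, rfl⟩ | ⟨rfl, rfl⟩ | ⟨rfl, rfl⟩ | ⟨rfl, rfl⟩ |
    ⟨rfl, rfl⟩ | ⟨rfl, rfl⟩ | ⟨rfl, rfl⟩ | ⟨rfl, rfl⟩ | ⟨rfl, rfl⟩ | ⟨rfl, rfl⟩ | ⟨rfl, rfl⟩ |
    ⟨rfl, rfl⟩ | ⟨rfl, rfl⟩ | ⟨rfl, rfl⟩ | ⟨rfl, rfl⟩ | ⟨rfl, rfl⟩
  · exact tab_3 hk
  · exact tab_6
  · refine all_odd rfl (inj_of_cols (α := 1) (β := 0) (by simp) fun y => ?_) se_9_2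
      (numS (9, 2, 2) (by simp)) hk he
    have : ∀ y : ZMod 9, ∃ z : ZMod 9, ∃ t : Fin 3, z.val ∈ [1, 3, 8] ∧ z = y - 3 * (t : ℕ) := by
      decide
    obtain ⟨z, t, h1⟩ := this y
    exact ⟨z, t, h1⟩
  · exact all_odd rfl (inj_of_not_tie (by decide) _) se_13_4 (numS (13, 2, 4) (by simp)) hk he
  · exact All.of_wit hk he (chkInd_sound in_15_4 (inj_of_not_tie (by decide) _) hk)
  · exact all_odd rfl (inj_of_not_tie (by decide) _) se_17_4 (numS (17, 2, 4) (by simp)) hk he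
  · exact all_even (by omega) (inj_of_not_tie (by decide) _) se_18_4 so_18_4
      (numS (18, 1, 4) (by simp)) (numS (18, 2, 4) (by simp)) hk he
  · exact all_odd rfl (inj_of_not_tie (by decide) _) se_19_8 (numS (19, 2, 8) (by simp)) hk he
  · exact All.of_wit hk he (chkInd_sound in_20_4 (inj_of_not_tie (by decide) _) hk)
  · exact All.of_wit hk he (chkInd_sound in_22_4 (inj_of_not_tie (by decide) _) hk)
  · exact all_odd rfl (inj_of_not_tie (by decide) _) se_25_4 (numS (25, 2, 4) (by simp)) hk he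
  · exact all_odd rfl (inj_of_not_tie (by decide) _) se_25_10 (numS (25, 2, 10) (by simp)) hk he
  · exact all_even (by omega) (inj_of_not_tie (by decide) _) se_26_8 so_26_8
      (numS (26, 1, 8) (by simp)) (numS (26, 2, 8) (by simp)) hk he
  · exact All.of_wit hk he (chkInd_sound in_27_4 (inj_of_not_tie (by decide) _) hk)
  · exact All.of_wit hk he (chkInd_sound in_29_4 (inj_of_not_tie (by decide) _) hk)
  · exact All.of_wit hk he (chkInd_sound in_30_7 (inj_of_not_tie (by decide) _) hk)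
  · exact all_odd rfl (inj_of_not_tie (by decide) _) se_33_7 (numS (33, 2, 7) (by simp)) hk he
  · exact All.of_wit hk he (chkInd_sound in_34_4 (inj_of_not_tie (by decide) _) hk)
  · exact All.of_wit hk he (chkInd_sound in_35_7 (inj_of_not_tie (by decide) _) hk)
  · exact all_odd rfl (inj_of_not_tie (by decide) _) se_37_11 (numS (37, 2, 11) (by simp)) hk he
  · exact All.of_wit hk he (chkInd_sound in_38_7 (inj_of_not_tie (by decide) _) hk)
  · exact All.of_wit hk he (chkInd_sound in_41_4 (inj_of_not_tie (by decide) _) hk)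
  · exact All.of_wit hk he (chkInd_sound in_43_7 (inj_of_not_tie (by decide) _) hk)
  · exact All.of_wit hk he (chkInd_sound in_45_19 (inj_of_not_tie (by decide) _) hk)
  · exact All.of_wit hk he (chkInd_sound in_49_19 (inj_of_not_tie (by decide) _) hk)

end Pool.Agent.Lib.MP_0287c7_lc
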